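import Pool.Agent.KS6_96.He.LDefs

namespace Pool.Agent.KS6_96.He.Lib

open MvPolynomial

attribute [local instance] MvPolynomial.gradedAlgebra

theorem hc_mul {n : ℕ} {d : ℕ} {p : MvPolynomial (Fin n) ℂ} (hp : p.IsHomogeneous d)
    (q : MvPolynomial (Fin n) ℂ) (m : ℕ) :
    homogeneousComponent m (p * q) = if d ≤ m then p * homogeneousComponent (m - d) q else 0 := by
  have h := DirectSum.coe_decompose_mul_of_left_mem
    (𝒜 := homogeneousSubmodule (Fin n) ℂ) (a := p) (b := q) (i := d) m hp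
  rw [← decomposition.decompose'_apply, ← decomposition.decompose'_apply]
  exact h

theorem hc_dvd {n : ℕ} {ℓ f : MvPolynomial (Fin n) ℂ} {d : ℕ} (hℓ : ℓ.IsHomogeneous d)
    (h : ℓ ∣ f) (m : ℕ) : ℓ ∣ homogeneousComponent m f := by
  obtain ⟨g, rfl⟩ := h
  rw [hc_mul hℓ]
  split_ifs
  · exact dvd_mul_right _ _
  · exact dvd_zero _

theorem eval_act {n : ℕ} (w : SignedPerm n) (x : Fin n → ℂ) (p : MvPolynomial (Fin n) ℂ) :
    eval x (act w p) = eval (fun i => (((w.1 (i, 1)).2 : ℤ) : ℂ) * x (w.1 (i, 1)).1) p := by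
  unfold act
  rw [← MvPolynomial.coe_aeval_eq_eval, ← MvPolynomial.coe_aeval_eq_eval]
  have : (aeval x).comp (aeval fun i => svar (w.1 (i, 1))) =
    (aeval (fun i => (((w.1 (i, 1)).2 : ℤ) : ℂ) * x (w.1 (i, 1)).1) :
      MvPolynomial (Fin n) ℂ →ₐ[ℂ] ℂ) := by
    apply MvPolynomial.algHom_ext
    intro i
    simp [svar]
  exact congrArg (fun f => f p) this

theorem mkSigned_apply {n : ℕ} (σ : Equiv.Perm (Fin n)) (ε : Fin n → ℤˣ) (i : Fin n) (s : ℤˣ) :
    (mkSigned σ ε).1 (i, s) = (σ i, ε i * s) := rfl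

theorem mkSigned_mul {n : ℕ} (σ τ : Equiv.Perm (Fin n)) (ε η : Fin n → ℤˣ) :
    mkSigned σ ε * mkSigned τ η = mkSigned (σ * τ) (fun i => ε (τ i) * η i) := by
  apply Subtype.ext
  ext ⟨i, s⟩ : 1
  show (mkSigned σ ε).1 ((mkSigned τ η).1 (i, s)) = _
  simp only [mkSigned_apply, Equiv.Perm.coe_mul, Function.comp_apply, mul_assoc]

theorem act_mkSigned_X {n : ℕ} (σ : Equiv.Perm (Fin n)) (ε : Fin n → ℤˣ) (i : Fin n) :
    act (mkSigned σ ε) (X i) = C (((ε i : ℤˣ) : ℤ) : ℂ) * X (σ i) := by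
  simp [act, svar, mkSigned_apply]

theorem exists_mkSigned {n : ℕ} (w : SignedPerm n) : ∃ σ ε, w = mkSigned σ ε := by
  have key : ∀ i s, w.1 (i, s) = ((w.1 (i, 1)).1, (w.1 (i, 1)).2 * s) := by
    intro i s
    rcases Int.units_eq_one_or s with rfl | rfl
    · simp
    · have := w.2 i 1
      rw [this]
      simp
  have inj : Function.Injective (fun i => (w.1 (i, 1)).1) := by
    intro i j hij
    simp only at hij
    rcases Int.units_eq_one_or ((w.1 (i, 1)).2 * (w.1 (j, 1)).2) with h | h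
    · have h2 : w.1 (i, 1) = w.1 (j, 1) := by
        apply Prod.ext hij
        have := congrArg (fun t => t * (w.1 (j, 1)).2) h
        simpa [mul_assoc, Int.units_mul_self] using this
      have := w.1.injective h2
      simpa using this
    · have h2 : w.1 (i, 1) = w.1 (j, -1) := by
        rw [key j (-1)]
        refine Prod.ext hij ?_
        show (w.1 (i, 1)).2 = (w.1 (j, 1)).2 * -1
        have := congrArg (fun t => t * (w.1 (j, 1)).2) h
        simpa [mul_assoc, Int.units_mul_self] using this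
      have := w.1.injective h2
      simp at this
  refine ⟨Equiv.ofBijective _ (Finite.injective_iff_bijective.1 inj), fun i => (w.1 (i, 1)).2, ?_⟩
  apply Subtype.ext
  ext ⟨i, s⟩ : 1
  rw [key]
  rfl

/-- The central element `-1`. -/
def negOne (n : ℕ) : SignedPerm n := mkSigned 1 (fun _ => -1)

theorem negOne_mul {n : ℕ} (σ : Equiv.Perm (Fin n)) (ε : Fin n → ℤˣ) :
    negOne n * mkSigned σ ε = mkSigned σ (fun i => - ε i) := by
  unfold negOne
  rw [mkSigned_mul]
  simp

theorem negOne_mul_self {n : ℕ} : negOne n * negOne n = 1 := by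
  unfold negOne
  rw [mkSigned_mul]
  apply Subtype.ext
  ext ⟨i, s⟩ : 1
  simp [mkSigned_apply]

theorem negOne_inv {n : ℕ} : (negOne n)⁻¹ = negOne n := by
  rw [inv_eq_iff_mul_eq_one, negOne_mul_self]

theorem negOne_comm {n : ℕ} (w : SignedPerm n) : negOne n * w = w * negOne n := by
  obtain ⟨σ, ε, rfl⟩ := exists_mkSigned w
  unfold negOne
  rw [mkSigned_mul, mkSigned_mul]
  simp

theorem eval_smul_homog {n k : ℕ} {p : MvPolynomial (Fin n) ℂ} (hp : p.IsHomogeneous k) (c : ℂ)
    (x : Fin n → ℂ) : eval (c • x) p = c ^ k * eval x p := by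
  rw [MvPolynomial.eval_eq', MvPolynomial.eval_eq', Finset.mul_sum]
  refine Finset.sum_congr rfl fun d hd => ?_
  have hdeg : ∑ i, d i = k := by
    have := hp (MvPolynomial.mem_support_iff.1 hd)
    rw [← this]
    simp [Finsupp.weight_apply, Finsupp.sum_fintype]
  simp only [Pi.smul_apply, smul_eq_mul, mul_pow, Finset.prod_mul_distrib]
  rw [Finset.prod_pow_eq_pow_sum, hdeg]
  ring

theorem act_negOne {n k : ℕ} {p : MvPolynomial (Fin n) ℂ} (hp : p.IsHomogeneous k) :
    act (negOne n) p = C ((-1) ^ k) * p := by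
  apply MvPolynomial.funext
  intro x
  rw [eval_act]
  have : (fun i => ((((negOne n).1 (i, 1)).2 : ℤ) : ℂ) * x ((negOne n).1 (i, 1)).1) =
      (-1 : ℂ) • x := by
    ext i
    simp [negOne, mkSigned_apply]
  rw [this, map_mul, eval_C, eval_smul_homog hp]

theorem degree_support {n k : ℕ} {p : MvPolynomial (Fin n) ℂ} (hp : p.IsHomogeneous k)
    {d : Fin n →₀ ℕ} (hd : d ∈ p.support) : ∑ i, d i = k := by
  have := hp (MvPolynomial.mem_support_iff.1 hd)
  rw [← this]
  simp [Finsupp.weight_apply, Finsupp.sum_fintype]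

/-- The general quadratic form in three variables. -/
noncomputable def Q6 (a b c d e f : ℂ) : MvPolynomial (Fin 3) ℂ :=
  C a * X 0 ^ 2 + C b * X 1 ^ 2 + C c * X 2 ^ 2 + C d * (X 0 * X 1) + C e * (X 0 * X 2) +
    C f * (X 1 * X 2)

theorem quad_form {p : MvPolynomial (Fin 3) ℂ} (hp : p.IsHomogeneous 2) :
    ∃ a b c d e f : ℂ, p = Q6 a b c d e f := by
  rw [p.as_sum]
  refine Finset.sum_induction _ (fun q => ∃ a b c d e f : ℂ, q = Q6 a b c d e f) ?_ ?_ ?_
  · rintro _ _ ⟨a, b, c, d, e, f, rfl⟩ ⟨a', b', c', d', e', f', rfl⟩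
    refine ⟨a + a', b + b', c + c', d + d', e + e', f + f', ?_⟩
    simp only [Q6, map_add]
    ring
  · exact ⟨0, 0, 0, 0, 0, 0, by simp [Q6]⟩
  · intro m hm
    have hdeg := degree_support hp hm
    rw [Fin.sum_univ_three] at hdeg
    rw [MvPolynomial.monomial_eq, Finsupp.prod_fintype _ _ (by simp), Fin.prod_univ_three]
    have h0 : m 0 ≤ 2 := by omega
    have h1 : m 1 ≤ 2 := by omega
    have h2 : m 2 = 2 - m 0 - m 1 := by omega
    generalize coeff m p = r
    rw [h2]
    generalize hx : m 0 = x at *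
    generalize hy : m 1 = y at *
    interval_cases x <;> interval_cases y
    · exact ⟨0, 0, r, 0, 0, 0, by simp [Q6]⟩
    · exact ⟨0, 0, 0, 0, 0, r, by simp [Q6]⟩
    · exact ⟨0, r, 0, 0, 0, 0, by simp [Q6]⟩
    · exact ⟨0, 0, 0, 0, r, 0, by simp [Q6]⟩
    · exact ⟨0, 0, 0, r, 0, 0, by simp [Q6]⟩
    · omega
    · exact ⟨r, 0, 0, 0, 0, 0, by simp [Q6]⟩
    · omega
    · omega

/-- The general linear form in three variables. -/
noncomputable def L3 (a b c : ℂ) : MvPolynomial (Fin 3) ℂ :=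
  C a * X 0 + C b * X 1 + C c * X 2

theorem lin_form {p : MvPolynomial (Fin 3) ℂ} (hp : p.IsHomogeneous 1) :
    ∃ a b c : ℂ, p = L3 a b c := by
  rw [p.as_sum]
  refine Finset.sum_induction _ (fun q => ∃ a b c : ℂ, q = L3 a b c) ?_ ?_ ?_
  · rintro _ _ ⟨a, b, c, rfl⟩ ⟨a', b', c', rfl⟩
    refine ⟨a + a', b + b', c + c', ?_⟩
    simp only [L3, map_add]
    ring
  · exact ⟨0, 0, 0, by simp [L3]⟩
  · intro m hm
    have hdeg := degree_support hp hm
    rw [Fin.sum_univ_three] at hdeg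
    rw [MvPolynomial.monomial_eq, Finsupp.prod_fintype _ _ (by simp), Fin.prod_univ_three]
    have h0 : m 0 ≤ 1 := by omega
    have h1 : m 1 ≤ 1 := by omega
    have h2 : m 2 = 1 - m 0 - m 1 := by omega
    generalize coeff m p = r
    rw [h2]
    generalize hx : m 0 = x at *
    generalize hy : m 1 = y at *
    interval_cases x <;> interval_cases y
    · exact ⟨0, 0, r, by simp [L3]⟩
    · exact ⟨0, r, 0, by simp [L3]⟩
    · exact ⟨r, 0, 0, by simp [L3]⟩
    · omega

theorem const_form {p : MvPolynomial (Fin 3) ℂ} (hp : p.IsHomogeneous 0) :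
    ∃ a : ℂ, p = C a := by
  refine ⟨coeff 0 p, ?_⟩
  have := homogeneousComponent_eq_self hp
  rw [← this, homogeneousComponent_zero]
  simp

/-! ### The spline condition in left-invariant form -/

/-- The left-invariant form `v⁻¹(ρ(v))` of a tuple. -/
noncomputable def PP {n : ℕ} (ρ : SignedPerm n → MvPolynomial (Fin n) ℂ) (v : SignedPerm n) :
    MvPolynomial (Fin n) ℂ := act v⁻¹ (ρ v)

theorem act_PP {n : ℕ} (ρ : SignedPerm n → MvPolynomial (Fin n) ℂ) (v : SignedPerm n) :
    act v (PP ρ v) = ρ v := by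
  unfold PP
  rw [← act_mul, mul_inv_cancel, act_one]

theorem PP_dvd {n : ℕ} {S : Set (PosRoot n)} {ρ : SignedPerm n → MvPolynomial (Fin n) ℂ}
    (hρ : ρ ∈ splineRing S) {α : PosRoot n} (hα : α ∈ S) (v : SignedPerm n) :
    α.form ∣ PP ρ v - act α.refl (PP ρ (v * α.refl)) := by
  obtain ⟨q, hq⟩ := hρ α hα v
  refine ⟨act v⁻¹ q, ?_⟩
  unfold PP
  rw [← act_mul, show α.refl * (v * α.refl)⁻¹ = v⁻¹ by group, ← map_sub, hq, map_mul, ← act_mul,
    inv_mul_cancel, act_one]

theorem eval_refl {n : ℕ} (α : PosRoot n) (x : Fin n → ℂ) (hx : eval x α.form = 0)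
    (p : MvPolynomial (Fin n) ℂ) : eval x (act α.refl p) = eval x p := by
  rw [eval_act]
  congr 2
  funext k
  cases α with
  | diff i j h =>
    simp only [PosRoot.form, map_sub, eval_X, sub_eq_zero] at hx
    simp only [PosRoot.refl, mkSigned_apply]
    rcases eq_or_ne k i with rfl | hk
    · simp [hx]
    · rcases eq_or_ne k j with rfl | hk'
      · simp [hx]
      · simp [Equiv.swap_apply_of_ne_of_ne hk hk']
  | sum i j h =>
    simp only [PosRoot.form, map_add, eval_X, add_eq_zero_iff_eq_neg] at hx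
    simp only [PosRoot.refl, mkSigned_apply]
    rcases eq_or_ne k i with rfl | hk
    · simp [hx]
    · rcases eq_or_ne k j with rfl | hk'
      · simp [hx]
      · simp [Equiv.swap_apply_of_ne_of_ne hk hk', hk, hk']
  | long i =>
    simp only [PosRoot.form, map_mul, eval_X] at hx
    have hx' : x i = 0 := by simpa using hx
    simp only [PosRoot.refl, mkSigned_apply]
    rcases eq_or_ne k i with rfl | hk
    · simp [hx']
    · simp [hk]

theorem PP_eval {n : ℕ} {S : Set (PosRoot n)} {ρ : SignedPerm n → MvPolynomial (Fin n) ℂ}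
    (hρ : ρ ∈ splineRing S) {α : PosRoot n} (hα : α ∈ S) (v : SignedPerm n) {x : Fin n → ℂ}
    (hx : eval x α.form = 0) : eval x (PP ρ v) = eval x (PP ρ (v * α.refl)) := by
  obtain ⟨q, hq⟩ := PP_dvd hρ hα v
  have := congrArg (eval x) hq
  rw [map_sub, map_mul, hx, zero_mul, eval_refl α x hx, sub_eq_zero] at this
  exact this

end Pool.Agent.KS6_96.He.Lib
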