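import Pool.Agent.KS6_96.He.Defs
import Pool.Agent.KS6_96.He.LBasic

/-!
The spline condition in left-invariant form, through evaluations.
-/

namespace Pool.Agent.KS6_96.He

open MvPolynomial
open Pool.Agent.KS6_96.He.Lib

variable {n : ℕ}

/-- Congruence of a polynomial and a substitution of it. -/
theorem dvd_subst {a : MvPolynomial (Fin n) ℂ} (v : Fin n → MvPolynomial (Fin n) ℂ)
    (h : ∀ l, a ∣ v l - X l) (p : MvPolynomial (Fin n) ℂ) : a ∣ aeval v p - p := by
  rw [← Ideal.mem_span_singleton, ← Ideal.Quotient.eq]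
  have : (Ideal.Quotient.mkₐ ℂ (Ideal.span {a})).comp (aeval v) =
      Ideal.Quotient.mkₐ ℂ (Ideal.span {a}) := by
    apply MvPolynomial.algHom_ext
    intro l
    simp only [AlgHom.comp_apply, aeval_X, Ideal.Quotient.mkₐ_eq_mk]
    rw [Ideal.Quotient.eq, Ideal.mem_span_singleton]
    exact h l
  exact DFunLike.congr_fun this p

theorem eval_subst (v : Fin n → MvPolynomial (Fin n) ℂ) (x : Fin n → ℂ)
    (p : MvPolynomial (Fin n) ℂ) : eval x (aeval v p) = eval (fun l => eval x (v l)) p := by
  rw [← MvPolynomial.coe_aeval_eq_eval, ← MvPolynomial.coe_aeval_eq_eval]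
  have : (aeval x).comp (aeval v) =
    (aeval (fun l => aeval x (v l)) : MvPolynomial (Fin n) ℂ →ₐ[ℂ] ℂ) := by
    apply MvPolynomial.algHom_ext
    intro i
    simp
  exact congrArg (fun f => f p) this

theorem root_eval (t : CType) (α : PosRoot n) (x : Fin n → ℂ) :
    eval x (root t α) = 0 ↔ eval x α.form = 0 := by
  cases t
  · cases α with
    | diff i j h => exact Iff.rfl
    | sum i j h => exact Iff.rfl
    | long i =>
      simp [root, formB, PosRoot.form]
  · exact Iff.rfl

/-- The substitution onto the hyperplane of a root. -/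
noncomputable def sub (α : PosRoot n) (l : Fin n) : MvPolynomial (Fin n) ℂ :=
  match α with
  | .diff i j _ => if l = i then X j else X l
  | .sum i j _ => if l = i then - X j else X l
  | .long i => if l = i then 0 else X l

theorem sub_dvd (t : CType) (α : PosRoot n) (l : Fin n) : root t α ∣ sub α l - X l := by
  cases α with
  | diff i j h =>
    have e : root t (.diff i j h) = X i - X j := by cases t <;> rfl
    rw [e]
    simp only [sub]
    split_ifs with h
    · subst h
      exact ⟨-1, by ring⟩
    · simp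
  | sum i j h =>
    have e : root t (.sum i j h) = X i + X j := by cases t <;> rfl
    rw [e]
    simp only [sub]
    split_ifs with h
    · subst h
      exact ⟨-1, by ring⟩
    · simp
  | long i =>
    simp only [sub]
    split_ifs with h
    · subst h
      cases t
      · exact ⟨-1, by simp [root, formB]⟩
      · refine ⟨C (-1/2), ?_⟩
        simp only [root, PosRoot.form]
        have : (2 : MvPolynomial (Fin n) ℂ) * C (-1/2) = -1 := by
          rw [show (2 : MvPolynomial (Fin n) ℂ) = C 2 from (map_ofNat C 2).symm, ← C_mul,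
            show (2 : ℂ) * (-1/2) = -1 by norm_num, C_neg, C_1]
        linear_combination (-X l : MvPolynomial (Fin n) ℂ) * this
    · simp

theorem sub_eval (α : PosRoot n) (x : Fin n → ℂ) :
    eval (fun l => eval x (sub α l)) α.form = 0 := by
  cases α with
  | diff i j h =>
    simp [PosRoot.form, sub, h.ne']
  | sum i j h =>
    simp [PosRoot.form, sub, h.ne']
  | long i =>
    simp [PosRoot.form, sub]

/-- Divisibility by a root is vanishing on its hyperplane. -/
theorem root_dvd_iff (t : CType) (α : PosRoot n) (p : MvPolynomial (Fin n) ℂ) :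
    root t α ∣ p ↔ ∀ x : Fin n → ℂ, eval x α.form = 0 → eval x p = 0 := by
  constructor
  · rintro ⟨q, rfl⟩ x hx
    rw [map_mul, (root_eval t α x).2 hx, zero_mul]
  · intro h
    have h1 : aeval (sub α) p = 0 := by
      apply MvPolynomial.funext
      intro x
      rw [eval_subst, map_zero]
      exact h _ (sub_eval α x)
    have h2 := dvd_subst (sub α) (sub_dvd t α) p
    rw [h1, zero_sub, dvd_neg] at h2
    exact h2

theorem act_dvd_iff (w : SignedPerm n) (a b : MvPolynomial (Fin n) ℂ) :
    act w a ∣ act w b ↔ a ∣ b := by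
  constructor
  · rintro ⟨q, hq⟩
    refine ⟨act w⁻¹ q, ?_⟩
    have := congrArg (act w⁻¹) hq
    rwa [map_mul, ← act_mul, ← act_mul, inv_mul_cancel, act_one, act_one] at this
  · rintro ⟨q, rfl⟩
    exact ⟨act w q, map_mul _ _ _⟩

/-- The spline condition in terms of the left-invariant form `w ↦ w⁻¹(ρ(w))`. -/
theorem spline_iff (t : CType) (S : Set (PosRoot n))
    (ρ : SignedPerm n → MvPolynomial (Fin n) ℂ) :
    ρ ∈ splineRing t S ↔ ∀ α ∈ S, ∀ (w : SignedPerm n) (x : Fin n → ℂ), eval x α.form = 0 →
      eval x (PP ρ w) = eval x (PP ρ (w * α.refl)) := by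
  have key : ∀ (α : PosRoot n) (w : SignedPerm n),
      (act w (root t α) ∣ ρ w - ρ (w * α.refl)) ↔ ∀ x : Fin n → ℂ, eval x α.form = 0 →
        eval x (PP ρ w) = eval x (PP ρ (w * α.refl)) := by
    intro α w
    have e1 : ρ w = act w (PP ρ w) := (act_PP ρ w).symm
    have e2 : ρ (w * α.refl) = act w (act α.refl (PP ρ (w * α.refl))) := by
      rw [← act_mul]
      exact (act_PP ρ _).symm
    rw [e1, e2, ← map_sub, act_dvd_iff, root_dvd_iff]
    refine forall_congr' fun x => forall_congr' fun hx => ?_
    rw [map_sub, eval_refl α x hx, sub_eq_zero]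
  constructor
  · intro h α hα w
    exact (key α w).1 (h α hα w)
  · intro h α hα w
    exact (key α w).2 (h α hα w)

/-! ### The left-invariant form of the degree `k` part -/

/-- The defining conditions of the left-invariant form of the degree `k` part. -/
def IsG (S : Set (PosRoot n)) (k : ℕ) (g : SignedPerm n → MvPolynomial (Fin n) ℂ) : Prop :=
  (∀ w, (g w).IsHomogeneous k) ∧ ∀ α ∈ S, ∀ (w : SignedPerm n) (x : Fin n → ℂ),
    eval x α.form = 0 → eval x (g w) = eval x (g (w * α.refl))

/-- The left-invariant form of the degree `k` part. -/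
noncomputable def G (S : Set (PosRoot n)) (k : ℕ) :
    Submodule ℂ (SignedPerm n → MvPolynomial (Fin n) ℂ) where
  carrier := {g | IsG S k g}
  add_mem' := by
    rintro a b ⟨ha, ha'⟩ ⟨hb, hb'⟩
    refine ⟨fun w => (ha w).add (hb w), fun α hα w x hx => ?_⟩
    simp only [Pi.add_apply, map_add]
    rw [ha' α hα w x hx, hb' α hα w x hx]
  zero_mem' := ⟨fun _ => isHomogeneous_zero _ _ _, fun _ _ _ _ _ => rfl⟩
  smul_mem' := by
    rintro c a ⟨ha, ha'⟩
    refine ⟨fun w => ?_, fun α hα w x hx => ?_⟩
    · have := (isHomogeneous_C (Fin n) c).mul (ha w)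
      rw [zero_add, ← MvPolynomial.smul_eq_C_mul] at this
      exact this
    · simp only [Pi.smul_apply, smul_eval]
      rw [ha' α hα w x hx]

theorem PP_homog {k : ℕ} {ρ : SignedPerm n → MvPolynomial (Fin n) ℂ}
    (h : ∀ w, (ρ w).IsHomogeneous k) (w : SignedPerm n) : (PP ρ w).IsHomogeneous k :=
  act_homog _ (h w)

theorem PP_mem {t : CType} {S : Set (PosRoot n)} {k : ℕ}
    {ρ : SignedPerm n → MvPolynomial (Fin n) ℂ} (hρ : ρ ∈ splinePart t S k) :
    PP ρ ∈ G S k :=
  ⟨PP_homog hρ.2, (spline_iff t S ρ).1 hρ.1⟩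

theorem PP_act (g : SignedPerm n → MvPolynomial (Fin n) ℂ) :
    PP (fun w => act w (g w)) = g := by
  funext w
  unfold PP
  rw [← act_mul, inv_mul_cancel, act_one]

theorem act_mem {t : CType} {S : Set (PosRoot n)} {k : ℕ}
    {g : SignedPerm n → MvPolynomial (Fin n) ℂ} (hg : g ∈ G S k) :
    (fun w => act w (g w)) ∈ splinePart t S k := by
  refine ⟨(spline_iff t S _).2 ?_, fun w => act_homog w (hg.1 w)⟩
  rw [PP_act]
  exact hg.2

/-- The degree `k` part of the spline ring and its left-invariant form. -/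
noncomputable def toG (t : CType) (S : Set (PosRoot n)) (k : ℕ) :
    SplinePart t S k ≃ₗ[ℂ] G S k where
  toFun ρ := ⟨PP ρ.1, PP_mem ρ.2⟩
  map_add' a b := by
    apply Subtype.ext
    funext w
    exact map_add (act w⁻¹) (a.1 w) (b.1 w)
  map_smul' c a := by
    apply Subtype.ext
    funext w
    exact map_smul (act w⁻¹) c (a.1 w)
  invFun g := ⟨fun w => act w (g.1 w), act_mem g.2⟩
  left_inv ρ := by
    apply Subtype.ext
    funext w
    exact act_PP ρ.1 w
  right_inv g := by
    apply Subtype.ext
    exact PP_act g.1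

theorem negOne_G {S : Set (PosRoot n)} {k : ℕ} {g : SignedPerm n → MvPolynomial (Fin n) ℂ}
    (hg : g ∈ G S k) : (fun w => g (negOne n * w)) ∈ G S k := by
  refine ⟨fun w => hg.1 _, fun α hα w x hx => ?_⟩
  show eval x (g (negOne n * w)) = eval x (g (negOne n * (w * α.refl)))
  rw [← mul_assoc]
  exact hg.2 α hα _ x hx

/-- The action of `-1` on `G S k`. -/
noncomputable def tau (S : Set (PosRoot n)) (k : ℕ) : G S k →ₗ[ℂ] G S k where
  toFun g := ⟨fun w => g.1 (negOne n * w), negOne_G g.2⟩
  map_add' _ _ := rfl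
  map_smul' _ _ := rfl

theorem tau_apply {S : Set (PosRoot n)} {k : ℕ} (g : G S k) (w : SignedPerm n) :
    (tau S k g).1 w = g.1 (negOne n * w) := rfl

theorem tau_tau {S : Set (PosRoot n)} {k : ℕ} (g : G S k) : tau S k (tau S k g) = g := by
  apply Subtype.ext
  funext w
  rw [tau_apply, tau_apply, ← mul_assoc, negOne_mul_self, one_mul]

theorem toG_dot (t : CType) (S : Set (PosRoot n)) (k : ℕ) (ρ : SplinePart t S k) :
    toG t S k (dotPart t S k (negOne n) ρ) = tau S k (toG t S k ρ) := by
  apply Subtype.ext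
  funext w
  show act w⁻¹ (act (negOne n) (ρ.1 ((negOne n)⁻¹ * w))) =
    act (negOne n * w)⁻¹ (ρ.1 (negOne n * w))
  rw [← act_mul, negOne_inv, mul_inv_rev, negOne_inv]

theorem trace_dotPart (t : CType) (S : Set (PosRoot n)) (k : ℕ) :
    LinearMap.trace ℂ (SplinePart t S k) (dotPart t S k (negOne n)) =
      LinearMap.trace ℂ (G S k) (tau S k) := by
  rw [← LinearMap.trace_conj' (dotPart t S k (negOne n)) (toG t S k)]
  congr 1
  apply LinearMap.ext
  intro g
  rw [LinearEquiv.conj_apply, LinearMap.comp_apply, LinearMap.comp_apply]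
  show toG t S k (dotPart t S k (negOne n) ((toG t S k).symm g)) = _
  rw [toG_dot, LinearEquiv.apply_symm_apply]

instance finite_homog (k : ℕ) : Module.Finite ℂ (homogeneousSubmodule (Fin n) ℂ k) :=
  Module.Finite.iff_fg.2 (homogeneousSubmodule_fg (Fin n) ℂ k)

instance finite_G (S : Set (PosRoot n)) (k : ℕ) : Module.Finite ℂ (G S k) := by
  let L : G S k →ₗ[ℂ] (SignedPerm n → homogeneousSubmodule (Fin n) ℂ k) :=
    { toFun := fun g w => ⟨g.1 w, g.2.1 w⟩
      map_add' := fun _ _ => rfl
      map_smul' := fun _ _ => rfl }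
  have hL : Function.Injective L := by
    intro a b h
    apply Subtype.ext
    funext w
    exact congrArg Subtype.val (congrFun h w)
  exact Module.Finite.of_injective L hL

instance finite_splinePart (t : CType) (S : Set (PosRoot n)) (k : ℕ) :
    Module.Finite ℂ (SplinePart t S k) :=
  Module.Finite.equiv (toG t S k).symm

end Pool.Agent.KS6_96.He
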