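import Pool.Agent.KS6_96.He.LDefs

/-!
# Hessenberg spaces of types B and C, splines, the dot action and the left quotient

The group `SignedPerm n` of signed permutations, the index type `PosRoot n` of the positive roots
(`diff i j`, `sum i j` for `i < j`, and `long i`), the reflections `PosRoot.refl`, the action `act`
of signed permutations on polynomials, reflection subgroups, the characters `cosetChar R` and
`IsReflectionPositive` are those of `LDefs`. Here everything that depends on the type is defined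
for both types: `B` (the group `SO_{2n+1}`) and `C` (the group `Sp_{2n}`).
-/

namespace Pool.Agent.KS6_96.He

open MvPolynomial
open Pool.Agent.KS6_96.He.Lib (SignedPerm PosRoot act act_mul act_one act_homog dotFun dotFun_one
  dotFun_mul' dotFun_zero dotFun_add' dotFun_smul')

attribute [local instance 100] LieRing.ofAssociativeRing

/-- The two types: `B_n`, for `SO_{2n+1}(ℂ)`, and `C_n`, for `Sp_{2n}(ℂ)`. -/
inductive CType
  | B
  | C

/-- The positive roots of type `B_n` as linear forms: `x_i - x_j` and `x_i + x_j` for `i < j`, and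
`x_i`. -/
noncomputable def formB {n : ℕ} : PosRoot n → MvPolynomial (Fin n) ℂ
  | .diff i j _ => X i - X j
  | .sum i j _ => X i + X j
  | .long i => X i

/-- A positive root as a linear form: `x_i - x_j` and `x_i + x_j` for `i < j`, and `x_i` in type
`B`, `2 x_i` in type `C`. -/
noncomputable def root {n : ℕ} (t : CType) (α : PosRoot n) : MvPolynomial (Fin n) ℂ :=
  match t with
  | .B => formB α
  | .C => α.form

/-! ### Hessenberg spaces in a Lie algebra of matrices -/

section Lie

variable {ι : Type} [Fintype ι] [DecidableEq ι] {n : ℕ}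

/-- The matrix `M` lies in `𝔤` and `[h, M] = f(s) M` for the diagonal matrix `h = diag(tor s)`,
for all `s`. -/
def IsWeightVector (𝔤 : LieSubalgebra ℂ (Matrix ι ι ℂ)) (tor : (Fin n → ℂ) → ι → ℂ)
    (f : MvPolynomial (Fin n) ℂ) (M : Matrix ι ι ℂ) : Prop :=
  M ∈ 𝔤 ∧ ∀ s : Fin n → ℂ, ⁅Matrix.diagonal (tor s), M⁆ = (eval s f) • M

variable {𝔤 : LieSubalgebra ℂ (Matrix ι ι ℂ)} {tor : (Fin n → ℂ) → ι → ℂ}

theorem IsWeightVector.add {f : MvPolynomial (Fin n) ℂ} {a b : Matrix ι ι ℂ}
    (ha : IsWeightVector 𝔤 tor f a) (hb : IsWeightVector 𝔤 tor f b) :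
    IsWeightVector 𝔤 tor f (a + b) := by
  refine ⟨add_mem ha.1 hb.1, fun t => ?_⟩
  rw [lie_add, ha.2 t, hb.2 t, smul_add]

theorem IsWeightVector.zero {f : MvPolynomial (Fin n) ℂ} :
    IsWeightVector 𝔤 tor f (0 : Matrix ι ι ℂ) :=
  ⟨zero_mem _, fun t => by simp⟩

theorem IsWeightVector.smul {f : MvPolynomial (Fin n) ℂ} (c : ℂ) {a : Matrix ι ι ℂ}
    (ha : IsWeightVector 𝔤 tor f a) : IsWeightVector 𝔤 tor f (c • a) := by
  refine ⟨𝔤.smul_mem c ha.1, fun t => ?_⟩
  rw [lie_smul, ha.2 t, smul_comm]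

variable (𝔤 tor)

/-- The weight space in `𝔤` of weight the linear form `f`, for the adjoint action of the Cartan
subalgebra of the matrices `diag(tor s)`. -/
noncomputable def weightSpace (f : MvPolynomial (Fin n) ℂ) : Submodule ℂ (Matrix ι ι ℂ) where
  carrier := {M | IsWeightVector 𝔤 tor f M}
  add_mem' := IsWeightVector.add
  zero_mem' := IsWeightVector.zero
  smul_mem' := fun c _ => IsWeightVector.smul c

/-- The Borel subalgebra: the Cartan subalgebra (the zero weight space) plus all positive root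
spaces. -/
noncomputable def borel (t : CType) : Submodule ℂ (Matrix ι ι ℂ) :=
  weightSpace 𝔤 tor 0 ⊔ ⨆ α : PosRoot n, weightSpace 𝔤 tor (root t α)

/-- Hessenberg spaces: subspaces `H` with `𝔟 ⊆ H ⊆ 𝔤` and `[𝔟, H] ⊆ H`. -/
def IsHessenbergSpace (t : CType) (H : Submodule ℂ (Matrix ι ι ℂ)) : Prop :=
  borel 𝔤 tor t ≤ H ∧ H ≤ 𝔤.toSubmodule ∧ ∀ b ∈ borel 𝔤 tor t, ∀ h ∈ H, ⁅b, h⁆ ∈ H

/-- The positive roots `α` whose negative root space `𝔤_{-α}` is contained in `H`; the set `S(H)`
consists of the reflections in these roots. -/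
def hessRoots (t : CType) (H : Submodule ℂ (Matrix ι ι ℂ)) : Set (PosRoot n) :=
  {α | weightSpace 𝔤 tor (-(root t α)) ≤ H}

end Lie

/-- The Lie algebra `so_{2n+1}(ℂ)`: the matrices skew-adjoint with respect to the symmetric form
with matrix `[[2, 0, 0], [0, 0, 1], [0, 1, 0]]`. -/
noncomputable def so (n : ℕ) :
    LieSubalgebra ℂ (Matrix (Unit ⊕ (Fin n ⊕ Fin n)) (Unit ⊕ (Fin n ⊕ Fin n)) ℂ) :=
  LieAlgebra.Orthogonal.typeB (Fin n) ℂ

/-- The diagonal entries `0, s_1, …, s_n, -s_1, …, -s_n` of the elements of the Cartan subalgebra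
of `so_{2n+1}(ℂ)`. -/
def torB {n : ℕ} (s : Fin n → ℂ) : Unit ⊕ (Fin n ⊕ Fin n) → ℂ :=
  Sum.elim (fun _ => 0) (Sum.elim s (fun i => - s i))

/-- The Lie algebra `sp_{2n}(ℂ)`: the matrices skew-adjoint with respect to the standard
symplectic form. -/
noncomputable def sp (n : ℕ) : LieSubalgebra ℂ (Matrix (Fin n ⊕ Fin n) (Fin n ⊕ Fin n) ℂ) :=
  LieAlgebra.Symplectic.sp (Fin n) ℂ

/-- The diagonal entries `s_1, …, s_n, -s_1, …, -s_n` of the elements of the Cartan subalgebra
of `sp_{2n}(ℂ)`. -/
def torC {n : ℕ} (s : Fin n → ℂ) : Fin n ⊕ Fin n → ℂ := Sum.elim s (fun i => - s i)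

/-! ### Splines and the dot action -/

section Spline

variable {n : ℕ} (t : CType)

/-- The spline condition: `ρ(w) - ρ(w s_α) ∈ ⟨w(α)⟩` for all `w` and all roots `α ∈ S`. -/
def IsSpline (S : Set (PosRoot n)) (ρ : SignedPerm n → MvPolynomial (Fin n) ℂ) : Prop :=
  ∀ α ∈ S, ∀ w, act w (root t α) ∣ ρ w - ρ (w * α.refl)

variable {t}

theorem IsSpline.mul {S : Set (PosRoot n)} {a b : SignedPerm n → MvPolynomial (Fin n) ℂ}
    (ha : IsSpline t S a) (hb : IsSpline t S b) : IsSpline t S (a * b) := by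
  intro α hα w
  obtain ⟨p, hp⟩ := ha α hα w
  obtain ⟨q, hq⟩ := hb α hα w
  refine ⟨p * b w + a (w * α.refl) * q, ?_⟩
  simp only [Pi.mul_apply]
  linear_combination b w * hp + a (w * α.refl) * hq

theorem IsSpline.add {S : Set (PosRoot n)} {a b : SignedPerm n → MvPolynomial (Fin n) ℂ}
    (ha : IsSpline t S a) (hb : IsSpline t S b) : IsSpline t S (a + b) := by
  intro α hα w
  have := dvd_add (ha α hα w) (hb α hα w)
  simpa [Pi.add_apply, add_sub_add_comm] using this

theorem IsSpline.algebraMap {S : Set (PosRoot n)} (r : ℂ) :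
    IsSpline t S (algebraMap ℂ (SignedPerm n → MvPolynomial (Fin n) ℂ) r) := by
  intro α hα w
  simp

variable (t)

/-- The spline ring: tuples `ρ` of polynomials indexed by the signed permutations with
`ρ(w) - ρ(w s_α) ∈ ⟨w(α)⟩` for all `w` and all roots `α` in the given set. -/
noncomputable def splineRing (S : Set (PosRoot n)) :
    Subalgebra ℂ (SignedPerm n → MvPolynomial (Fin n) ℂ) where
  carrier := {ρ | IsSpline t S ρ}
  mul_mem' := IsSpline.mul
  add_mem' := IsSpline.add
  algebraMap_mem' := IsSpline.algebraMap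

/-- The spline ring, as a type. -/
def SplineRing (S : Set (PosRoot n)) : Type := splineRing t S

variable {t}

/-- A spline, as an element of the spline ring. -/
def SplineRing.mk {S : Set (PosRoot n)} (ρ : SignedPerm n → MvPolynomial (Fin n) ℂ)
    (hρ : ρ ∈ splineRing t S) : SplineRing t S := ⟨ρ, hρ⟩

noncomputable instance instCommRingSplineRing (S : Set (PosRoot n)) : CommRing (SplineRing t S) :=
  (splineRing t S).toCommRing

noncomputable instance instAlgebraSplineRing (S : Set (PosRoot n)) : Algebra ℂ (SplineRing t S) :=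
  (splineRing t S).algebra

theorem dotFun_mem {S : Set (PosRoot n)} (w : SignedPerm n)
    {ρ : SignedPerm n → MvPolynomial (Fin n) ℂ} (hρ : ρ ∈ splineRing t S) :
    dotFun w ρ ∈ splineRing t S := by
  intro α hα v
  obtain ⟨q, hq⟩ := hρ α hα (w⁻¹ * v)
  refine ⟨act w q, ?_⟩
  show act w (ρ (w⁻¹ * v)) - act w (ρ (w⁻¹ * (v * α.refl))) = act v (root t α) * act w q
  rw [← mul_assoc, ← map_sub, hq, map_mul, ← act_mul, mul_inv_cancel_left]

variable (t)

/-- The dot action `(w·ρ)(v) = w(ρ(w⁻¹ v))` on the spline ring, as a ring homomorphism. -/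
noncomputable def dot (S : Set (PosRoot n)) (w : SignedPerm n) :
    SplineRing t S →+* SplineRing t S where
  toFun ρ := ⟨dotFun w ρ.1, dotFun_mem w ρ.2⟩
  map_one' := Subtype.ext (dotFun_one w)
  map_mul' _ _ := Subtype.ext (dotFun_mul' w _ _)
  map_zero' := Subtype.ext (dotFun_zero w)
  map_add' _ _ := Subtype.ext (dotFun_add' w _ _)

/-- `ρ` is a spline all of whose components are homogeneous of degree `k`. -/
def IsSplinePart (S : Set (PosRoot n)) (k : ℕ)
    (ρ : SignedPerm n → MvPolynomial (Fin n) ℂ) : Prop :=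
  ρ ∈ splineRing t S ∧ ∀ w, (ρ w).IsHomogeneous k

variable {t}

theorem IsSplinePart.add {S : Set (PosRoot n)} {k : ℕ}
    {a b : SignedPerm n → MvPolynomial (Fin n) ℂ} (ha : IsSplinePart t S k a)
    (hb : IsSplinePart t S k b) : IsSplinePart t S k (a + b) :=
  ⟨add_mem ha.1 hb.1, fun w => (ha.2 w).add (hb.2 w)⟩

theorem IsSplinePart.zero {S : Set (PosRoot n)} {k : ℕ} :
    IsSplinePart t S k (0 : SignedPerm n → MvPolynomial (Fin n) ℂ) :=
  ⟨zero_mem _, fun _ => isHomogeneous_zero _ _ _⟩

theorem IsSplinePart.smul {S : Set (PosRoot n)} {k : ℕ} (c : ℂ)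
    {a : SignedPerm n → MvPolynomial (Fin n) ℂ} (ha : IsSplinePart t S k a) :
    IsSplinePart t S k (c • a) := by
  refine ⟨(splineRing t S).smul_mem ha.1 c, fun w => ?_⟩
  have := (isHomogeneous_C (Fin n) c).mul (ha.2 w)
  rw [zero_add, ← MvPolynomial.smul_eq_C_mul] at this
  exact this

variable (t)

/-- The degree `k` part of the spline ring. -/
noncomputable def splinePart (S : Set (PosRoot n)) (k : ℕ) :
    Submodule ℂ (SignedPerm n → MvPolynomial (Fin n) ℂ) where
  carrier := {ρ | IsSplinePart t S k ρ}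
  add_mem' := IsSplinePart.add
  zero_mem' := IsSplinePart.zero
  smul_mem' := fun c _ => IsSplinePart.smul c

/-- The degree `k` part of the spline ring, as a type. -/
def SplinePart (S : Set (PosRoot n)) (k : ℕ) : Type := splinePart t S k

noncomputable instance instAddSplinePart (S : Set (PosRoot n)) (k : ℕ) :
    AddCommGroup (SplinePart t S k) := (splinePart t S k).addCommGroup

noncomputable instance instModSplinePart (S : Set (PosRoot n)) (k : ℕ) :
    Module ℂ (SplinePart t S k) := (splinePart t S k).module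

/-- The ideal of the spline ring generated by the constant splines `(p, …, p)` with `p`
homogeneous of positive degree. -/
noncomputable def leftIdeal (S : Set (PosRoot n)) : Ideal (SplineRing t S) :=
  Ideal.span {ρ | ∃ (p : MvPolynomial (Fin n) ℂ) (d : ℕ), 0 < d ∧ p.IsHomogeneous d ∧
    ∀ w, ρ.1 w = p}

/-- The element `ρ` of the degree `k` part of the spline ring lies in the ideal `leftIdeal S`. -/
def InLeftIdeal (S : Set (PosRoot n)) (k : ℕ) (ρ : SplinePart t S k) : Prop :=
  SplineRing.mk ρ.1 ρ.2.1 ∈ leftIdeal t S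

variable {t}

theorem InLeftIdeal.add {S : Set (PosRoot n)} {k : ℕ} {a b : SplinePart t S k}
    (ha : InLeftIdeal t S k a) (hb : InLeftIdeal t S k b) : InLeftIdeal t S k (a + b) :=
  (leftIdeal t S).add_mem ha hb

theorem InLeftIdeal.zero {S : Set (PosRoot n)} {k : ℕ} :
    InLeftIdeal t S k (0 : SplinePart t S k) :=
  (leftIdeal t S).zero_mem

theorem InLeftIdeal.smul {S : Set (PosRoot n)} {k : ℕ} (c : ℂ) {a : SplinePart t S k}
    (ha : InLeftIdeal t S k a) : InLeftIdeal t S k (c • a) :=
  ((leftIdeal t S).restrictScalars ℂ).smul_mem c ha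

variable (t)

/-- The degree `k` part of the ideal `leftIdeal S`, as a subspace of the degree `k` part of the
spline ring. -/
noncomputable def idealPart (S : Set (PosRoot n)) (k : ℕ) :
    Submodule ℂ (SplinePart t S k) where
  carrier := {ρ | InLeftIdeal t S k ρ}
  add_mem' := InLeftIdeal.add
  zero_mem' := InLeftIdeal.zero
  smul_mem' := fun c _ => InLeftIdeal.smul c

/-- The degree `k` piece of the left quotient. -/
def LeftQuotient (S : Set (PosRoot n)) (k : ℕ) : Type :=
  SplinePart t S k ⧸ idealPart t S k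

noncomputable instance instAddLeftQuotient (S : Set (PosRoot n)) (k : ℕ) :
    AddCommGroup (LeftQuotient t S k) := Submodule.Quotient.addCommGroup (idealPart t S k)

noncomputable instance instModLeftQuotient (S : Set (PosRoot n)) (k : ℕ) :
    Module ℂ (LeftQuotient t S k) := Submodule.Quotient.module (idealPart t S k)

theorem dot_mem_leftIdeal (S : Set (PosRoot n)) (w : SignedPerm n)
    (ρ : SplineRing t S) (hρ : ρ ∈ leftIdeal t S) : dot t S w ρ ∈ leftIdeal t S := by
  have h : leftIdeal t S ≤ (leftIdeal t S).comap (dot t S w) := by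
    conv_lhs => unfold leftIdeal
    rw [Ideal.span_le]
    rintro ρ ⟨p, d, hd, hp, hw⟩
    refine Ideal.subset_span ⟨act w p, d, hd, act_homog w hp, fun v => ?_⟩
    show act w (ρ.1 (w⁻¹ * v)) = act w p
    rw [hw]
  exact h hρ

variable {t}

theorem dotFun_mem_part {S : Set (PosRoot n)} {k : ℕ} (w : SignedPerm n)
    {ρ : SignedPerm n → MvPolynomial (Fin n) ℂ} (hρ : ρ ∈ splinePart t S k) :
    dotFun w ρ ∈ splinePart t S k :=
  ⟨dotFun_mem w hρ.1, fun v => act_homog w (hρ.2 (w⁻¹ * v))⟩

/-- The element `w·ρ` of the degree `k` part of the spline ring. -/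
noncomputable def dotMk {S : Set (PosRoot n)} {k : ℕ} (w : SignedPerm n)
    (ρ : SplinePart t S k) : SplinePart t S k :=
  ⟨dotFun w ρ.1, dotFun_mem_part w ρ.2⟩

theorem dotMk_add {S : Set (PosRoot n)} {k : ℕ} (w : SignedPerm n)
    (a b : SplinePart t S k) : dotMk w (a + b) = dotMk w a + dotMk w b :=
  Subtype.ext (dotFun_add' w _ _)

theorem dotMk_smul {S : Set (PosRoot n)} {k : ℕ} (w : SignedPerm n)
    (c : ℂ) (a : SplinePart t S k) : dotMk w (c • a) = c • dotMk w a :=
  Subtype.ext (dotFun_smul' w _ _)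

variable (t)

/-- The dot action `(w·ρ)(v) = w(ρ(w⁻¹ v))` on the degree `k` part of the spline ring. -/
noncomputable def dotPart (S : Set (PosRoot n)) (k : ℕ) (w : SignedPerm n) :
    SplinePart t S k →ₗ[ℂ] SplinePart t S k where
  toFun := dotMk w
  map_add' := dotMk_add w
  map_smul' := dotMk_smul w

theorem dotPart_ideal (S : Set (PosRoot n)) (k : ℕ) (w : SignedPerm n) :
    idealPart t S k ≤ (idealPart t S k).comap (dotPart t S k w) := by
  intro ρ hρ
  rw [Submodule.mem_comap]
  exact dot_mem_leftIdeal t S w (SplineRing.mk ρ.1 ρ.2.1) hρ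

/-- The dot action on the degree `k` piece of the left quotient. -/
noncomputable def dotQuotient (S : Set (PosRoot n)) (k : ℕ) (w : SignedPerm n) :
    LeftQuotient t S k →ₗ[ℂ] LeftQuotient t S k :=
  Submodule.mapQ (idealPart t S k) (idealPart t S k) (dotPart t S k w) (dotPart_ideal t S k w)

/-- The character `L_k` of the dot action on the degree `k` piece of the left quotient, for the
set `S` of roots. -/
noncomputable def leftChar (S : Set (PosRoot n)) (k : ℕ) (w : SignedPerm n) : ℂ :=
  LinearMap.trace ℂ (LeftQuotient t S k) (dotQuotient t S k w)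

end Spline

/-- In type `C` these are the characters of `LDefs`. -/
theorem leftChar_C {n : ℕ} (S : Set (PosRoot n)) (k : ℕ) :
    leftChar .C S k = Lib.leftChar S k := rfl

theorem isHessenbergSpace_C {n : ℕ} (H : Submodule ℂ (Matrix (Fin n ⊕ Fin n) (Fin n ⊕ Fin n) ℂ)) :
    IsHessenbergSpace (sp n) torC .C H = Lib.IsHessenbergSpace H := rfl

theorem hessRoots_C {n : ℕ} (H : Submodule ℂ (Matrix (Fin n ⊕ Fin n) (Fin n ⊕ Fin n) ℂ)) :
    hessRoots (sp n) torC .C H = Lib.hessRoots H := rfl

end Pool.Agent.KS6_96.He
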