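import Pool.Agent.KS6_96.He.Pol

/-!
The trace of `-1` in degree one.
-/

namespace Pool.Agent.KS6_96.He

open MvPolynomial
open Pool.Agent.KS6_96.He.Lib

variable {m : ℕ}

/-- The odd function on signed indices with prescribed values on the positive ones. -/
def sd {n : ℕ} (d : Fin n → ℂ) (p : Fin n × ℤˣ) : ℂ := ((p.2 : ℤ) : ℂ) * d p.1

theorem sd_neg {n : ℕ} (d : Fin n → ℂ) (p : Fin n × ℤˣ) : sd d (neg p) = - sd d p := by
  simp [sd, neg]

theorem sd_one {n : ℕ} (d : Fin n → ℂ) (i : Fin n) : sd d (i, 1) = d i := by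
  simp [sd]

/-- The coefficient of `X_{n-1}`. -/
noncomputable def cP1 (a : ℂ) (d : Fin (m + 2) → ℂ) (w : SignedPerm (m + 2)) : ℂ :=
  a + ∑ l, sd d (w.1 (l, 1)) - sd d (w.1 (zz, 1))

/-- The coefficient of `X_n`. -/
noncomputable def cR1 (e : ℂ) (d : Fin (m + 2) → ℂ) (w : SignedPerm (m + 2)) : ℂ :=
  e + sd d (w.1 (zz, 1))

/-- The explicit splines of degree one. -/
noncomputable def spl1 (a e : ℂ) (d : Fin (m + 2) → ℂ) (w : SignedPerm (m + 2)) :
    MvPolynomial (Fin (m + 2)) ℂ :=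
  C (cP1 a d w) * X yy + C (cR1 e d w) * X zz

theorem eval_spl1 (a e : ℂ) (d : Fin (m + 2) → ℂ) (w : SignedPerm (m + 2))
    (x : Fin (m + 2) → ℂ) : eval x (spl1 a e d w) = cP1 a d w * x yy + cR1 e d w * x zz := by
  simp [spl1]

theorem sum_diff (F : Fin (m + 2) × ℤˣ → ℂ) (w : SignedPerm (m + 2)) :
    ∑ l, F ((w * sg zz * sw yy zz * sg zz).1 (l, 1)) =
      ∑ l, F (w.1 (l, 1)) - F (w.1 (zz, 1)) + F (neg (w.1 (zz, 1))) - F (w.1 (yy, 1)) +
        F (neg (w.1 (yy, 1))) := by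
  rw [sum_sg, sum_sw, sum_sg, mul_sw, Equiv.swap_apply_right, mul_sg_ne _ yy_ne_zz]

theorem last_diff (w : SignedPerm (m + 2)) :
    (w * sg zz * sw yy zz * sg zz).1 (zz, 1) = neg (w.1 (yy, 1)) := by
  rw [mul_sg_same, mul_sw, Equiv.swap_apply_right, mul_sg_ne _ yy_ne_zz]

theorem last_sw {i j : Fin (m + 2)} (hij : (j : ℕ) = i + 1) (hj : (j : ℕ) ≤ m)
    (w : SignedPerm (m + 2)) : (w * sw i j).1 (zz, 1) = w.1 (zz, 1) := by
  rw [mul_sw, Equiv.swap_apply_of_ne_of_ne (ne_zz (by omega)).symm (ne_zz hj).symm]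

theorem spl1_mem (a e : ℂ) (d : Fin (m + 2) → ℂ) : spl1 a e d ∈ G (SS m) 1 := by
  apply mem_of_F (fun w s t => cP1 a d w * s + cR1 e d w * t)
  · intro w
    exact (isHomogeneous_C_mul_X _ _).add (isHomogeneous_C_mul_X _ _)
  · intro w x
    exact eval_spl1 a e d w x
  · intro i j hij hj w s t
    simp only [cP1, cR1]
    rw [sum_sw, last_sw hij hj]
  · intro w s
    simp only [cP1, cR1]
    rw [sum_sw]
    ring
  · intro w s
    simp only [cP1, cR1]
    rw [sum_diff, last_diff, sd_neg, sd_neg]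
    ring
  · intro w t
    simp only [cP1, cR1]
    rw [mul_sg_ne _ yy_ne_zz.symm]
    ring
  · intro w s
    simp only [cP1, cR1]
    rw [sum_sg, mul_sg_same]
    ring

/-- The parametrisation of the splines of degree one in the last two variables. -/
noncomputable def io1 : (ℂ × ℂ × (Fin (m + 2) → ℂ)) →ₗ[ℂ] G (SS m) 1 where
  toFun q := ⟨spl1 q.1 q.2.1 q.2.2, spl1_mem _ _ _⟩
  map_add' q r := by
    apply Subtype.ext
    funext w
    apply MvPolynomial.funext
    intro x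
    show eval x (spl1 (q.1 + r.1) (q.2.1 + r.2.1) (q.2.2 + r.2.2) w) =
      eval x (spl1 q.1 q.2.1 q.2.2 w + spl1 r.1 r.2.1 r.2.2 w)
    rw [map_add, eval_spl1, eval_spl1, eval_spl1]
    simp only [cP1, cR1, sd, Pi.add_apply, mul_add, Finset.sum_add_distrib]
    ring
  map_smul' c q := by
    apply Subtype.ext
    funext w
    apply MvPolynomial.funext
    intro x
    show eval x (spl1 (c * q.1) (c * q.2.1) (c • q.2.2) w) =
      eval x (c • spl1 q.1 q.2.1 q.2.2 w)
    rw [smul_eval, eval_spl1, eval_spl1]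
    have e : ∀ p, sd (c • q.2.2) p = c * sd q.2.2 p := by
      intro p
      simp only [sd, Pi.smul_apply, smul_eq_mul]
      ring
    simp only [cP1, cR1, e, ← Finset.mul_sum]
    ring

theorem io1_apply (a e : ℂ) (d : Fin (m + 2) → ℂ) : (io1 (a, e, d)).1 = spl1 a e d := rfl

/-- The odd part of the coefficient of `X_n`. -/
noncomputable def dL (j : Fin (m + 2)) : G (SS m) 1 →ₗ[ℂ] ℂ :=
  (1 / 2 : ℂ) • (evL pv (wp (j, 1)) - evL pv (wp (j, -1)))

/-- The even part of the coefficient of `X_n`. -/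
noncomputable def eL : G (SS m) 1 →ₗ[ℂ] ℂ :=
  (1 / 2 : ℂ) • (evL pv (wp (zz, 1)) + evL pv (wp (zz, -1)))

/-- The constant part of the coefficient of `X_{n-1}`. -/
noncomputable def aL : G (SS m) 1 →ₗ[ℂ] ℂ :=
  evL pu 1 - ∑ l, dL l + dL zz

/-- The coordinates of a spline of degree one. -/
noncomputable def pi1 : G (SS m) 1 →ₗ[ℂ] (ℂ × ℂ × (Fin (m + 2) → ℂ)) :=
  LinearMap.prod aL (LinearMap.prod eL (LinearMap.pi dL))

theorem pi1_apply (g : G (SS m) 1) : pi1 g = (aL g, eL g, fun j => dL j g) := rfl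

theorem dL_apply (j : Fin (m + 2)) (g : G (SS m) 1) :
    dL j g = (1 / 2 : ℂ) * (eval pv (g.1 (wp (j, 1))) - eval pv (g.1 (wp (j, -1)))) := rfl

theorem eL_apply (g : G (SS m) 1) :
    eL g = (1 / 2 : ℂ) * (eval pv (g.1 (wp (zz, 1))) + eval pv (g.1 (wp (zz, -1)))) := rfl

theorem aL_apply (g : G (SS m) 1) :
    aL g = eval pu (g.1 1) - ∑ l, dL l g + dL zz g := by
  simp only [aL, LinearMap.add_apply, LinearMap.sub_apply, LinearMap.sum_apply, evL_apply]

theorem eval_pv_spl1 (a e : ℂ) (d : Fin (m + 2) → ℂ) (w : SignedPerm (m + 2)) :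
    eval pv (spl1 a e d w) = cR1 e d w := by
  rw [eval_spl1, pv_yy, pv_zz]
  ring

theorem eval_pu_spl1 (a e : ℂ) (d : Fin (m + 2) → ℂ) (w : SignedPerm (m + 2)) :
    eval pu (spl1 a e d w) = cP1 a d w := by
  rw [eval_spl1, pu_yy, pu_zz]
  ring

theorem dL_io1 (a e : ℂ) (d : Fin (m + 2) → ℂ) (j : Fin (m + 2)) :
    dL j (io1 (a, e, d)) = d j := by
  rw [dL_apply, io1_apply, eval_pv_spl1, eval_pv_spl1]
  simp only [cR1, wp_apply, sd]
  push_cast
  ring

theorem pi1_io1 (q : ℂ × ℂ × (Fin (m + 2) → ℂ)) : pi1 (io1 q) = q := by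
  obtain ⟨a, e, d⟩ := q
  rw [pi1_apply]
  refine Prod.ext ?_ (Prod.ext ?_ ?_)
  · show aL (io1 (a, e, d)) = a
    rw [aL_apply, io1_apply, eval_pu_spl1]
    simp only [dL_io1]
    simp only [cP1, SignedPerm.one_val, Equiv.Perm.one_apply, sd_one]
    ring
  · show eL (io1 (a, e, d)) = e
    rw [eL_apply, io1_apply, eval_pv_spl1, eval_pv_spl1]
    simp only [cR1, wp_apply, sd]
    push_cast
    ring
  · funext j
    exact dL_io1 a e d j

theorem io1_pi1 (g : G (SS m) 1) : io1 (pi1 g) = opE m le_rfl g := by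
  have hg := g.2
  set D : SignedPerm (m + 2) → ℂ := fun w =>
    eval (pu + pv) (g.1 w) - eval (pu - pv) (g.1 (w * sg zz)) with hD
  have eT : ∀ w, eval (pu + pv) (g.1 w) = eval pu (g.1 w) + eval pv (g.1 w) := by
    intro w
    have := lin_eval (g.2.1 w) pu pv 1 1
    rw [one_smul, one_smul, one_mul, one_mul] at this
    exact this
  have eV : ∀ w, eval (pu - pv) (g.1 w) = eval pu (g.1 w) - eval pv (g.1 w) := by
    intro w
    have := lin_eval (g.2.1 w) pu pv 1 (-1)
    rw [one_smul, neg_one_smul, ← sub_eq_add_neg, one_mul] at this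
    rw [this]
    ring
  have ssg : ∀ w : SignedPerm (m + 2), w * sg zz * sg zz = w := by
    intro w
    rw [mul_assoc, sg_self_mul, mul_one]
  -- the function `D` is constant
  have hDc : ∀ w w', D w = D w' := by
    apply const_of_inv (zz : Fin (m + 2))
    · intro i j hij w
      simp only [hD]
      rw [T_sw hg hij, v_sw hg hij]
    · intro w
      simp only [hD]
      rw [ssg]
      have h1 := P_sg hg w
      have h2 := eT w
      have h3 := eT (w * sg zz)
      have h4 := eV w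
      have h5 := eV (w * sg zz)
      rw [h2, h3, h4, h5, h1]
      ring
  have hR : ∀ w, 2 * eval pv (g.1 w) = eval (pu + pv) (g.1 w) -
      eval (pu + pv) (g.1 (w * sg zz)) + D 1 := by
    intro w
    rw [hDc 1 (w * sg zz)]
    simp only [hD]
    rw [ssg, eT w, eV w]
    ring
  have hr : ∀ w, eval pv (g.1 w) = eval pv (g.1 (wp (w.1 (zz, 1)))) := by
    intro w
    exact R_last hg (wp_apply _).symm
  have hodd : ∀ p, eval pv (g.1 (wp p)) + eval pv (g.1 (wp (neg p))) = D 1 := by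
    intro p
    have h1 := hR (wp p)
    have h2 := hR (wp p * sg zz)
    rw [ssg] at h2
    have h3 : eval pv (g.1 (wp p * sg zz)) = eval pv (g.1 (wp (neg p))) := by
      rw [hr, mul_sg_same, wp_apply]
    rw [h3] at h2
    linear_combination (1 / 2 : ℂ) * h1 + (1 / 2 : ℂ) * h2
  have he : eL g = (1 / 2 : ℂ) * D 1 := by
    rw [eL_apply]
    have := hodd (zz, 1)
    have e : neg ((zz, 1) : Fin (m + 2) × ℤˣ) = (zz, -1) := rfl
    rw [e] at this
    rw [this]
  have hpv : ∀ w, eval pv (g.1 w) = cR1 (eL g) (fun j => dL j g) w := by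
    intro w
    rw [hr w]
    unfold cR1
    obtain ⟨j, s⟩ := w.1 (zz, 1)
    have h1 := hodd (j, 1)
    have e1 : neg ((j, 1) : Fin (m + 2) × ℤˣ) = (j, -1) := rfl
    rw [e1] at h1
    simp only [sd, dL_apply]
    rw [he]
    rcases Int.units_eq_one_or s with rfl | rfl
    · push_cast
      linear_combination (1 / 2 : ℂ) * h1
    · push_cast
      linear_combination (1 / 2 : ℂ) * h1
  have hTc : ∀ w, eval (pu + pv) (g.1 w) - ∑ l, sd (fun j => dL j g) (w.1 (l, 1)) =
      eval (pu + pv) (g.1 1) - ∑ l, sd (fun j => dL j g) ((1 : SignedPerm (m + 2)).1 (l, 1)) := by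
    intro w
    obtain ⟨f, hf⟩ : ∃ f : SignedPerm (m + 2) → ℂ, ∀ w, f w = eval (pu + pv) (g.1 w) -
      ∑ l, sd (fun j => dL j g) (w.1 (l, 1)) := ⟨_, fun w => rfl⟩
    rw [← hf, ← hf]
    apply const_of_inv (zz : Fin (m + 2))
    · intro i j hij w
      rw [hf, hf, T_sw hg hij, sum_sw]
    · intro w
      rw [hf, hf, sum_sg, sd_neg]
      have h1 := hR w
      rw [hpv w, he] at h1
      unfold cR1 at h1
      linear_combination h1
  have hpu : ∀ w, eval pu (g.1 w) = cP1 (aL g) (fun j => dL j g) w := by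
    intro w
    have h1 := hTc w
    rw [eT w, eT 1, hpv w, hpv 1] at h1
    unfold cP1
    rw [aL_apply]
    unfold cR1 at h1
    simp only [SignedPerm.one_val, Equiv.Perm.one_apply, sd_one] at h1
    linear_combination h1
  apply Subtype.ext
  funext w
  rw [opE_apply, pi1_apply, io1_apply]
  apply MvPolynomial.funext
  intro x
  rw [eval_spl1, eval_rename, comp_rr, lin_eval (g.2.1 w), hpu w, hpv w]
  ring

/-- The action of `-1` in coordinates. -/
noncomputable def T1 : (ℂ × ℂ × (Fin (m + 2) → ℂ)) →ₗ[ℂ] (ℂ × ℂ × (Fin (m + 2) → ℂ)) :=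
  LinearMap.prodMap LinearMap.id (LinearMap.prodMap LinearMap.id (-LinearMap.id))

theorem tau_io1 (q : ℂ × ℂ × (Fin (m + 2) → ℂ)) : tau (SS m) 1 (io1 q) = io1 (T1 q) := by
  obtain ⟨a, e, d⟩ := q
  have hT : T1 (a, e, d) = (a, e, -d) := rfl
  rw [hT]
  apply Subtype.ext
  funext w
  rw [tau_apply, io1_apply, io1_apply]
  have e1 : ∀ p, sd (-d) p = - sd d p := by
    intro p
    simp [sd]
  unfold spl1
  simp only [cP1, cR1, negOne_apply, sd_neg, e1]

/-- The trace of `-1` in degree one. -/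
theorem trace_deg1 : LinearMap.trace ℂ (G (SS m) 1) (tau (SS m) 1) = -(m : ℂ) := by
  rw [trace_tau]
  have h1 : (opE m le_rfl : G (SS m) 1 →ₗ[ℂ] G (SS m) 1) = io1 ∘ₗ pi1 := by
    apply LinearMap.ext
    intro g
    exact (io1_pi1 g).symm
  rw [h1, trace_retract io1 pi1 pi1_io1 T1 (tau (SS m) 1) tau_io1]
  unfold T1
  rw [LinearMap.trace_prodMap', LinearMap.trace_prodMap', trace_id_C, trace_neg_pi]
  push_cast
  ring

end Pool.Agent.KS6_96.He
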