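import Pool.Agent.KS6_96.He.Deg1

/-!
The trace of `-1` in degree two.
-/

namespace Pool.Agent.KS6_96.He

open MvPolynomial
open Pool.Agent.KS6_96.He.Lib

variable {m : ℕ}

/-- The functions that are right invariant under all transpositions of positions. -/
def IS (m : ℕ) : Submodule ℂ (SignedPerm (m + 2) → ℂ) where
  carrier := {v | ∀ i j : Fin (m + 2), (j : ℕ) = i + 1 → ∀ w, v (w * sw i j) = v w}
  add_mem' := by
    intro a b ha hb i j hij w
    rw [Pi.add_apply, Pi.add_apply, ha i j hij, hb i j hij]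
  zero_mem' := fun _ _ _ _ => rfl
  smul_mem' := by
    intro c a ha i j hij w
    rw [Pi.smul_apply, Pi.smul_apply, ha i j hij]

theorem negOne_IS {v : SignedPerm (m + 2) → ℂ} (hv : v ∈ IS m) :
    (fun w => v (negOne (m + 2) * w)) ∈ IS m := by
  intro i j hij w
  show v (negOne (m + 2) * (w * sw i j)) = v (negOne (m + 2) * w)
  rw [← mul_assoc]
  exact hv i j hij _

/-- The action of `-1`. -/
noncomputable def tauIS : IS m →ₗ[ℂ] IS m where
  toFun v := ⟨fun w => v.1 (negOne (m + 2) * w), negOne_IS v.2⟩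
  map_add' _ _ := rfl
  map_smul' _ _ := rfl

theorem tauIS_apply (v : IS m) (w : SignedPerm (m + 2)) :
    (tauIS v).1 w = v.1 (negOne (m + 2) * w) := rfl

theorem chi_IS {v : SignedPerm (m + 2) → ℂ} (hv : v ∈ IS m) :
    (fun w => chi (m + 1) w * v w) ∈ IS m := by
  intro i j hij w
  show chi (m + 1) (w * sw i j) * v (w * sw i j) = chi (m + 1) w * v w
  have := i.2
  have := j.2
  rw [chi_sw (by omega), hv i j hij]

/-- Multiplication by the indicator function. -/
noncomputable def chiIS : IS m →ₗ[ℂ] IS m where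
  toFun v := ⟨fun w => chi (m + 1) w * v.1 w, chi_IS v.2⟩
  map_add' a b := by
    apply Subtype.ext
    funext w
    exact mul_add _ _ _
  map_smul' c a := by
    apply Subtype.ext
    funext w
    exact mul_left_comm _ _ _

theorem chiIS_apply (v : IS m) (w : SignedPerm (m + 2)) :
    (chiIS v).1 w = chi (m + 1) w * v.1 w := rfl

theorem trace_IS : LinearMap.trace ℂ (IS m) tauIS = 0 := by
  have h : (tauIS : IS m →ₗ[ℂ] IS m) = tauIS ∘ₗ LinearMap.id := rfl
  rw [h]
  apply trace_split _ chiIS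
  · intro v
    apply Subtype.ext
    funext w
    rw [tauIS_apply, tauIS_apply, negOne_negOne]
  · intro v
    apply Subtype.ext
    funext w
    rw [chiIS_apply, chiIS_apply, ← mul_assoc, chi_sq]
  · intro v
    apply Subtype.ext
    funext w
    rw [chiIS_apply, tauIS_apply, chiIS_apply, ← mul_assoc, chi_mul_neg (by omega), zero_mul]
    rfl
  · intro v
    apply Subtype.ext
    funext w
    show v.1 w = (chiIS v).1 w + (tauIS (chiIS (tauIS v))).1 w
    rw [tauIS_apply, chiIS_apply, chiIS_apply, tauIS_apply, negOne_negOne, chi_neg (by omega)]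
    ring

/-- The action of `-1` on functions on signed indices. -/
noncomputable def tauR : (Fin (m + 2) × ℤˣ → ℂ) →ₗ[ℂ] (Fin (m + 2) × ℤˣ → ℂ) where
  toFun r p := r (neg p)
  map_add' _ _ := rfl
  map_smul' _ _ := rfl

theorem tauR_apply (r : Fin (m + 2) × ℤˣ → ℂ) (p : Fin (m + 2) × ℤˣ) : tauR r p = r (neg p) :=
  rfl

/-- Restriction to the positive indices. -/
noncomputable def posR : (Fin (m + 2) × ℤˣ → ℂ) →ₗ[ℂ] (Fin (m + 2) × ℤˣ → ℂ) where
  toFun r p := if p.2 = 1 then r p else 0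
  map_add' a b := by
    funext p
    simp only [Pi.add_apply]
    split_ifs <;> simp
  map_smul' c a := by
    funext p
    simp only [Pi.smul_apply, smul_eq_mul, RingHom.id_apply]
    split_ifs <;> simp

theorem posR_apply (r : Fin (m + 2) × ℤˣ → ℂ) (p : Fin (m + 2) × ℤˣ) :
    posR r p = if p.2 = 1 then r p else 0 := rfl

theorem trace_R : LinearMap.trace ℂ (Fin (m + 2) × ℤˣ → ℂ) tauR = 0 := by
  have h : (tauR : (Fin (m + 2) × ℤˣ → ℂ) →ₗ[ℂ] _) = tauR ∘ₗ LinearMap.id := rfl
  rw [h]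
  apply trace_split _ posR
  · intro v
    funext p
    rw [tauR_apply, tauR_apply, neg_neg']
  · intro v
    funext p
    rw [posR_apply, posR_apply]
    split_ifs <;> rfl
  · intro v
    funext p
    rw [posR_apply, tauR_apply, posR_apply]
    obtain ⟨j, s⟩ := p
    rcases Int.units_eq_one_or s with rfl | rfl
    · simp [neg]
    · simp
  · intro v
    funext p
    show v p = posR v p + tauR (posR (tauR v)) p
    rw [posR_apply, tauR_apply, posR_apply, tauR_apply, neg_neg']
    obtain ⟨j, s⟩ := p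
    rcases Int.units_eq_one_or s with rfl | rfl
    · simp [neg]
    · simp [neg]

/-- The odd part of a function on signed indices (times two). -/
def FF {n : ℕ} (r : Fin n × ℤˣ → ℂ) (p : Fin n × ℤˣ) : ℂ := r p - r (neg p)

theorem FF_neg {n : ℕ} (r : Fin n × ℤˣ → ℂ) (p : Fin n × ℤˣ) : FF r (neg p) = - FF r p := by
  simp [FF, neg_neg']

/-- The difference of the values at `(1, …, 1)` and (after a sign change) `(1, …, 1, -1)`. -/
noncomputable def Df (c : ℂ) (r : Fin (m + 2) × ℤˣ → ℂ) (w : SignedPerm (m + 2)) : ℂ :=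
  c + ∑ l, FF r (w.1 (l, 1))

/-- The coefficient of `X_{n-1}^2`. -/
noncomputable def cP2 (v : SignedPerm (m + 2) → ℂ) (c : ℂ) (r : Fin (m + 2) × ℤˣ → ℂ)
    (w : SignedPerm (m + 2)) : ℂ :=
  (Df c r w + v w + v (w * sg zz)) / 2 - r (w.1 (zz, 1))

/-- The coefficient of `X_{n-1} X_n`. -/
noncomputable def cQ2 (v : SignedPerm (m + 2) → ℂ) (c : ℂ) (r : Fin (m + 2) × ℤˣ → ℂ)
    (w : SignedPerm (m + 2)) : ℂ :=
  (Df c r w + v w - v (w * sg zz)) / 2

/-- The coefficient of `X_n^2`. -/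
noncomputable def cR2 (r : Fin (m + 2) × ℤˣ → ℂ) (w : SignedPerm (m + 2)) : ℂ :=
  r (w.1 (zz, 1))

/-- The explicit splines of degree two. -/
noncomputable def spl2 (v : SignedPerm (m + 2) → ℂ) (c : ℂ) (r : Fin (m + 2) × ℤˣ → ℂ)
    (w : SignedPerm (m + 2)) : MvPolynomial (Fin (m + 2)) ℂ :=
  C (cP2 v c r w) * X yy ^ 2 + C (cQ2 v c r w) * (X yy * X zz) + C (cR2 r w) * X zz ^ 2

theorem eval_spl2 (v : SignedPerm (m + 2) → ℂ) (c : ℂ) (r : Fin (m + 2) × ℤˣ → ℂ)
    (w : SignedPerm (m + 2)) (x : Fin (m + 2) → ℂ) : eval x (spl2 v c r w) =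
      cP2 v c r w * x yy ^ 2 + cQ2 v c r w * (x yy * x zz) + cR2 r w * x zz ^ 2 := by
  simp [spl2]

theorem Df_sw (c : ℂ) (r : Fin (m + 2) × ℤˣ → ℂ) (w : SignedPerm (m + 2)) (i j : Fin (m + 2)) :
    Df c r (w * sw i j) = Df c r w := by
  unfold Df
  rw [sum_sw]

theorem Df_sg (c : ℂ) (r : Fin (m + 2) × ℤˣ → ℂ) (w : SignedPerm (m + 2)) :
    Df c r (w * sg zz) = Df c r w - 2 * FF r (w.1 (zz, 1)) := by
  unfold Df
  rw [sum_sg, FF_neg]
  ring

theorem sq_homog (i : Fin (m + 2)) (c : ℂ) :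
    (C c * X i ^ 2 : MvPolynomial (Fin (m + 2)) ℂ).IsHomogeneous 2 := by
  have := (isHomogeneous_C (Fin (m + 2)) c).mul ((isHomogeneous_X ℂ i).pow 2)
  simpa using this

theorem xy_homog (i j : Fin (m + 2)) (c : ℂ) :
    (C c * (X i * X j) : MvPolynomial (Fin (m + 2)) ℂ).IsHomogeneous 2 := by
  have := (isHomogeneous_C (Fin (m + 2)) c).mul ((isHomogeneous_X ℂ i).mul (isHomogeneous_X ℂ j))
  simpa using this

theorem sgsg (w : SignedPerm (m + 2)) (i : Fin (m + 2)) : w * sg i * sg i = w := by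
  rw [mul_assoc, sg_self_mul, mul_one]

theorem spl2_mem {v : SignedPerm (m + 2) → ℂ} (hv : v ∈ IS m) (c : ℂ)
    (r : Fin (m + 2) × ℤˣ → ℂ) : spl2 v c r ∈ G (SS m) 2 := by
  apply mem_of_F (fun w s t => cP2 v c r w * s ^ 2 + cQ2 v c r w * (s * t) + cR2 r w * t ^ 2)
  · intro w
    exact ((sq_homog _ _).add (xy_homog _ _ _)).add (sq_homog _ _)
  · intro w x
    exact eval_spl2 v c r w x
  · intro i j hij hj w s t
    have h1 : v (w * sw i j * sg zz) = v (w * sg zz) := by
      rw [mul_assoc, ← sg_sw_comm (ne_zz (by omega)).symm (ne_zz hj).symm, ← mul_assoc]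
      exact hv i j hij _
    simp only [cP2, cQ2, cR2]
    rw [Df_sw, last_sw hij hj, hv i j hij, h1]
  · intro w s
    have h1 : v (w * sw yy zz) = v w := hv yy zz rfl w
    simp only [cP2, cQ2, cR2]
    rw [Df_sw, h1]
    ring
  · intro w s
    have h1 : v (w * sg zz * sw yy zz) = v (w * sg zz) := hv yy zz rfl _
    simp only [cP2, cQ2, cR2]
    rw [sgsg, h1]
    ring
  · intro w t
    simp only [cP2, cQ2, cR2]
    rw [mul_sg_ne _ yy_ne_zz.symm]
    ring
  · intro w s
    simp only [cP2, cQ2, cR2]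
    rw [Df_sg, sgsg, mul_sg_same]
    unfold FF
    ring

/-- The parameter space in degree two. -/
abbrev I2 (m : ℕ) : Type := IS m × ℂ × (Fin (m + 2) × ℤˣ → ℂ)

theorem FF_add (r s : Fin (m + 2) × ℤˣ → ℂ) (p : Fin (m + 2) × ℤˣ) :
    FF (r + s) p = FF r p + FF s p := by
  simp only [FF, Pi.add_apply]
  ring

theorem FF_smul (a : ℂ) (r : Fin (m + 2) × ℤˣ → ℂ) (p : Fin (m + 2) × ℤˣ) :
    FF (a • r) p = a * FF r p := by
  simp only [FF, Pi.smul_apply, smul_eq_mul]
  ring

theorem Df_add (c d : ℂ) (r s : Fin (m + 2) × ℤˣ → ℂ) (w : SignedPerm (m + 2)) :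
    Df (c + d) (r + s) w = Df c r w + Df d s w := by
  simp only [Df, FF_add, Finset.sum_add_distrib]
  ring

theorem Df_smul (a c : ℂ) (r : Fin (m + 2) × ℤˣ → ℂ) (w : SignedPerm (m + 2)) :
    Df (a * c) (a • r) w = a * Df c r w := by
  simp only [Df, FF_smul, ← Finset.mul_sum]
  ring

/-- The parametrisation of the splines of degree two in the last two variables. -/
noncomputable def io2 : I2 m →ₗ[ℂ] G (SS m) 2 where
  toFun q := ⟨spl2 q.1.1 q.2.1 q.2.2, spl2_mem q.1.2 _ _⟩
  map_add' q r := by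
    apply Subtype.ext
    funext w
    apply MvPolynomial.funext
    intro x
    show eval x (spl2 (q.1.1 + r.1.1) (q.2.1 + r.2.1) (q.2.2 + r.2.2) w) =
      eval x (spl2 q.1.1 q.2.1 q.2.2 w + spl2 r.1.1 r.2.1 r.2.2 w)
    rw [map_add, eval_spl2, eval_spl2, eval_spl2]
    simp only [cP2, cQ2, cR2, Df_add, Pi.add_apply]
    ring
  map_smul' c q := by
    apply Subtype.ext
    funext w
    apply MvPolynomial.funext
    intro x
    show eval x (spl2 (c • q.1.1) (c * q.2.1) (c • q.2.2) w) =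
      eval x (c • spl2 q.1.1 q.2.1 q.2.2 w)
    rw [smul_eval, eval_spl2, eval_spl2]
    simp only [cP2, cQ2, cR2, Df_smul, Pi.smul_apply, smul_eq_mul]
    ring

theorem io2_apply (q : I2 m) : (io2 q).1 = spl2 q.1.1 q.2.1 q.2.2 := rfl

theorem vL_mem (g : G (SS m) 2) :
    (fun w => eval (pu - pv) (g.1 (w * sg zz))) ∈ IS m :=
  fun _ _ hij w => v_sw g.2 hij w

/-- The values at `(1, …, 1, -1)`, after a sign change. -/
noncomputable def vL : G (SS m) 2 →ₗ[ℂ] IS m where
  toFun g := ⟨fun w => eval (pu - pv) (g.1 (w * sg zz)), vL_mem g⟩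
  map_add' a b := by
    apply Subtype.ext
    funext w
    exact map_add (eval (pu - pv)) (a.1 (w * sg zz)) (b.1 (w * sg zz))
  map_smul' c a := by
    apply Subtype.ext
    funext w
    exact smul_eval _ (a.1 (w * sg zz)) c

theorem vL_apply (g : G (SS m) 2) (w : SignedPerm (m + 2)) :
    (vL g).1 w = eval (pu - pv) (g.1 (w * sg zz)) := rfl

/-- The coefficient of `X_n^2`, as a function on signed indices. -/
noncomputable def rL : G (SS m) 2 →ₗ[ℂ] (Fin (m + 2) × ℤˣ → ℂ) :=
  LinearMap.pi fun p => evL pv (wp p)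

theorem rL_apply (g : G (SS m) 2) (p : Fin (m + 2) × ℤˣ) :
    rL g p = eval pv (g.1 (wp p)) := rfl

/-- The remaining constant. -/
noncomputable def cL : G (SS m) 2 →ₗ[ℂ] ℂ where
  toFun g := eval (pu + pv) (g.1 1) - eval (pu - pv) (g.1 (sg zz)) - ∑ l, FF (rL g) (l, 1)
  map_add' a b := by
    show eval (pu + pv) (a.1 1 + b.1 1) - eval (pu - pv) (a.1 (sg zz) + b.1 (sg zz)) -
      ∑ l, FF (rL (a + b)) (l, 1) = _
    rw [map_add, map_add, map_add]
    simp only [FF_add, Finset.sum_add_distrib]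
    ring
  map_smul' c a := by
    show eval (pu + pv) (c • a.1 1) - eval (pu - pv) (c • a.1 (sg zz)) -
      ∑ l, FF (rL (c • a)) (l, 1) = c * (eval (pu + pv) (a.1 1) - eval (pu - pv) (a.1 (sg zz)) -
      ∑ l, FF (rL a) (l, 1))
    rw [LinearMap.map_smul rL, smul_eval, smul_eval]
    simp only [FF_smul, ← Finset.mul_sum]
    ring

theorem cL_apply (g : G (SS m) 2) : cL g =
    eval (pu + pv) (g.1 1) - eval (pu - pv) (g.1 (sg zz)) - ∑ l, FF (rL g) (l, 1) := rfl

/-- The coordinates of a spline of degree two. -/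
noncomputable def pi2 : G (SS m) 2 →ₗ[ℂ] I2 m := LinearMap.prod vL (LinearMap.prod cL rL)

theorem pi2_apply (g : G (SS m) 2) : pi2 g = (vL g, cL g, rL g) := rfl

theorem pi2_io2 (q : I2 m) : pi2 (io2 q) = q := by
  obtain ⟨⟨v, hv⟩, c, r⟩ := q
  have hr : rL (io2 (⟨v, hv⟩, c, r)) = r := by
    funext p
    rw [rL_apply, io2_apply, eval_spl2, pv_yy, pv_zz]
    simp only [cR2]
    rw [wp_apply]
    ring
  rw [pi2_apply]
  refine Prod.ext ?_ (Prod.ext ?_ ?_)
  · apply Subtype.ext
    funext w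
    show (vL (io2 (⟨v, hv⟩, c, r))).1 w = v w
    rw [vL_apply, io2_apply, eval_spl2]
    simp only [Pi.sub_apply]
    rw [pu_yy, pu_zz, pv_yy, pv_zz]
    simp only [cP2, cQ2, cR2]
    rw [sgsg]
    ring
  · show cL (io2 (⟨v, hv⟩, c, r)) = c
    rw [cL_apply, hr, io2_apply, eval_spl2, eval_spl2]
    simp only [Pi.sub_apply, Pi.add_apply]
    rw [pu_yy, pu_zz, pv_yy, pv_zz]
    simp only [cP2, cQ2, cR2]
    have e1 : (sg zz * sg zz : SignedPerm (m + 2)) = 1 := sg_self_mul _
    have e2 : (1 * sg zz : SignedPerm (m + 2)) = sg zz := one_mul _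
    rw [e1, e2]
    unfold Df
    simp only [SignedPerm.one_val, Equiv.Perm.one_apply]
    ring
  · exact hr

theorem io2_pi2 (g : G (SS m) 2) : io2 (pi2 g) = opE m le_rfl g := by
  have hg := g.2
  choose Q hQ using fun w => quad_eval (g.2.1 w) pu pv
  have eT : ∀ w, eval (pu + pv) (g.1 w) = eval pu (g.1 w) + Q w + eval pv (g.1 w) := by
    intro w
    have := hQ w 1 1
    rw [one_smul, one_smul] at this
    rw [this]
    ring
  have eV : ∀ w, eval (pu - pv) (g.1 w) = eval pu (g.1 w) - Q w + eval pv (g.1 w) := by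
    intro w
    have := hQ w 1 (-1)
    rw [one_smul, neg_one_smul, ← sub_eq_add_neg] at this
    rw [this]
    ring
  have hr : ∀ w, eval pv (g.1 w) = rL g (w.1 (zz, 1)) := by
    intro w
    rw [rL_apply]
    exact R_last hg (wp_apply _).symm
  -- the difference
  have hD : ∀ w, eval (pu + pv) (g.1 w) - (vL g).1 w = Df (cL g) (rL g) w := by
    obtain ⟨f, hf⟩ : ∃ f : SignedPerm (m + 2) → ℂ, ∀ w, f w = eval (pu + pv) (g.1 w) -
      (vL g).1 w - ∑ l, FF (rL g) (w.1 (l, 1)) := ⟨_, fun w => rfl⟩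
    have hc : ∀ w, f w = f 1 := by
      intro w
      apply const_of_inv (zz : Fin (m + 2))
      · intro i j hij w
        rw [hf, hf, T_sw hg hij, sum_sw, (vL g).2 i j hij]
      · intro w
        rw [hf, hf, sum_sg, FF_neg, vL_apply, vL_apply, sgsg]
        have h1 := P_sg hg w
        have h2 := hr w
        have h3 := hr (w * sg zz)
        rw [mul_sg_same] at h3
        rw [eT, eT, eV, eV, h1, h2, h3]
        unfold FF
        ring
    intro w
    have h1 := hc w
    rw [hf, hf] at h1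
    unfold Df
    rw [cL_apply]
    rw [vL_apply (w := 1)] at h1
    have e2 : (1 * sg zz : SignedPerm (m + 2)) = sg zz := one_mul _
    rw [e2] at h1
    simp only [SignedPerm.one_val, Equiv.Perm.one_apply] at h1
    linear_combination h1
  have hv : ∀ w, (vL g).1 (w * sg zz) = eval (pu - pv) (g.1 w) := by
    intro w
    rw [vL_apply, sgsg]
  apply Subtype.ext
  funext w
  rw [opE_apply, pi2_apply, io2_apply]
  apply MvPolynomial.funext
  intro x
  have hx := hQ w (x yy) (x zz)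
  rw [eval_spl2, eval_rename, comp_rr, hx]
  simp only [cP2, cQ2, cR2]
  rw [← hD, hv, ← hr, eT, eV]
  ring

/-- The action of `-1` in coordinates. -/
noncomputable def T2 : I2 m →ₗ[ℂ] I2 m :=
  LinearMap.prodMap tauIS (LinearMap.prodMap LinearMap.id tauR)

theorem tau_io2 (q : I2 m) : tau (SS m) 2 (io2 q) = io2 (T2 q) := by
  obtain ⟨v, c, r⟩ := q
  have hT : T2 (v, c, r) = (tauIS v, c, tauR r) := rfl
  rw [hT]
  apply Subtype.ext
  funext w
  rw [tau_apply, io2_apply, io2_apply]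
  have e1 : ∀ p, FF (tauR r) p = FF r (neg p) := by
    intro p
    simp only [FF, tauR_apply]
  have e2 : Df c (tauR r) w = Df c r (negOne (m + 2) * w) := by
    unfold Df
    simp only [negOne_apply, e1]
  unfold spl2 cP2 cQ2 cR2
  simp only [e2, tauIS_apply, tauR_apply, negOne_apply, mul_assoc]

/-- The trace of `-1` in degree two. -/
theorem trace_deg2 : LinearMap.trace ℂ (G (SS m) 2) (tau (SS m) 2) = 1 := by
  rw [trace_tau]
  have h1 : (opE m le_rfl : G (SS m) 2 →ₗ[ℂ] G (SS m) 2) = io2 ∘ₗ pi2 := by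
    apply LinearMap.ext
    intro g
    exact (io2_pi2 g).symm
  rw [h1, trace_retract io2 pi2 pi2_io2 T2 (tau (SS m) 2) tau_io2]
  unfold T2
  rw [LinearMap.trace_prodMap', LinearMap.trace_prodMap', trace_id_C, trace_IS, trace_R]
  ring

end Pool.Agent.KS6_96.He
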