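import Pool.Agent.KS6_96.He.LBasic

namespace Pool.Agent.KS6_96.He.Lib

open MvPolynomial

/-- The root set of the counterexample: all positive roots of type `C_3` except
`2x_1`, `2x_2` and `x_1 + x_2`. -/
def S0 : Set (PosRoot 3) :=
  {.diff 0 1 (by decide), .diff 0 2 (by decide), .diff 1 2 (by decide), .sum 0 2 (by decide),
    .sum 1 2 (by decide), .long 2}

/-- Representatives of the sign vectors modulo a global sign. -/
def sg : Fin 4 → Fin 3 → ℤˣ := ![![1, 1, 1], ![-1, 1, 1], ![1, -1, 1], ![1, 1, -1]]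

/-- Representatives of the signed permutations modulo a global sign. -/
def VV (σ : Equiv.Perm (Fin 3)) (i : Fin 4) : SignedPerm 3 := mkSigned σ (sg i)

theorem even_eq {T : Type} {f : SignedPerm 3 → T} (hf : ∀ v, f (negOne 3 * v) = f v)
    (σ : Equiv.Perm (Fin 3)) {ε ε' : Fin 3 → ℤˣ} (h : ε = ε' ∨ ε = fun i => - ε' i) :
    f (mkSigned σ ε) = f (mkSigned σ ε') := by
  rcases h with rfl | rfl
  · rfl
  · rw [← negOne_mul, hf]

theorem even_step {T : Type} {f : SignedPerm 3 → T} (hf : ∀ v, f (negOne 3 * v) = f v)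
    (σ τ : Equiv.Perm (Fin 3)) (η : Fin 3 → ℤˣ) (i j : Fin 4)
    (h : (fun k => sg i (τ k) * η k) = sg j ∨ (fun k => sg i (τ k) * η k) = fun k => - sg j k) :
    f (VV σ i * mkSigned τ η) = f (VV (σ * τ) j) := by
  unfold VV
  rw [mkSigned_mul]
  exact even_eq hf _ h

def pb : Fin 4 → Fin 4 := ![0, 3, 2, 1]
def pb' : Fin 4 → Fin 4 := ![2, 1, 0, 3]
def pc : Fin 4 → Fin 4 := ![0, 1, 3, 2]
def pc' : Fin 4 → Fin 4 := ![1, 0, 2, 3]
def pa : Fin 4 → Fin 4 := ![0, 2, 1, 3]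
def pt : Fin 4 → Fin 4 := ![3, 2, 1, 0]

section
variable {T : Type} {f : SignedPerm 3 → T} (hf : ∀ v, f (negOne 3 * v) = f v)
  (σ : Equiv.Perm (Fin 3)) (i : Fin 4)
include hf

theorem step_b : f (VV σ i * (PosRoot.diff 0 2 (by decide)).refl) =
    f (VV (σ * Equiv.swap 0 2) (pb i)) := by
  apply even_step hf
  revert i
  decide

theorem step_b' : f (VV σ i * (PosRoot.sum 0 2 (by decide)).refl) =
    f (VV (σ * Equiv.swap 0 2) (pb' i)) := by
  apply even_step hf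
  revert i
  decide

theorem step_c : f (VV σ i * (PosRoot.diff 1 2 (by decide)).refl) =
    f (VV (σ * Equiv.swap 1 2) (pc i)) := by
  apply even_step hf
  revert i
  decide

theorem step_c' : f (VV σ i * (PosRoot.sum 1 2 (by decide)).refl) =
    f (VV (σ * Equiv.swap 1 2) (pc' i)) := by
  apply even_step hf
  revert i
  decide

theorem step_a : f (VV σ i * (PosRoot.diff 0 1 (by decide)).refl) =
    f (VV (σ * Equiv.swap 0 1) (pa i)) := by
  apply even_step hf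
  revert i
  decide

theorem step_t : f (VV σ i * (PosRoot.long 2).refl) = f (VV σ (pt i)) := by
  have := even_step hf σ 1 (fun k => if k = 2 then -1 else 1) i (pt i) (by revert i; decide)
  rw [mul_one] at this
  exact this

end

theorem eval_Q6 (a b c d e f : ℂ) (x : Fin 3 → ℂ) : eval x (Q6 a b c d e f) =
    a * x 0 ^ 2 + b * x 1 ^ 2 + c * x 2 ^ 2 + d * (x 0 * x 1) + e * (x 0 * x 2) +
      f * (x 1 * x 2) := by
  simp [Q6]

theorem eval_L3 (a b c : ℂ) (x : Fin 3 → ℂ) : eval x (L3 a b c) =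
    a * x 0 + b * x 1 + c * x 2 := by
  simp [L3]

/-- Coefficient data of an even quadratic spline. -/
structure QData where
  A : Equiv.Perm (Fin 3) → Fin 4 → ℂ
  B : Equiv.Perm (Fin 3) → Fin 4 → ℂ
  C : Equiv.Perm (Fin 3) → Fin 4 → ℂ
  D : Equiv.Perm (Fin 3) → Fin 4 → ℂ
  E : Equiv.Perm (Fin 3) → Fin 4 → ℂ
  F : Equiv.Perm (Fin 3) → Fin 4 → ℂ
  b1 : ∀ σ i, A (σ * Equiv.swap 0 2) (pb i) + C (σ * Equiv.swap 0 2) (pb i) +
    E (σ * Equiv.swap 0 2) (pb i) = A σ i + C σ i + E σ i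
  b2 : ∀ σ i, B (σ * Equiv.swap 0 2) (pb i) = B σ i
  b3 : ∀ σ i, D (σ * Equiv.swap 0 2) (pb i) + F (σ * Equiv.swap 0 2) (pb i) = D σ i + F σ i
  b1' : ∀ σ i, A (σ * Equiv.swap 0 2) (pb' i) + C (σ * Equiv.swap 0 2) (pb' i) -
    E (σ * Equiv.swap 0 2) (pb' i) = A σ i + C σ i - E σ i
  b2' : ∀ σ i, B (σ * Equiv.swap 0 2) (pb' i) = B σ i
  b3' : ∀ σ i, D (σ * Equiv.swap 0 2) (pb' i) - F (σ * Equiv.swap 0 2) (pb' i) = D σ i - F σ i
  c1 : ∀ σ i, A (σ * Equiv.swap 1 2) (pc i) = A σ i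
  c2 : ∀ σ i, B (σ * Equiv.swap 1 2) (pc i) + C (σ * Equiv.swap 1 2) (pc i) +
    F (σ * Equiv.swap 1 2) (pc i) = B σ i + C σ i + F σ i
  c3 : ∀ σ i, D (σ * Equiv.swap 1 2) (pc i) + E (σ * Equiv.swap 1 2) (pc i) = D σ i + E σ i
  c1' : ∀ σ i, A (σ * Equiv.swap 1 2) (pc' i) = A σ i
  c2' : ∀ σ i, B (σ * Equiv.swap 1 2) (pc' i) + C (σ * Equiv.swap 1 2) (pc' i) -
    F (σ * Equiv.swap 1 2) (pc' i) = B σ i + C σ i - F σ i
  c3' : ∀ σ i, D (σ * Equiv.swap 1 2) (pc' i) - E (σ * Equiv.swap 1 2) (pc' i) = D σ i - E σ i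
  a1 : ∀ σ i, A (σ * Equiv.swap 0 1) (pa i) + B (σ * Equiv.swap 0 1) (pa i) +
    D (σ * Equiv.swap 0 1) (pa i) = A σ i + B σ i + D σ i
  a2 : ∀ σ i, C (σ * Equiv.swap 0 1) (pa i) = C σ i
  a3 : ∀ σ i, E (σ * Equiv.swap 0 1) (pa i) + F (σ * Equiv.swap 0 1) (pa i) = E σ i + F σ i
  t1 : ∀ σ i, A σ (pt i) = A σ i
  t2 : ∀ σ i, B σ (pt i) = B σ i
  t3 : ∀ σ i, D σ (pt i) = D σ i

end Pool.Agent.KS6_96.He.Lib
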