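import Pool.Agent.KS6_96.He.LOdd

namespace Pool.Agent.KS6_96.He.Lib

open MvPolynomial

theorem trace_involution {V : Type} [AddCommGroup V] [Module ℂ V] [Module.Finite ℂ V]
    (u : V →ₗ[ℂ] V) (hu : ∀ x, u (u x) = x) :
    LinearMap.trace ℂ V u = (Module.finrank ℂ (LinearMap.ker (u - LinearMap.id)) : ℂ) -
      (Module.finrank ℂ (LinearMap.ker (u + LinearMap.id)) : ℂ) := by
  have hp : LinearMap.IsProj (LinearMap.ker (u - LinearMap.id))
      ((1 / 2 : ℂ) • (LinearMap.id + u)) := by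
    constructor
    · intro x
      rw [LinearMap.mem_ker]
      simp [hu]
      try abel
    · intro x hx
      rw [LinearMap.mem_ker, LinearMap.sub_apply, sub_eq_zero] at hx
      simp only [LinearMap.smul_apply, LinearMap.add_apply, hx, LinearMap.id_apply]
      rw [← two_smul ℂ x, smul_smul]
      norm_num
  have hq : LinearMap.IsProj (LinearMap.ker (u + LinearMap.id))
      ((1 / 2 : ℂ) • (LinearMap.id - u)) := by
    constructor
    · intro x
      rw [LinearMap.mem_ker]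
      simp [hu]
    · intro x hx
      rw [LinearMap.mem_ker, LinearMap.add_apply, add_eq_zero_iff_eq_neg] at hx
      simp only [LinearMap.smul_apply, LinearMap.sub_apply, hx, LinearMap.id_apply]
      rw [sub_neg_eq_add, ← two_smul ℂ x, smul_smul]
      norm_num
  have h1 := hp.trace
  have h2 := hq.trace
  have h3 : u = ((1 / 2 : ℂ) • (LinearMap.id + u)) - ((1 / 2 : ℂ) • (LinearMap.id - u)) := by
    ext x
    simp
    module
  rw [← h1, ← h2, ← map_sub, ← h3]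

/-- Evaluation at six points, which separates quadratic forms. -/
noncomputable def ev6 : MvPolynomial (Fin 3) ℂ →ₗ[ℂ] (Fin 6 → ℂ) :=
  LinearMap.pi fun i => (aeval ((![![1, 0, 0], ![0, 1, 0], ![0, 0, 1], ![1, 1, 0], ![1, 0, 1],
    ![0, 1, 1]] : Fin 6 → Fin 3 → ℂ) i) : MvPolynomial (Fin 3) ℂ →ₐ[ℂ] ℂ).toLinearMap

theorem ev6_inj {p : MvPolynomial (Fin 3) ℂ} (hp : p.IsHomogeneous 2) (h : ev6 p = 0) :
    p = 0 := by
  have h' : ∀ i, ev6 p i = 0 := fun i => by rw [h]; rfl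
  have hA : cA p = 0 := h' 0
  have hB : cB p = 0 := h' 1
  have hC : cC p = 0 := h' 2
  have hD : cD p = 0 := by
    have : eval ![1, 1, 0] p = 0 := h' 3
    rw [cD, this, hA, hB]
    simp
  have hE : cE p = 0 := by
    have : eval ![1, 0, 1] p = 0 := h' 4
    rw [cE, this, hA, hC]
    simp
  have hF : cF p = 0 := by
    have : eval ![0, 1, 1] p = 0 := h' 5
    rw [cF, this, hB, hC]
    simp
  rw [quad_eq hp, hA, hB, hC, hD, hE, hF]
  simp [Q6]

/-- The inclusion of the degree two part into all tuples. -/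
noncomputable def inclPart : SplinePart S0 2 →ₗ[ℂ] (SignedPerm 3 → MvPolynomial (Fin 3) ℂ) :=
  (splinePart S0 2).subtype

theorem inclPart_apply (ρ : SplinePart S0 2) : inclPart ρ = ρ.1 := rfl

instance finite_splinePart : Module.Finite ℂ (SplinePart S0 2) := by
  let L : SplinePart S0 2 →ₗ[ℂ] (SignedPerm 3 → Fin 6 → ℂ) :=
    (LinearMap.pi fun v => ev6 ∘ₗ LinearMap.proj v) ∘ₗ inclPart
  have hL : Function.Injective L := by
    rw [injective_iff_map_eq_zero]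
    intro a ha
    apply Subtype.ext
    funext v
    exact ev6_inj (a.2.2 v) (congrFun ha v)
  exact Module.Finite.of_injective L hL

instance finite_leftQuotient : Module.Finite ℂ (LeftQuotient S0 2) :=
  inferInstanceAs (Module.Finite ℂ (SplinePart S0 2 ⧸ idealPart S0 2))

/-- The projection to the left quotient. -/
noncomputable def mkL : SplinePart S0 2 →ₗ[ℂ] LeftQuotient S0 2 := (idealPart S0 2).mkQ

theorem mkL_surj : Function.Surjective mkL := (idealPart S0 2).mkQ_surjective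

theorem mkL_eq_zero (ρ : SplinePart S0 2) : mkL ρ = 0 ↔ ρ ∈ idealPart S0 2 :=
  Submodule.Quotient.mk_eq_zero _

/-- The action of `-1` on the degree two part. -/
noncomputable abbrev uu : LeftQuotient S0 2 →ₗ[ℂ] LeftQuotient S0 2 :=
  dotQuotient S0 2 (negOne 3)

theorem dotPart_negOne (ρ : SplinePart S0 2) (v : SignedPerm 3) :
    (dotPart S0 2 (negOne 3) ρ).1 v = ρ.1 (negOne 3 * v) := by
  show act (negOne 3) (ρ.1 ((negOne 3)⁻¹ * v)) = _
  rw [negOne_inv, act_negOne (ρ.2.2 _)]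
  simp

theorem dotPart_negOne_twice (ρ : SplinePart S0 2) :
    dotPart S0 2 (negOne 3) (dotPart S0 2 (negOne 3) ρ) = ρ := by
  apply Subtype.ext
  funext v
  rw [dotPart_negOne, dotPart_negOne, ← mul_assoc, negOne_mul_self, one_mul]

theorem uu_mk (ρ : SplinePart S0 2) : uu (mkL ρ) = mkL (dotPart S0 2 (negOne 3) ρ) := rfl

theorem uu_sq (x : LeftQuotient S0 2) : uu (uu x) = x := by
  obtain ⟨ρ, rfl⟩ := mkL_surj x
  rw [uu_mk, uu_mk, dotPart_negOne_twice]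

/-- A degree two product of the invariant splines. -/
noncomputable def XX (i j : Fin 3) : SplinePart S0 2 :=
  ⟨(Xel i * Xel j).1, (Xel i * Xel j).2, fun v =>
    (act_homog v (isHomogeneous_X ℂ i)).mul (act_homog v (isHomogeneous_X ℂ j))⟩

theorem finrank_plus : Module.finrank ℂ (LinearMap.ker (uu - LinearMap.id)) ≤ 5 := by
  let w : Fin 5 → LeftQuotient S0 2 := ![mkL (XX 1 1), mkL (XX 2 2), mkL (XX 0 1),
    mkL (XX 0 2), mkL (XX 1 2)]
  have hle : LinearMap.ker (uu - LinearMap.id) ≤ Submodule.span ℂ (Set.range w) := by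
    intro x hx
    rw [LinearMap.mem_ker, LinearMap.sub_apply, sub_eq_zero, LinearMap.id_apply] at hx
    obtain ⟨ρ, rfl⟩ := mkL_surj x
    -- the even part of ρ
    let ρ' : SplinePart S0 2 := (1 / 2 : ℂ) • (ρ + dotPart S0 2 (negOne 3) ρ)
    have h1 : mkL ρ = mkL ρ' := by
      have : mkL ρ' = (1 / 2 : ℂ) • (mkL ρ + uu (mkL ρ)) := by
        rw [uu_mk, ← map_add, ← map_smul]
      rw [this, hx, ← two_smul ℂ (mkL ρ), smul_smul]
      norm_num
    have h2 : ∀ v, ρ'.1 (negOne 3 * v) = ρ'.1 v := by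
      intro v
      have e : ∀ v, ρ'.1 v = (1 / 2 : ℂ) • (ρ.1 v + ρ.1 (negOne 3 * v)) := by
        intro v
        rw [← dotPart_negOne ρ v]
        rfl
      rw [e, e, ← mul_assoc, negOne_mul_self, one_mul, add_comm]
    obtain ⟨k1, k2, k3, k4, k5, hk⟩ := even_mod ρ'.2 h2
    have h3 : ρ' - (k1 • XX 1 1 + k2 • XX 2 2 + k3 • XX 0 1 + k4 • XX 0 2 + k5 • XX 1 2) ∈
        idealPart S0 2 := by
      show SplineRing.mk _ _ ∈ leftIdeal S0
      have e : SplineRing.mk (ρ' - (k1 • XX 1 1 + k2 • XX 2 2 + k3 • XX 0 1 + k4 • XX 0 2 +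
          k5 • XX 1 2)).1 (ρ' - (k1 • XX 1 1 + k2 • XX 2 2 + k3 • XX 0 1 + k4 • XX 0 2 +
          k5 • XX 1 2)).2.1 = SplineRing.mk ρ'.1 ρ'.2.1 - (k1 • (Xel 1) ^ 2 + k2 • (Xel 2) ^ 2 +
          k3 • (Xel 0 * Xel 1) + k4 • (Xel 0 * Xel 2) + k5 • (Xel 1 * Xel 2)) := by
        simp only [sq]
        rfl
      rw [e]
      exact hk
    have h4 : mkL ρ' = k1 • w 0 + k2 • w 1 + k3 • w 2 + k4 • w 3 + k5 • w 4 := by
      rw [← mkL_eq_zero, map_sub, sub_eq_zero] at h3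
      rw [h3]
      simp only [map_add, map_smul]
      rfl
    rw [h1, h4]
    have hw : ∀ i, w i ∈ Submodule.span ℂ (Set.range w) := fun i =>
      Submodule.subset_span ⟨i, rfl⟩
    exact Submodule.add_mem _ (Submodule.add_mem _ (Submodule.add_mem _ (Submodule.add_mem _
      (Submodule.smul_mem _ _ (hw 0)) (Submodule.smul_mem _ _ (hw 1)))
      (Submodule.smul_mem _ _ (hw 2))) (Submodule.smul_mem _ _ (hw 3)))
      (Submodule.smul_mem _ _ (hw 4))
  calc Module.finrank ℂ (LinearMap.ker (uu - LinearMap.id))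
      ≤ Module.finrank ℂ (Submodule.span ℂ (Set.range w)) := Submodule.finrank_mono hle
    _ ≤ Fintype.card (Fin 5) := finrank_range_le_card w
    _ = 5 := by simp

/-- The odd elements `x_k τ` (with `x_k` invariant). -/
noncomputable def XT (k : Fin 3) : SplinePart S0 2 :=
  ⟨(Xel k * tauel).1, (Xel k * tauel).2, fun v => by
    have h1 : (act v (X k)).IsHomogeneous 1 := act_homog v (isHomogeneous_X ℂ k)
    have h2 : (act v (C ((dl v : ℤ) : ℂ) * X 2)).IsHomogeneous 1 :=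
      act_homog v (isHomogeneous_C_mul_X _ _)
    exact h1.mul h2⟩

theorem gY_homog (q : Fin 3 × ℤˣ) : (gY q).IsHomogeneous 2 := by
  unfold gY
  have h : ∀ i : Fin 3, (X i ^ 2 : MvPolynomial (Fin 3) ℂ).IsHomogeneous 2 := by
    intro i
    rw [sq]
    exact (isHomogeneous_X ℂ i).mul (isHomogeneous_X ℂ i)
  have := (isHomogeneous_C (Fin 3) ((q.2 : ℤ) : ℂ)).mul ((h q.1).sub (h 2))
  simpa using this

/-- The odd elements `Y_i`. -/
noncomputable def YY (i : Fin 3) : SplinePart S0 2 :=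
  ⟨(Yel i).1, (Yel i).2, fun v => act_homog v (gY_homog _)⟩

theorem XT_apply (k : Fin 3) (σ : Equiv.Perm (Fin 3)) (ε : Fin 3 → ℤˣ) :
    (XT k).1 (mkSigned σ ε) = C ((ε k : ℤ) : ℂ) * X (σ k) *
      (C (((ε 0 * ε 1 * ε 2 : ℤˣ) : ℤ) : ℂ) * (C ((ε 2 : ℤ) : ℂ) * X (σ 2))) := by
  show act (mkSigned σ ε) (X k) * act (mkSigned σ ε) (C ((dl (mkSigned σ ε) : ℤ) : ℂ) * X 2) = _
  rw [act_mkSigned_X, map_mul, act_mkSigned_X, dl_mkSigned, algHom_C,
    MvPolynomial.algebraMap_eq]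

theorem YY_apply (i : Fin 3) (σ : Equiv.Perm (Fin 3)) (ε : Fin 3 → ℤˣ) :
    (YY i).1 (mkSigned σ ε) = C ((ε (σ.symm i) : ℤ) : ℂ) *
      ((C ((ε (σ.symm i) : ℤ) : ℂ) * X i) ^ 2 - (C ((ε 2 : ℤ) : ℂ) * X (σ 2)) ^ 2) := by
  show act (mkSigned σ ε) (gY (σ.symm i, ε (σ.symm i) * 1)) = _
  simp only [gY, mul_one, map_mul, map_sub, map_pow, act_mkSigned_X, algHom_C,
    MvPolynomial.algebraMap_eq, Equiv.apply_symm_apply]

theorem XT_odd (k : Fin 3) (v : SignedPerm 3) : (XT k).1 (negOne 3 * v) = - (XT k).1 v := by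
  obtain ⟨σ, ε, rfl⟩ := exists_mkSigned v
  rw [negOne_mul, XT_apply, XT_apply]
  simp

theorem YY_odd (k : Fin 3) (v : SignedPerm 3) : (YY k).1 (negOne 3 * v) = - (YY k).1 v := by
  obtain ⟨σ, ε, rfl⟩ := exists_mkSigned v
  rw [negOne_mul, YY_apply, YY_apply]
  simp

theorem mk_odd (ρ : SplinePart S0 2) (h : ∀ v, ρ.1 (negOne 3 * v) = - ρ.1 v) :
    mkL ρ ∈ LinearMap.ker (uu + LinearMap.id) := by
  rw [LinearMap.mem_ker, LinearMap.add_apply, LinearMap.id_apply, uu_mk]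
  have : dotPart S0 2 (negOne 3) ρ = - ρ := by
    apply Subtype.ext
    funext v
    rw [dotPart_negOne, h]
    rfl
  rw [this, map_neg, neg_add_cancel]

theorem key_indep (g : Fin 6 → ℂ)
    (h : g 0 • XT 0 + g 1 • XT 1 + g 2 • XT 2 + g 3 • YY 0 + g 4 • YY 1 + g 5 • YY 2 ∈
      idealPart S0 2) : ∀ i, g i = 0 := by
  set ρ : SplinePart S0 2 := g 0 • XT 0 + g 1 • XT 1 + g 2 • XT 2 + g 3 • YY 0 + g 4 • YY 1 +
    g 5 • YY 2 with hρ
  obtain ⟨l, hl⟩ := oddForm_of_mem _ h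
  have hval : ∀ v, ρ.1 v = g 0 • (XT 0).1 v + g 1 • (XT 1).1 v + g 2 • (XT 2).1 v +
      g 3 • (YY 0).1 v + g 4 • (YY 1).1 v + g 5 • (YY 2).1 v := fun v => rfl
  have hodd : ∀ v, ρ.1 (negOne 3 * v) = - ρ.1 v := by
    intro v
    rw [hval, hval, XT_odd, XT_odd, XT_odd, YY_odd, YY_odd, YY_odd]
    simp only [smul_neg]
    ring
  have key : ∀ (σ : Equiv.Perm (Fin 3)) (ε : Fin 3 → ℤˣ) (x : Fin 3 → ℂ),
      2 * eval x (ρ.1 (mkSigned σ ε)) = eval x (l 0) * (((ε 0 : ℤ) : ℂ) * x (σ 0)) +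
        eval x (l 1) * (((ε 1 : ℤ) : ℂ) * x (σ 1)) +
        eval x (l 2) * (((ε 2 : ℤ) : ℂ) * x (σ 2)) := by
    intro σ ε x
    have h1 : homogeneousComponent 2 (ρ.1 (mkSigned σ ε)) -
        homogeneousComponent 2 (ρ.1 (negOne 3 * mkSigned σ ε)) = _ := hl (mkSigned σ ε)
    have h2 : homogeneousComponent 2 (ρ.1 (mkSigned σ ε)) -
        homogeneousComponent 2 (ρ.1 (negOne 3 * mkSigned σ ε)) = 2 * ρ.1 (mkSigned σ ε) := by
      rw [homogeneousComponent_eq_self (ρ.2.2 _), homogeneousComponent_eq_self (ρ.2.2 _), hodd]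
      ring
    rw [h2, act_mkSigned_X, act_mkSigned_X, act_mkSigned_X] at h1
    have h3 := congrArg (eval x) h1
    simpa using h3
  have form : ∀ (σ : Equiv.Perm (Fin 3)) (ε : Fin 3 → ℤˣ) (x : Fin 3 → ℂ),
      eval x (ρ.1 (mkSigned σ ε)) =
      g 0 * (ε 0 * x (σ 0) * ((ε 0 * ε 1 * ε 2) * (ε 2 * x (σ 2)))) +
      g 1 * (ε 1 * x (σ 1) * ((ε 0 * ε 1 * ε 2) * (ε 2 * x (σ 2)))) +
      g 2 * (ε 2 * x (σ 2) * ((ε 0 * ε 1 * ε 2) * (ε 2 * x (σ 2)))) +
      g 3 * (ε (σ.symm 0) * ((ε (σ.symm 0) * x 0) ^ 2 - (ε 2 * x (σ 2)) ^ 2)) +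
      g 4 * (ε (σ.symm 1) * ((ε (σ.symm 1) * x 1) ^ 2 - (ε 2 * x (σ 2)) ^ 2)) +
      g 5 * (ε (σ.symm 2) * ((ε (σ.symm 2) * x 2) ^ 2 - (ε 2 * x (σ 2)) ^ 2)) := by
    intro σ ε x
    rw [hval, XT_apply, XT_apply, XT_apply, YY_apply, YY_apply, YY_apply]
    simp [smul_eq_C_mul]
  simp only [form] at key
  have o1 : (Equiv.symm (1 : Equiv.Perm (Fin 3))) = 1 := rfl
  have a1 := key 1 ![1, 1, 1] ![0, 0, 1]
  have a2 := key 1 ![-1, 1, 1] ![0, 0, 1]
  have a3 := key 1 ![1, -1, 1] ![0, 0, 1]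
  have a4 := key 1 ![-1, -1, 1] ![0, 0, 1]
  have b1 := key 1 ![1, 1, 1] ![0, 1, 1]
  have b2 := key 1 ![-1, 1, 1] ![0, 1, 1]
  have c1 := key 1 ![1, 1, 1] ![1, 0, 1]
  have c2 := key 1 ![1, -1, 1] ![1, 0, 1]
  have d1 := key (Equiv.swap 0 2) ![1, 1, 1] ![1, 0, 0]
  have d2 := key (Equiv.swap 0 2) ![-1, 1, 1] ![1, 0, 0]
  have sw2 : Equiv.swap (0 : Fin 3) 2 1 = 1 := by decide
  simp [o1] at a1 a2 a3 a4 b1 b2 c1 c2
  simp [sw2] at d1 d2
  have g2 : g 2 = 0 := by linear_combination (1 / 8 : ℂ) * a1 - (1 / 8 : ℂ) * a2 -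
    (1 / 8 : ℂ) * a3 + (1 / 8 : ℂ) * a4
  have g3 : g 3 = 0 := by linear_combination (-1 / 8 : ℂ) * a1 + (1 / 8 : ℂ) * a2 -
    (1 / 8 : ℂ) * a3 + (1 / 8 : ℂ) * a4
  have g4 : g 4 = 0 := by linear_combination (-1 / 8 : ℂ) * a1 - (1 / 8 : ℂ) * a2 +
    (1 / 8 : ℂ) * a3 + (1 / 8 : ℂ) * a4
  have g1 : g 1 = 0 := by linear_combination (1 / 4 : ℂ) * b1 - (1 / 4 : ℂ) * b2 - g2 + g3
  have g0 : g 0 = 0 := by linear_combination (1 / 4 : ℂ) * c1 - (1 / 4 : ℂ) * c2 - g2 + g4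
  have g5 : g 5 = 0 := by linear_combination (-1 / 4 : ℂ) * d1 + (1 / 4 : ℂ) * d2 + g2
  intro i
  fin_cases i
  · exact g0
  · exact g1
  · exact g2
  · exact g3
  · exact g4
  · exact g5

theorem finrank_minus : 6 ≤ Module.finrank ℂ (LinearMap.ker (uu + LinearMap.id)) := by
  let w : Fin 6 → LinearMap.ker (uu + LinearMap.id) :=
    ![⟨_, mk_odd (XT 0) (XT_odd 0)⟩, ⟨_, mk_odd (XT 1) (XT_odd 1)⟩, ⟨_, mk_odd (XT 2) (XT_odd 2)⟩,
      ⟨_, mk_odd (YY 0) (YY_odd 0)⟩, ⟨_, mk_odd (YY 1) (YY_odd 1)⟩, ⟨_, mk_odd (YY 2) (YY_odd 2)⟩]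
  have hw : LinearIndependent ℂ w := by
    rw [Fintype.linearIndependent_iff]
    intro g hg
    have h1 : mkL (g 0 • XT 0 + g 1 • XT 1 + g 2 • XT 2 + g 3 • YY 0 +
        g 4 • YY 1 + g 5 • YY 2) = 0 := by
      have h2 : (LinearMap.ker (uu + LinearMap.id)).subtype (∑ i, g i • w i) = 0 := by
        rw [hg]
        rfl
      rw [Fin.sum_univ_six] at h2
      simp only [map_add, map_smul]
      exact h2
    rw [mkL_eq_zero] at h1
    exact key_indep g h1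
  have := hw.fintype_card_le_finrank
  simpa using this

/-- The trace of `-1` on the degree two piece is negative. -/
theorem leftChar_negOne : ∃ a b : ℕ, a < b ∧ leftChar S0 2 (negOne 3) = (a : ℂ) - (b : ℂ) := by
  refine ⟨_, _, lt_of_le_of_lt finrank_plus (lt_of_lt_of_le (by norm_num) finrank_minus), ?_⟩
  exact trace_involution uu uu_sq

theorem not_positive : ¬ IsReflectionPositive (leftChar S0 2) := by
  rintro ⟨c, -, hc⟩
  obtain ⟨a, b, hab, h⟩ := leftChar_negOne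
  have h1 := hc (negOne 3)
  rw [h] at h1
  have h2 : (c.sum fun R m => (m : ℂ) * cosetChar R (negOne 3)) =
      ((c.sum fun R m => m * Nat.card {q : SignedPerm 3 ⧸ R // negOne 3 • q = q} : ℕ) : ℂ) := by
    unfold Finsupp.sum cosetChar
    push_cast
    rfl
  rw [h2] at h1
  have h3 : (a : ℂ) = ((b + (c.sum fun R m => m * Nat.card {q : SignedPerm 3 ⧸ R //
      negOne 3 • q = q}) : ℕ) : ℂ) := by
    push_cast
    rw [sub_eq_iff_eq_add] at h1
    rw [h1]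
    push_cast
    ring
  have h4 := Nat.cast_injective h3
  omega

end Pool.Agent.KS6_96.He.Lib
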