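import Pool.Agent.KS6_96.He.Lie
import Pool.Agent.KS6_96.He.LLie
import Pool.Agent.KS6_96.He.LTrace

/-!
Non-positivity.
-/

namespace Pool.Agent.KS6_96.He

open Pool.Agent.KS6_96.He.Lib (SignedPerm PosRoot negOne cosetChar)

/-- A class function on the signed permutations is a combination of the characters of the actions
on the cosets of subgroups, with non-negative real coefficients. All subgroups are allowed, not only
reflection subgroups. -/
def IsCosetPositive {n : ℕ} (χ : SignedPerm n → ℂ) : Prop :=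
  ∃ c : Subgroup (SignedPerm n) →₀ ℝ, (∀ R, 0 ≤ c R) ∧
    ∀ w, χ w = c.sum fun R r => (r : ℂ) * cosetChar R w

theorem not_positive_of_neg {n : ℕ} {χ : SignedPerm n → ℂ} {w : SignedPerm n} {x : ℝ}
    (hx : x < 0) (h : χ w = (x : ℂ)) : ¬ IsCosetPositive χ := by
  rintro ⟨c, hc, hχ⟩
  have h1 := hχ w
  rw [h] at h1
  have h2 : (c.sum fun R r => (r : ℂ) * cosetChar R w) =
      ((c.sum fun R r => r * (Nat.card {q : SignedPerm n ⧸ R // w • q = q} : ℝ) : ℝ) : ℂ) := by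
    unfold Finsupp.sum cosetChar
    push_cast
    rfl
  rw [h2] at h1
  have h3 : x = c.sum fun R r => r * (Nat.card {q : SignedPerm n ⧸ R // w • q = q} : ℝ) := by
    exact_mod_cast h1
  have h4 : 0 ≤ c.sum fun R r => r * (Nat.card {q : SignedPerm n ⧸ R // w • q = q} : ℝ) :=
    Finset.sum_nonneg fun R _ => mul_nonneg (hc R) (Nat.cast_nonneg _)
  linarith

theorem value_neg {m : ℕ} (hm : 2 ≤ m) (t : CType) :
    leftChar t (SS m) 2 (negOne (m + 2)) = (((4 - (m : ℝ) - m ^ 2) / 2 : ℝ) : ℂ) ∧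
      ((4 - (m : ℝ) - m ^ 2) / 2 : ℝ) < 0 := by
  constructor
  · rw [leftChar_negOne]
    push_cast
    ring
  · have : (2 : ℝ) ≤ m := by exact_mod_cast hm
    nlinarith

theorem main_B (n : ℕ) (hn : 4 ≤ n) : ∃ H : Submodule ℂ (Matrix (Unit ⊕ (Fin n ⊕ Fin n))
    (Unit ⊕ (Fin n ⊕ Fin n)) ℂ), IsHessenbergSpace (so n) torB .B H ∧
    leftChar .B (hessRoots (so n) torB .B H) 2 (negOne n) = (2 + 3 * (n : ℂ) - n ^ 2) / 2 ∧
    ¬ IsCosetPositive (leftChar .B (hessRoots (so n) torB .B H) 2) := by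
  obtain ⟨m, rfl⟩ : ∃ m, n = m + 2 := ⟨n - 2, by omega⟩
  obtain ⟨H, h1, h2⟩ := exists_B m
  obtain ⟨h3, h4⟩ := value_neg (m := m) (by omega) .B
  refine ⟨H, h1, ?_, ?_⟩
  · rw [h2, leftChar_negOne]
    push_cast
    ring
  · rw [h2]
    exact not_positive_of_neg h4 h3

theorem main_C (n : ℕ) (hn : 4 ≤ n) : ∃ H : Submodule ℂ (Matrix (Fin n ⊕ Fin n)
    (Fin n ⊕ Fin n) ℂ), IsHessenbergSpace (sp n) torC .C H ∧
    leftChar .C (hessRoots (sp n) torC .C H) 2 (negOne n) = (2 + 3 * (n : ℂ) - n ^ 2) / 2 ∧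
    ¬ IsCosetPositive (leftChar .C (hessRoots (sp n) torC .C H) 2) := by
  obtain ⟨m, rfl⟩ : ∃ m, n = m + 2 := ⟨n - 2, by omega⟩
  obtain ⟨H, h1, h2⟩ := exists_C m
  obtain ⟨h3, h4⟩ := value_neg (m := m) (by omega) .C
  refine ⟨H, h1, ?_, ?_⟩
  · rw [h2, leftChar_negOne]
    push_cast
    ring
  · rw [h2]
    exact not_positive_of_neg h4 h3

theorem main_C3 : ∃ H : Submodule ℂ (Matrix (Fin 3 ⊕ Fin 3) (Fin 3 ⊕ Fin 3) ℂ),
    IsHessenbergSpace (sp 3) torC .C H ∧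
    ¬ IsCosetPositive (leftChar .C (hessRoots (sp 3) torC .C H) 2) := by
  obtain ⟨a, b, hab, h⟩ := Lib.leftChar_negOne
  refine ⟨Lib.H0, ?_, ?_⟩
  · rw [isHessenbergSpace_C]
    exact Lib.H0_hess
  · rw [hessRoots_C, Lib.hessRoots_H0, leftChar_C]
    refine not_positive_of_neg (w := negOne 3) (x := (a : ℝ) - b) ?_ ?_
    · have : (a : ℝ) < b := by exact_mod_cast hab
      linarith
    · rw [h]
      push_cast
      rfl

end Pool.Agent.KS6_96.He
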