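import Pool.Agent.KS6_96.He.LBasic

/-!
Right invariance of functions on the group of signed permutations.
-/

namespace Pool.Agent.KS6_96.He

open Pool.Agent.KS6_96.He.Lib

variable {n : ℕ}

/-- The transposition `(i j)`. -/
def sw (i j : Fin n) : SignedPerm n := mkSigned (Equiv.swap i j) (fun _ => 1)

/-- The sign change of `i`. -/
def sg (i : Fin n) : SignedPerm n := mkSigned 1 (fun k => if k = i then -1 else 1)

/-- The negative of a signed index. -/
def neg (p : Fin n × ℤˣ) : Fin n × ℤˣ := (p.1, -p.2)

theorem neg_neg' (p : Fin n × ℤˣ) : neg (neg p) = p := by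
  simp [neg]

theorem perm_neg (w : SignedPerm n) (p : Fin n × ℤˣ) : w.1 (neg p) = neg (w.1 p) := w.2 p.1 p.2

theorem perm_apply (w : SignedPerm n) (i : Fin n) (s : ℤˣ) :
    w.1 (i, s) = ((w.1 (i, 1)).1, (w.1 (i, 1)).2 * s) := by
  rcases Int.units_eq_one_or s with rfl | rfl
  · simp
  · have := w.2 i 1
    rw [this]
    simp

theorem ext_one {u v : SignedPerm n} (h : ∀ l, u.1 (l, 1) = v.1 (l, 1)) : u = v := by
  apply Subtype.ext
  ext ⟨i, s⟩ : 1
  rw [perm_apply, perm_apply v, h]

theorem mul_apply' (w u : SignedPerm n) (p : Fin n × ℤˣ) : (w * u).1 p = w.1 (u.1 p) := rfl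

theorem inv_apply' (w : SignedPerm n) (p : Fin n × ℤˣ) : w⁻¹.1 (w.1 p) = p := by
  rw [← mul_apply', inv_mul_cancel]
  rfl

theorem apply_inv' (w : SignedPerm n) (p : Fin n × ℤˣ) : w.1 (w⁻¹.1 p) = p := by
  rw [← mul_apply', mul_inv_cancel]
  rfl

theorem sw_apply (i j k : Fin n) (s : ℤˣ) : (sw i j).1 (k, s) = (Equiv.swap i j k, s) := by
  unfold sw
  rw [mkSigned_apply, one_mul]

theorem sg_apply (i k : Fin n) (s : ℤˣ) :
    (sg i).1 (k, s) = (k, (if k = i then -1 else 1) * s) := rfl

theorem mul_sw (w : SignedPerm n) (i j k : Fin n) (s : ℤˣ) :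
    (w * sw i j).1 (k, s) = w.1 (Equiv.swap i j k, s) := by
  rw [mul_apply', sw_apply]

theorem mul_sg_same (w : SignedPerm n) (i : Fin n) (s : ℤˣ) :
    (w * sg i).1 (i, s) = neg (w.1 (i, s)) := by
  rw [mul_apply', sg_apply, ← perm_neg]
  simp [neg]

theorem mul_sg_ne (w : SignedPerm n) {i k : Fin n} (h : k ≠ i) (s : ℤˣ) :
    (w * sg i).1 (k, s) = w.1 (k, s) := by
  rw [mul_apply', sg_apply]
  simp [h]

theorem negOne_apply (w : SignedPerm n) (p : Fin n × ℤˣ) :
    (negOne n * w).1 p = neg (w.1 p) := by
  rw [mul_apply', ← Prod.mk.eta (p := w.1 p)]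
  unfold negOne
  rw [mkSigned_apply]
  simp [neg]

theorem sw_self_mul (i j : Fin n) : sw i j * sw i j = 1 := by
  apply ext_one
  intro l
  rw [mul_sw, sw_apply]
  simp

theorem sg_self_mul (i : Fin n) : sg i * sg i = 1 := by
  apply ext_one
  intro l
  by_cases h : l = i
  · subst h
    rw [mul_sg_same, sg_apply]
    simp [neg]
  · rw [mul_sg_ne _ h, sg_apply]
    simp [h]

theorem sum_refl (i j : Fin n) (h : i < j) : (PosRoot.sum i j h).refl = sg j * sw i j * sg j := by
  have hne : i ≠ j := h.ne
  apply ext_one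
  intro l
  simp only [PosRoot.refl, mkSigned_apply]
  by_cases hj : l = j
  · subst hj
    rw [mul_sg_same, mul_sw, sg_apply]
    simp [neg, hne]
  · rw [mul_sg_ne _ hj, mul_sw, sg_apply]
    by_cases hi : l = i
    · subst hi
      simp
    · rw [Equiv.swap_apply_of_ne_of_ne hi hj]
      simp [hi, hj]

theorem diff_refl (i j : Fin n) (h : i < j) : (PosRoot.diff i j h).refl = sw i j := rfl

theorem long_refl (i : Fin n) : (PosRoot.long i).refl = sg i := rfl

theorem sg_sw_comm {i j k : Fin n} (hi : k ≠ i) (hj : k ≠ j) : sg k * sw i j = sw i j * sg k := by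
  apply ext_one
  intro l
  rw [mul_sw, sg_apply]
  by_cases h : l = k
  · subst h
    rw [mul_sg_same, sw_apply, Equiv.swap_apply_of_ne_of_ne hi hj]
    simp [neg]
  · rw [mul_sg_ne _ h, sw_apply]
    have : Equiv.swap i j l ≠ k := by
      intro h'
      apply h
      have := congrArg (Equiv.swap i j) h'
      rw [Equiv.swap_apply_self, Equiv.swap_apply_of_ne_of_ne hi hj] at this
      exact this
    simp [this]

theorem sw_conj {i j k : Fin n} (hij : i ≠ j) (hik : i ≠ k) (hjk : j ≠ k) :
    sw i k = sw j k * sw i j * sw j k := by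
  apply ext_one
  intro l
  rw [sw_apply, mul_sw, mul_sw, sw_apply]
  by_cases h1 : l = i
  · subst h1
    rw [Equiv.swap_apply_left, Equiv.swap_apply_of_ne_of_ne hij hik, Equiv.swap_apply_left,
      Equiv.swap_apply_left]
  · by_cases h2 : l = j
    · subst h2
      rw [Equiv.swap_apply_left, Equiv.swap_apply_of_ne_of_ne hij.symm hjk,
        Equiv.swap_apply_of_ne_of_ne hik.symm hjk.symm, Equiv.swap_apply_right]
    · by_cases h3 : l = k
      · subst h3
        rw [Equiv.swap_apply_right, Equiv.swap_apply_right, Equiv.swap_apply_right,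
          Equiv.swap_apply_of_ne_of_ne hij hik]
      · rw [Equiv.swap_apply_of_ne_of_ne h1 h3, Equiv.swap_apply_of_ne_of_ne h2 h3,
          Equiv.swap_apply_of_ne_of_ne h1 h2, Equiv.swap_apply_of_ne_of_ne h2 h3]

theorem sg_conj {i j : Fin n} (hij : i ≠ j) : sg i = sw i j * sg j * sw i j := by
  apply ext_one
  intro l
  rw [mul_sw]
  by_cases h1 : l = i
  · subst h1
    rw [Equiv.swap_apply_left, mul_sg_same, sw_apply, sg_apply]
    simp [neg]
  · by_cases h2 : l = j
    · subst h2
      rw [Equiv.swap_apply_right, mul_sg_ne _ hij, sw_apply, sg_apply]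
      simp [hij.symm]
    · rw [Equiv.swap_apply_of_ne_of_ne h1 h2, mul_sg_ne _ h2, sw_apply, sg_apply,
        Equiv.swap_apply_of_ne_of_ne h1 h2]
      simp [h1]

/-- The subgroup of all `u` with `f(w u) = f(w)` for all `w`. -/
def Stab {X : Type} (f : SignedPerm n → X) : Subgroup (SignedPerm n) where
  carrier := {u | ∀ w, f (w * u) = f w}
  mul_mem' := by
    intro a b ha hb w
    rw [← mul_assoc, hb, ha]
  one_mem' := by
    intro w
    rw [mul_one]
  inv_mem' := by
    intro a ha w
    have := ha (w * a⁻¹)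
    rw [inv_mul_cancel_right] at this
    exact this.symm

theorem mem_Stab {X : Type} {f : SignedPerm n → X} {u : SignedPerm n} :
    u ∈ Stab f ↔ ∀ w, f (w * u) = f w := Iff.rfl

/-- Adjacent transpositions generate all transpositions. -/
theorem swaps_mem {K : Subgroup (SignedPerm n)} {b : ℕ}
    (h : ∀ i j : Fin n, (j : ℕ) = i + 1 → (j : ℕ) ≤ b → sw i j ∈ K) :
    ∀ (d : ℕ) (i j : Fin n), (j : ℕ) = i + d → (j : ℕ) ≤ b → sw i j ∈ K := by
  intro d
  induction d with
  | zero =>
    intro i j hij _
    have : i = j := Fin.ext (by omega)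
    subst this
    have : sw i i = 1 := by
      apply ext_one
      intro l
      rw [sw_apply]
      simp
    rw [this]
    exact one_mem K
  | succ d ih =>
    intro i j hij hj
    rcases Nat.eq_zero_or_pos d with rfl | hd
    · exact h i j (by omega) hj
    · have hlt : (i : ℕ) + d < n := by
        have := j.2
        omega
      set k : Fin n := ⟨i + d, hlt⟩ with hk
      have h1 : sw i k ∈ K := ih i k rfl (by simp only [hk]; omega)
      have h2 : sw k j ∈ K := h k j (by simp only [hk]; omega) hj
      have hik : i ≠ k := by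
        intro e
        have := congrArg Fin.val e
        simp only [hk] at this
        omega
      have hij' : i ≠ j := by
        intro e
        have := congrArg Fin.val e
        omega
      have hkj : k ≠ j := by
        intro e
        have := congrArg Fin.val e
        simp only [hk] at this
        omega
      rw [sw_conj hik hij' hkj]
      exact mul_mem (mul_mem h2 h1) h2

theorem sw_comm (i j : Fin n) : sw i j = sw j i := by
  unfold sw
  rw [Equiv.swap_comm]

theorem swaps_mem' {K : Subgroup (SignedPerm n)} {b : ℕ}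
    (h : ∀ i j : Fin n, (j : ℕ) = i + 1 → (j : ℕ) ≤ b → sw i j ∈ K) (i j : Fin n)
    (hi : (i : ℕ) ≤ b) (hj : (j : ℕ) ≤ b) : sw i j ∈ K := by
  rcases le_total (i : ℕ) (j : ℕ) with hij | hij
  · exact swaps_mem h ((j : ℕ) - i) i j (by omega) hj
  · rw [sw_comm]
    exact swaps_mem h ((i : ℕ) - j) j i (by omega) hi

theorem signs_mem {K : Subgroup (SignedPerm n)} {b : ℕ}
    (h : ∀ i j : Fin n, (i : ℕ) ≤ b → (j : ℕ) ≤ b → sw i j ∈ K) (c : Fin n) (hc : (c : ℕ) ≤ b)
    (hs : sg c ∈ K) (i : Fin n) (hi : (i : ℕ) ≤ b) : sg i ∈ K := by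
  by_cases hic : i = c
  · rw [hic]
    exact hs
  · rw [sg_conj hic]
    exact mul_mem (mul_mem (h i c hi hc) hs) (h i c hi hc)

/-- A signed permutation fixing all positions beyond `b` lies in every subgroup containing the
transpositions and sign changes of the positions up to `b`. -/
theorem mem_of_fix {K : Subgroup (SignedPerm n)} {b : ℕ}
    (h : ∀ i j : Fin n, (i : ℕ) ≤ b → (j : ℕ) ≤ b → sw i j ∈ K)
    (hs : ∀ i : Fin n, (i : ℕ) ≤ b → sg i ∈ K) :
    ∀ (c : ℕ) (u : SignedPerm n), (∀ l : Fin n, b < l → u.1 (l, 1) = (l, 1)) →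
      (Finset.univ.filter fun l => u.1 (l, 1) ≠ (l, 1)).card ≤ c → u ∈ K := by
  intro c
  induction c with
  | zero =>
    intro u _ hc
    have h0 : (Finset.univ.filter fun l => u.1 (l, 1) ≠ (l, 1)) = ∅ := by
      rw [← Finset.card_eq_zero]
      omega
    have : u = 1 := by
      apply ext_one
      intro l
      by_contra hl
      have : l ∈ (Finset.univ.filter fun l => u.1 (l, 1) ≠ (l, 1)) := by
        rw [Finset.mem_filter]
        exact ⟨Finset.mem_univ _, hl⟩
      rw [h0] at this
      simp at this
    rw [this]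
    exact one_mem K
  | succ c ih =>
    intro u hu hc
    by_cases hall : ∀ l, u.1 (l, 1) = (l, 1)
    · have : u = 1 := ext_one hall
      rw [this]
      exact one_mem K
    · obtain ⟨l, hl⟩ := not_forall.1 hall
      have hlb : (l : ℕ) ≤ b := by
        by_contra hlb
        exact hl (hu l (by omega))
      obtain ⟨⟨j, ε⟩, hj⟩ : ∃ p, u.1 p = (l, 1) := ⟨u.1.symm (l, 1), by simp⟩
      have hjfix : u.1 (j, 1) ≠ (j, 1) := by
        intro hj1
        rw [perm_apply, hj1] at hj
        have e1 : j = l := congrArg Prod.fst hj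
        subst e1
        exact hl hj1
      have hjb : (j : ℕ) ≤ b := by
        by_contra hjb
        exact hjfix (hu j (by omega))
      let t : SignedPerm n := mkSigned (Equiv.swap l j) (fun k => if k = l then ε else 1)
      have htl : t.1 (l, 1) = (j, ε) := by
        simp [t, mkSigned_apply]
      have htk : ∀ k, k ≠ l → k ≠ j → t.1 (k, 1) = (k, 1) := by
        intro k h1 h2
        simp [t, mkSigned_apply, h1, Equiv.swap_apply_of_ne_of_ne h1 h2]
      have htK : t ∈ K := by
        rcases Int.units_eq_one_or ε with he | he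
        · have : t = sw l j := by
            apply ext_one
            intro k
            rw [sw_apply]
            simp [t, mkSigned_apply, he]
          rw [this]
          exact h l j hlb hjb
        · have : t = sw l j * sg l := by
            apply ext_one
            intro k
            by_cases hk : k = l
            · subst hk
              rw [mul_sg_same, sw_apply, htl, he]
              simp [neg]
            · rw [mul_sg_ne _ hk, sw_apply]
              simp [t, mkSigned_apply, hk]
          rw [this]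
          exact mul_mem (h l j hlb hjb) (hs l hlb)
      have hfix : ∀ k, u.1 (k, 1) = (k, 1) → (u * t).1 (k, 1) = (k, 1) := by
        intro k hk
        rw [mul_apply', htk k (by rintro rfl; exact hl hk) (by rintro rfl; exact hjfix hk), hk]
      have hutl : (u * t).1 (l, 1) = (l, 1) := by
        rw [mul_apply', htl, hj]
      have hut : u * t ∈ K := by
        apply ih
        · intro k hk
          exact hfix k (hu k hk)
        · have hsub : (Finset.univ.filter fun k => (u * t).1 (k, 1) ≠ (k, 1)) ⊆
              (Finset.univ.filter fun k => u.1 (k, 1) ≠ (k, 1)).erase l := by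
            intro k hk
            rw [Finset.mem_filter] at hk
            rw [Finset.mem_erase, Finset.mem_filter]
            refine ⟨?_, Finset.mem_univ _, fun h' => hk.2 (hfix k h')⟩
            rintro rfl
            exact hk.2 hutl
          have h1 := Finset.card_le_card hsub
          rw [Finset.card_erase_of_mem (by
            rw [Finset.mem_filter]
            exact ⟨Finset.mem_univ _, hl⟩)] at h1
          omega
      have : u = (u * t) * t⁻¹ := by rw [mul_inv_cancel_right]
      rw [this]
      exact mul_mem hut (inv_mem htK)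

/-- A function which is right invariant under all simple reflections is constant. -/
theorem const_of_inv {X : Type} {f : SignedPerm n → X} (c : Fin n)
    (h1 : ∀ i j : Fin n, (j : ℕ) = i + 1 → ∀ w, f (w * sw i j) = f w)
    (h2 : ∀ w, f (w * sg c) = f w) (w w' : SignedPerm n) : f w = f w' := by
  have a1 : ∀ i j : Fin n, (i : ℕ) ≤ n → (j : ℕ) ≤ n → sw i j ∈ Stab f :=
    fun i j hi hj => swaps_mem' (K := Stab f) (fun i j hij _ => h1 i j hij) i j hi hj
  have a2 : ∀ i : Fin n, (i : ℕ) ≤ n → sg i ∈ Stab f :=
    fun i hi => signs_mem a1 c c.2.le h2 i hi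
  have a3 := mem_of_fix a1 a2 _ (w'⁻¹ * w) (fun l hl => absurd l.2 (by omega)) le_rfl
  have := a3 w'
  rw [mul_inv_cancel_left] at this
  exact this

/-- A function which is right invariant under the transpositions and sign changes not involving
the last position depends only on the image of the last position. -/
theorem last_of_inv {X : Type} {f : SignedPerm n → X} (y z : Fin n) (hy : (y : ℕ) + 1 = z)
    (hz : (z : ℕ) + 1 = n)
    (h1 : ∀ i j : Fin n, (j : ℕ) = i + 1 → (j : ℕ) ≤ y → ∀ w, f (w * sw i j) = f w)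
    (h2 : ∀ w, f (w * sg y) = f w) (w w' : SignedPerm n) (h : w.1 (z, 1) = w'.1 (z, 1)) :
    f w = f w' := by
  have a1 : ∀ i j : Fin n, (i : ℕ) ≤ y → (j : ℕ) ≤ y → sw i j ∈ Stab f :=
    fun i j hi hj => swaps_mem' (K := Stab f) (fun i j hij hj => h1 i j hij hj) i j hi hj
  have a2 : ∀ i : Fin n, (i : ℕ) ≤ y → sg i ∈ Stab f :=
    fun i hi => signs_mem a1 y le_rfl h2 i hi
  have a3 := mem_of_fix a1 a2 _ (w'⁻¹ * w) (fun l hl => by
    have : l = z := Fin.ext (by have := l.2; omega)
    subst this
    rw [mul_apply', h, inv_apply']) le_rfl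
  have := a3 w'
  rw [mul_inv_cancel_left] at this
  exact this

/-- A signed permutation with prescribed image of a position. -/
theorem exists_image (z : Fin n) (p : Fin n × ℤˣ) : ∃ w : SignedPerm n, w.1 (z, 1) = p := by
  refine ⟨mkSigned (Equiv.swap z p.1) (fun _ => p.2), ?_⟩
  rw [mkSigned_apply]
  simp

theorem sum_sw {M : Type} [AddCommMonoid M] (F : Fin n × ℤˣ → M) (w : SignedPerm n)
    (i j : Fin n) : ∑ l, F ((w * sw i j).1 (l, 1)) = ∑ l, F (w.1 (l, 1)) := by
  simp only [mul_sw]
  exact Equiv.sum_comp (Equiv.swap i j) fun l => F (w.1 (l, 1))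

theorem sum_sg {M : Type} [AddCommGroup M] (F : Fin n × ℤˣ → M) (w : SignedPerm n)
    (i : Fin n) : ∑ l, F ((w * sg i).1 (l, 1)) =
      ∑ l, F (w.1 (l, 1)) - F (w.1 (i, 1)) + F (neg (w.1 (i, 1))) := by
  rw [← Finset.add_sum_erase _ _ (Finset.mem_univ i), ← Finset.add_sum_erase
    Finset.univ (fun l => F (w.1 (l, 1))) (Finset.mem_univ i), mul_sg_same]
  have : ∑ l ∈ Finset.univ.erase i, F ((w * sg i).1 (l, 1)) =
      ∑ l ∈ Finset.univ.erase i, F (w.1 (l, 1)) := by
    refine Finset.sum_congr rfl fun l hl => ?_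
    rw [mul_sg_ne _ (Finset.ne_of_mem_erase hl)]
  rw [this]
  abel

end Pool.Agent.KS6_96.He
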