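import Pool.Agent.KS6_96.He.Deg2

/-!
The degree two part of the ideal and the character of the left quotient at `-1`.
-/

namespace Pool.Agent.KS6_96.He

open MvPolynomial
open Pool.Agent.KS6_96.He.Lib

section general

variable {n : ℕ} {t : CType} {S : Set (PosRoot n)}

theorem root_homog (t : CType) (α : PosRoot n) : (root t α).IsHomogeneous 1 := by
  cases t
  · cases α with
    | diff i j h => exact (isHomogeneous_X ℂ i).sub (isHomogeneous_X ℂ j)
    | sum i j h => exact (isHomogeneous_X ℂ i).add (isHomogeneous_X ℂ j)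
    | long i => exact isHomogeneous_X ℂ i
  · cases α with
    | diff i j h => exact (isHomogeneous_X ℂ i).sub (isHomogeneous_X ℂ j)
    | sum i j h => exact (isHomogeneous_X ℂ i).add (isHomogeneous_X ℂ j)
    | long i =>
      have := (isHomogeneous_C (Fin n) (2 : ℂ)).mul (isHomogeneous_X ℂ i)
      rw [zero_add, map_ofNat] at this
      exact this

theorem root_ne (t : CType) (α : PosRoot n) : root t α ≠ 0 := by
  intro h
  have key : ∀ x : Fin n → ℂ, eval x α.form = 0 := by
    intro x
    rw [← root_eval t α x, h, map_zero]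
  cases α with
  | diff i j hij =>
    have := key (Pi.single i 1)
    simp [PosRoot.form, hij.ne'] at this
  | sum i j hij =>
    have := key (Pi.single i 1)
    simp [PosRoot.form, hij.ne'] at this
  | long i =>
    have := key (Pi.single i 1)
    simp [PosRoot.form] at this

/-- Homogeneous components of splines are splines. -/
theorem hc_mem {b : SignedPerm n → MvPolynomial (Fin n) ℂ} (hb : b ∈ splineRing t S) (k : ℕ) :
    (fun w => homogeneousComponent k (b w)) ∈ splinePart t S k := by
  refine ⟨fun α hα w => ?_, fun w => homogeneousComponent_isHomogeneous k _⟩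
  rw [← map_sub]
  exact hc_dvd (act_homog w (root_homog t α)) (hb α hα w) k

/-- Constant splines. -/
noncomputable def cst (p : MvPolynomial (Fin n) ℂ) : SplineRing t S :=
  SplineRing.mk (fun _ => p) (fun α _ w => by simp)

theorem cst_val (p : MvPolynomial (Fin n) ℂ) (w : SignedPerm n) :
    (cst p : SplineRing t S).1 w = p := rfl

theorem leftIdeal_le : leftIdeal t S ≤ Ideal.span (Set.range fun i : Fin n =>
    (cst (X i) : SplineRing t S)) := by
  unfold leftIdeal
  rw [Ideal.span_le]
  rintro ρ ⟨p, d, hd, hp, hw⟩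
  obtain ⟨k, rfl⟩ : ∃ k, d = k + 1 := ⟨d - 1, by omega⟩
  obtain ⟨q, hq, hpq⟩ := euler hp
  have e : ρ = ∑ i, cst (q i) * cst (X i) := by
    apply Subtype.ext
    have e1 : ((∑ i, cst (q i) * cst (X i) : SplineRing t S)).1 =
        ∑ i, ((cst (q i) * cst (X i) : SplineRing t S)).1 :=
      map_sum (splineRing t S).val _ _
    rw [e1]
    funext w
    rw [Finset.sum_apply, hw, hpq]
    refine Finset.sum_congr rfl fun i _ => ?_
    exact mul_comm _ _
  rw [e]
  exact Ideal.sum_mem _ fun i _ => Ideal.mul_mem_left _ _ (Ideal.subset_span ⟨i, rfl⟩)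

theorem mulX_mem (i : Fin n) {k : ℕ} {b : SignedPerm n → MvPolynomial (Fin n) ℂ}
    (hb : b ∈ splinePart t S k) : (fun w => X i * b w) ∈ splinePart t S (k + 1) := by
  refine ⟨?_, fun w => ?_⟩
  · exact mul_mem (S := Subalgebra ℂ (SignedPerm n → MvPolynomial (Fin n) ℂ))
      (cst (X i) : SplineRing t S).2 hb.1
  · have := (isHomogeneous_X ℂ i).mul (hb.2 w)
    rw [add_comm] at this
    exact this

/-- Multiplication by a variable. -/
noncomputable def mulX (i : Fin n) (k : ℕ) : SplinePart t S k →ₗ[ℂ] SplinePart t S (k + 1) where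
  toFun ρ := ⟨fun w => X i * ρ.1 w, mulX_mem i ρ.2⟩
  map_add' a b := by
    apply Subtype.ext
    funext w
    exact mul_add _ _ _
  map_smul' c a := by
    apply Subtype.ext
    funext w
    exact mul_smul_comm c _ _

theorem mulX_apply (i : Fin n) (k : ℕ) (ρ : SplinePart t S k) (w : SignedPerm n) :
    (mulX i k ρ).1 w = X i * ρ.1 w := rfl

theorem mulX_ideal (i : Fin n) (k : ℕ) (ρ : SplinePart t S k) :
    mulX i k ρ ∈ idealPart t S (k + 1) := by
  show SplineRing.mk (mulX i k ρ).1 (mulX i k ρ).2.1 ∈ leftIdeal t S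
  have e : SplineRing.mk (mulX i k ρ).1 (mulX i k ρ).2.1 =
      (cst (X i) : SplineRing t S) * SplineRing.mk ρ.1 ρ.2.1 := rfl
  rw [e]
  exact Ideal.mul_mem_right _ _ (Ideal.subset_span ⟨X i, 1, one_pos, isHomogeneous_X ℂ i,
    fun _ => rfl⟩)

/-- The map `(h_i) ↦ ∑ x_i h_i`. -/
noncomputable def muV (k : ℕ) : (Fin n → SplinePart t S k) →ₗ[ℂ] SplinePart t S (k + 1) :=
  ∑ i, mulX i k ∘ₗ LinearMap.proj i

theorem muV_eq (k : ℕ) (h : Fin n → SplinePart t S k) : muV k h = ∑ i, mulX i k (h i) := by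
  simp [muV]

theorem muV_apply (k : ℕ) (h : Fin n → SplinePart t S k) (w : SignedPerm n) :
    (muV k h).1 w = ∑ i, X i * (h i).1 w := by
  rw [muV_eq]
  have e1 : (∑ i, mulX i k (h i)).1 = ∑ i, (mulX i k (h i)).1 :=
    map_sum (splinePart t S (k + 1)).subtype _ _
  rw [e1, Finset.sum_apply]
  rfl

theorem muV_ideal (k : ℕ) (h : Fin n → SplinePart t S k) : muV k h ∈ idealPart t S (k + 1) := by
  rw [muV_eq]
  exact sum_mem fun i _ => mulX_ideal i k (h i)

/-- The map `(h_i) ↦ ∑ x_i h_i` onto the ideal. -/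
noncomputable def mu (k : ℕ) : (Fin n → SplinePart t S k) →ₗ[ℂ] idealPart t S (k + 1) :=
  LinearMap.codRestrict _ (muV k) (muV_ideal k)

theorem mu_val (k : ℕ) (h : Fin n → SplinePart t S k) : (mu k h).1 = muV k h := rfl

theorem mu_surj (k : ℕ) : Function.Surjective (mu k : (Fin n → SplinePart t S k) →ₗ[ℂ] _) := by
  rintro ⟨ρ, hρ⟩
  have h1 := leftIdeal_le (show SplineRing.mk ρ.1 ρ.2.1 ∈ leftIdeal t S from hρ)
  rw [Ideal.mem_span_range_iff_exists_fun] at h1
  obtain ⟨c, hc⟩ := h1
  refine ⟨fun i => ⟨fun w => homogeneousComponent k ((c i).1 w), hc_mem (c i).2 k⟩, ?_⟩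
  apply Subtype.ext
  apply Subtype.ext
  funext w
  rw [mu_val, muV_apply]
  have e1 : ρ.1 = ∑ i, ((c i * cst (X i) : SplineRing t S)).1 := by
    have h2 := congrArg Subtype.val hc
    have h3 : (∑ i, c i * cst (X i) : SplineRing t S).1 =
      ∑ i, ((c i * cst (X i) : SplineRing t S)).1 := map_sum (splineRing t S).val _ _
    exact h2.symm.trans h3
  have e2 : ρ.1 w = ∑ i, X i * (c i).1 w := by
    rw [e1, Finset.sum_apply]
    refine Finset.sum_congr rfl fun i _ => ?_
    exact mul_comm _ _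
  have e3 : ρ.1 w = homogeneousComponent (k + 1) (ρ.1 w) :=
    (homogeneousComponent_eq_self (ρ.2.2 w)).symm
  show ∑ i, X i * homogeneousComponent k ((c i).1 w) = ρ.1 w
  rw [e3, e2, map_sum]
  refine Finset.sum_congr rfl fun i _ => ?_
  rw [hc_mul (isHomogeneous_X ℂ i), if_pos (by omega)]
  rfl

end general

end Pool.Agent.KS6_96.He
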