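import Pool.Agent.KS6_96.He.Idl

/-!
The kernel of the multiplication map and the character of the left quotient at `-1`.
-/

namespace Pool.Agent.KS6_96.He

open MvPolynomial
open Pool.Agent.KS6_96.He.Lib

/-! ### Pairs of indices -/

/-- The pairs `i < j`. -/
abbrev Prs (n : ℕ) : Type := {p : Fin n × Fin n // p.1 < p.2}

theorem card_Prs (n : ℕ) : (Fintype.card (Prs n) : ℂ) = n * (n - 1) / 2 := by
  have h1 : Fintype.card (Prs n) = ∑ j ∈ Finset.range n, j := by
    rw [Fintype.card_subtype, Finset.card_filter, ← Finset.univ_product_univ,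
      Finset.sum_product_right]
    rw [← Fin.sum_univ_eq_sum_range (fun j => j) n]
    refine Finset.sum_congr rfl fun j _ => ?_
    rw [← Finset.card_filter]
    have : (Finset.univ.filter fun i : Fin n => i < j) = Finset.Iio j := by
      ext i
      simp
    simp only [this, Fin.card_Iio]
  have h2 := Finset.sum_range_id_mul_two n
  rw [← h1] at h2
  have h3 : ((Fintype.card (Prs n) : ℕ) : ℂ) * 2 = n * (n - 1) := by
    rcases Nat.eq_zero_or_pos n with rfl | hn
    · simp
    · have := congrArg (fun k : ℕ => (k : ℂ)) h2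
      push_cast [Nat.cast_sub hn] at this
      exact this
  linear_combination (1 / 2 : ℂ) * h3

section general

variable {n : ℕ} {t : CType} {S : Set (PosRoot n)}

/-- The antisymmetric matrix with given entries above the diagonal. -/
noncomputable def am (c : Prs n → ℂ) (i j : Fin n) : ℂ :=
  if h : i < j then c ⟨(i, j), h⟩ else if h : j < i then -c ⟨(j, i), h⟩ else 0

theorem am_anti (c : Prs n → ℂ) (i j : Fin n) : am c j i = - am c i j := by
  unfold am
  rcases lt_trichotomy i j with h | h | h
  · rw [dif_neg (lt_asymm h), dif_pos h, dif_pos h]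
  · subst h
    simp
  · rw [dif_pos h, dif_neg (lt_asymm h), dif_pos h, neg_neg]

theorem am_lt (c : Prs n → ℂ) {i j : Fin n} (h : i < j) : am c i j = c ⟨(i, j), h⟩ :=
  dif_pos h

theorem am_add (c d : Prs n → ℂ) (i j : Fin n) : am (c + d) i j = am c i j + am d i j := by
  unfold am
  split_ifs
  · rfl
  · simp only [Pi.add_apply]
    ring
  · simp

theorem am_smul (a : ℂ) (c : Prs n → ℂ) (i j : Fin n) : am (a • c) i j = a * am c i j := by
  unfold am
  split_ifs
  · rfl
  · simp only [Pi.smul_apply, smul_eq_mul]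
    ring
  · simp

/-- A constant spline of degree one. -/
noncomputable def cl (f : Fin n → ℂ) : SplinePart t S 1 :=
  ⟨fun _ => ∑ j, X j * C (f j), fun α _ w => by simp, fun _ =>
    IsHomogeneous.sum _ _ _ fun j _ => by
      have := (isHomogeneous_X ℂ j).mul (isHomogeneous_C (Fin n) (f j))
      exact this⟩

theorem cl_val (f : Fin n → ℂ) (w : SignedPerm n) :
    (cl f : SplinePart t S 1).1 w = ∑ j, X j * C (f j) := rfl

theorem eval_lin (f : Fin n → ℂ) (x : Fin n → ℂ) :
    eval x (∑ j, X j * C (f j) : MvPolynomial (Fin n) ℂ) = ∑ j, x j * f j := by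
  simp

/-- The elements of the kernel of the multiplication map. -/
noncomputable def io3 : (Prs n → ℂ) →ₗ[ℂ] (Fin n → SplinePart t S 1) where
  toFun c i := cl (am c i)
  map_add' c d := by
    funext i
    apply Subtype.ext
    funext w
    apply MvPolynomial.funext
    intro x
    show eval x (∑ j, X j * C (am (c + d) i j)) =
      eval x ((∑ j, X j * C (am c i j)) + ∑ j, X j * C (am d i j))
    rw [map_add, eval_lin, eval_lin, eval_lin, ← Finset.sum_add_distrib]
    refine Finset.sum_congr rfl fun j _ => ?_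
    rw [am_add]
    ring
  map_smul' a c := by
    funext i
    apply Subtype.ext
    funext w
    apply MvPolynomial.funext
    intro x
    show eval x (∑ j, X j * C (am (a • c) i j)) = eval x (a • ∑ j, X j * C (am c i j))
    rw [smul_eval, eval_lin, eval_lin, Finset.mul_sum]
    refine Finset.sum_congr rfl fun j _ => ?_
    rw [am_smul]
    ring

theorem io3_val (c : Prs n → ℂ) (i : Fin n) (w : SignedPerm n) :
    (io3 c i : SplinePart t S 1).1 w = ∑ j, X j * C (am c i j) := rfl

theorem io3_inj : Function.Injective (io3 : (Prs n → ℂ) →ₗ[ℂ] (Fin n → SplinePart t S 1)) := by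
  intro c d h
  funext ⟨⟨i, j⟩, hij⟩
  have h1 : (io3 c i : SplinePart t S 1).1 1 = (io3 d i : SplinePart t S 1).1 1 := by rw [h]
  rw [io3_val, io3_val] at h1
  have h2 := congrArg (eval (Pi.single j 1)) h1
  rw [eval_lin, eval_lin] at h2
  simp only [Pi.single_apply, ite_mul, one_mul, zero_mul, Finset.sum_ite_eq', Finset.mem_univ,
    if_true] at h2
  rw [am_lt c hij, am_lt d hij] at h2
  exact h2

theorem mu_io3 (c : Prs n → ℂ) : mu 1 (io3 c : Fin n → SplinePart t S 1) = 0 := by
  apply Subtype.ext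
  apply Subtype.ext
  funext w
  rw [mu_val, muV_apply]
  show ∑ i, X i * (io3 c i : SplinePart t S 1).1 w = (0 : MvPolynomial (Fin n) ℂ)
  apply MvPolynomial.funext
  intro x
  simp only [io3_val]
  rw [map_sum, map_zero]
  simp only [map_mul, eval_X, eval_lin]
  simp only [Finset.mul_sum]
  have h1 : ∑ i, ∑ j, x i * (x j * am c i j) = - ∑ i, ∑ j, x i * (x j * am c i j) := by
    conv_lhs => rw [Finset.sum_comm]
    rw [← Finset.sum_neg_distrib]
    refine Finset.sum_congr rfl fun j _ => ?_
    rw [← Finset.sum_neg_distrib]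
    refine Finset.sum_congr rfl fun i _ => ?_
    rw [am_anti c j i]
    ring
  linear_combination (1 / 2 : ℂ) * h1

/-- Relations between the variables with linear coefficients are antisymmetric. -/
theorem anti_of_zero (a : Fin n → Fin n → ℂ)
    (h : ∀ x : Fin n → ℂ, ∑ i, ∑ j, x i * (x j * a i j) = 0) (k l : Fin n) :
    a l k = - a k l := by
  have key : ∀ k l : Fin n, ∑ i, ∑ j, (Pi.single k 1 : Fin n → ℂ) i *
      ((Pi.single l 1 : Fin n → ℂ) j * a i j) = a k l := by
    intro k l
    simp [Pi.single_apply]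
  have h1 := h (Pi.single k 1 + Pi.single l 1)
  have h2 := h (Pi.single k 1)
  have h3 := h (Pi.single l 1)
  simp only [Pi.add_apply, add_mul, mul_add, Finset.sum_add_distrib] at h1
  rw [key] at h2 h3
  rw [key, key, key, key, h2, h3] at h1
  linear_combination h1

/-- The elements of the kernel of the multiplication map satisfy all equalities
`h(w) = h(w s_α)`. -/
theorem ker_inv (h : Fin n → SplinePart t S 1) (hh : mu 1 h = 0) {α : PosRoot n} (hα : α ∈ S)
    (w : SignedPerm n) (i : Fin n) : (h i).1 (w * α.refl) = (h i).1 w := by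
  have h0 : ∀ v, ∑ i, X i * (h i).1 v = 0 := by
    intro v
    rw [← muV_apply, ← mu_val, hh]
    rfl
  set lam := act w (root t α) with hlam
  have hlam0 : lam ≠ 0 := by
    intro h'
    apply root_ne t α
    have := congrArg (act w⁻¹) h'
    rw [hlam, ← act_mul, inv_mul_cancel, act_one, map_zero] at this
    exact this
  have h1 : ∀ i, ∃ c : ℂ, (h i).1 w - (h i).1 (w * α.refl) = lam * C c := by
    intro i
    obtain ⟨q, hq⟩ := (h i).2.1 α hα w
    refine ⟨coeff 0 q, ?_⟩
    have h2 : homogeneousComponent 1 ((h i).1 w - (h i).1 (w * α.refl)) =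
        (h i).1 w - (h i).1 (w * α.refl) :=
      homogeneousComponent_eq_self (((h i).2.2 w).sub ((h i).2.2 _))
    rw [← h2, hq, hc_mul (act_homog w (root_homog t α)), if_pos le_rfl, Nat.sub_self,
      homogeneousComponent_zero]
  choose c hc using h1
  have h2 : lam * ∑ i, X i * C (c i) = 0 := by
    have : ∑ i, X i * ((h i).1 w - (h i).1 (w * α.refl)) = 0 := by
      simp only [mul_sub, Finset.sum_sub_distrib]
      rw [h0, h0, sub_zero]
    rw [← this, Finset.mul_sum]
    refine Finset.sum_congr rfl fun i _ => ?_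
    rw [hc]
    ring
  rcases mul_eq_zero.1 h2 with h3 | h3
  · exact absurd h3 hlam0
  · have h4 := congrArg (eval (Pi.single i 1)) h3
    rw [eval_lin, map_zero] at h4
    simp only [Pi.single_apply, ite_mul, one_mul, zero_mul, Finset.sum_ite_eq', Finset.mem_univ,
      if_true] at h4
    have h5 := hc i
    rw [h4, C_0, mul_zero, sub_eq_zero] at h5
    exact h5.symm

end general

section main

variable {m : ℕ} {t : CType}

theorem ker_const (h : Fin (m + 2) → SplinePart t (SS m) 1) (hh : mu 1 h = 0)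
    (w w' : SignedPerm (m + 2)) (i : Fin (m + 2)) : (h i).1 w = (h i).1 w' := by
  obtain ⟨f, hf⟩ : ∃ f : SignedPerm (m + 2) → MvPolynomial (Fin (m + 2)) ℂ,
    ∀ w, f w = (h i).1 w := ⟨_, fun w => rfl⟩
  rw [← hf, ← hf]
  apply const_of_inv (zz : Fin (m + 2))
  · intro j k hjk w
    have hlt : j < k := by
      rw [Fin.lt_def]
      omega
    rw [hf, hf, ← diff_refl j k hlt]
    exact ker_inv h hh hjk w i
  · intro w
    rw [hf, hf, ← long_refl]
    exact ker_inv h hh (show m ≤ ((zz : Fin (m + 2)) : ℕ) by simp [zz]) w i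

theorem ker_exact (h : Fin (m + 2) → SplinePart t (SS m) 1) (hh : mu 1 h = 0) :
    ∃ c, io3 c = h := by
  choose a ha using fun i => lin_eq ((h i).2.2 1)
  have h0 : ∀ x : Fin (m + 2) → ℂ, ∑ i, ∑ j, x i * (x j * a i j) = 0 := by
    intro x
    have h1 : ∑ i, X i * (h i).1 1 = 0 := by
      rw [← muV_apply, ← mu_val, hh]
      rfl
    have h2 := congrArg (eval x) h1
    rw [map_sum, map_zero] at h2
    rw [← h2]
    refine Finset.sum_congr rfl fun i _ => ?_
    rw [map_mul, eval_X, ha, eval_lin, Finset.mul_sum]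
  have hanti := anti_of_zero a h0
  refine ⟨fun p => a p.1.1 p.1.2, ?_⟩
  funext i
  apply Subtype.ext
  funext w
  rw [io3_val]
  show _ = (h i).1 w
  rw [ker_const h hh w 1, ha]
  refine Finset.sum_congr rfl fun j _ => ?_
  congr 2
  unfold am
  rcases lt_trichotomy i j with hij | hij | hij
  · rw [dif_pos hij]
  · subst hij
    rw [dif_neg (lt_irrefl _), dif_neg (lt_irrefl _)]
    have := hanti i i
    linear_combination (-1 / 2 : ℂ) * this
  · rw [dif_neg (lt_asymm hij), dif_pos hij]
    exact (hanti j i).symm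

/-- The action of `-1` on tuples. -/
noncomputable def TT : (Fin (m + 2) → SplinePart t (SS m) 1) →ₗ[ℂ]
    (Fin (m + 2) → SplinePart t (SS m) 1) :=
  LinearMap.pi fun i => (-dotPart t (SS m) 1 (negOne (m + 2))) ∘ₗ LinearMap.proj i

theorem TT_apply (h : Fin (m + 2) → SplinePart t (SS m) 1) (i : Fin (m + 2)) :
    TT h i = (-dotPart t (SS m) 1 (negOne (m + 2))) (h i) := rfl

theorem TT_val (h : Fin (m + 2) → SplinePart t (SS m) 1) (i : Fin (m + 2))
    (w : SignedPerm (m + 2)) : (TT h i).1 w = (h i).1 (negOne (m + 2) * w) := by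
  show -(act (negOne (m + 2)) ((h i).1 ((negOne (m + 2))⁻¹ * w))) = _
  rw [negOne_inv, act_negOne ((h i).2.2 _)]
  simp

theorem TT_io3 (c : Prs (m + 2) → ℂ) :
    TT (io3 c : Fin (m + 2) → SplinePart t (SS m) 1) = io3 (LinearMap.id (R := ℂ) c) := by
  funext i
  apply Subtype.ext
  funext w
  rw [TT_val, io3_val, io3_val]
  rfl

/-- The action of `-1` on the ideal. -/
noncomputable def dI (t : CType) (m : ℕ) :
    idealPart t (SS m) 2 →ₗ[ℂ] idealPart t (SS m) 2 :=
  LinearMap.restrict (dotPart t (SS m) 2 (negOne (m + 2)))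
    (dotPart_ideal t (SS m) 2 (negOne (m + 2)))

theorem dI_val (ρ : idealPart t (SS m) 2) :
    (dI t m ρ).1 = dotPart t (SS m) 2 (negOne (m + 2)) ρ.1 := rfl

theorem dot2_val (ρ : SplinePart t (SS m) 2) (w : SignedPerm (m + 2)) :
    (dotPart t (SS m) 2 (negOne (m + 2)) ρ).1 w = ρ.1 (negOne (m + 2) * w) := by
  show act (negOne (m + 2)) (ρ.1 ((negOne (m + 2))⁻¹ * w)) = _
  rw [negOne_inv, act_negOne (ρ.2.2 _)]
  simp

theorem mu_TT (h : Fin (m + 2) → SplinePart t (SS m) 1) : mu 1 (TT h) = dI t m (mu 1 h) := by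
  apply Subtype.ext
  apply Subtype.ext
  funext w
  rw [dI_val, mu_val, mu_val, muV_apply]
  have := dot2_val (muV 1 h) w
  rw [muV_apply] at this
  refine Eq.trans ?_ this.symm
  refine Finset.sum_congr rfl fun i _ => ?_
  rw [TT_val]

instance finite_ideal : Module.Finite ℂ (idealPart t (SS m) 2) :=
  inferInstance

theorem trace_ideal : LinearMap.trace ℂ (idealPart t (SS m) 2) (dI t m) =
    (m + 2) * m - (m + 2) * (m + 1) / 2 := by
  have h1 := trace_exact (io3 : (Prs (m + 2) → ℂ) →ₗ[ℂ] (Fin (m + 2) → SplinePart t (SS m) 1))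
    (mu 1) io3_inj (mu_surj 1) mu_io3 ker_exact LinearMap.id TT (dI t m) TT_io3 mu_TT
  have h2 : LinearMap.trace ℂ _ (TT : (Fin (m + 2) → SplinePart t (SS m) 1) →ₗ[ℂ] _) =
      (m + 2) * m := by
    rw [trace_pi (-dotPart t (SS m) 1 (negOne (m + 2))) TT TT_apply, map_neg, trace_dotPart,
      trace_deg1]
    push_cast
    ring
  have h3 : LinearMap.trace ℂ (Prs (m + 2) → ℂ) LinearMap.id = (m + 2) * (m + 1) / 2 := by
    rw [LinearMap.trace_id, Module.finrank_fintype_fun_eq_card, card_Prs]
    push_cast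
    ring
  rw [h2, h3] at h1
  linear_combination -h1

/-- The character of the degree two part of the left quotient at `-1`. -/
theorem leftChar_negOne : leftChar t (SS m) 2 (negOne (m + 2)) =
    (4 - (m : ℂ) - m ^ 2) / 2 := by
  have h1 := trace_exact (idealPart t (SS m) 2).subtype (idealPart t (SS m) 2).mkQ
    (Submodule.subtype_injective _) (Submodule.mkQ_surjective _)
    (fun a => by simp) (fun b hb => ⟨⟨b, by simpa using hb⟩, rfl⟩) (dI t m)
    (dotPart t (SS m) 2 (negOne (m + 2))) (dotQuotient t (SS m) 2 (negOne (m + 2)))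
    (fun a => rfl) (fun b => rfl)
  rw [trace_dotPart, trace_deg2, trace_ideal] at h1
  have h2 : leftChar t (SS m) 2 (negOne (m + 2)) =
    LinearMap.trace ℂ (SplinePart t (SS m) 2 ⧸ idealPart t (SS m) 2)
    (dotQuotient t (SS m) 2 (negOne (m + 2))) := rfl
  rw [h2]
  linear_combination -h1

end main

end Pool.Agent.KS6_96.He
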