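import Pool.Agent.KS6_96.He.LQ

namespace Pool.Agent.KS6_96.He.Lib

open MvPolynomial

noncomputable def cA (p : MvPolynomial (Fin 3) ℂ) : ℂ := eval ![1, 0, 0] p
noncomputable def cB (p : MvPolynomial (Fin 3) ℂ) : ℂ := eval ![0, 1, 0] p
noncomputable def cC (p : MvPolynomial (Fin 3) ℂ) : ℂ := eval ![0, 0, 1] p
noncomputable def cD (p : MvPolynomial (Fin 3) ℂ) : ℂ := eval ![1, 1, 0] p - cA p - cB p
noncomputable def cE (p : MvPolynomial (Fin 3) ℂ) : ℂ := eval ![1, 0, 1] p - cA p - cC p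
noncomputable def cF (p : MvPolynomial (Fin 3) ℂ) : ℂ := eval ![0, 1, 1] p - cB p - cC p

theorem quad_eq {p : MvPolynomial (Fin 3) ℂ} (hp : p.IsHomogeneous 2) :
    p = Q6 (cA p) (cB p) (cC p) (cD p) (cE p) (cF p) := by
  obtain ⟨a, b, c, d, e, f, h⟩ := quad_form hp
  have ha : cA p = a := by rw [h, cA, eval_Q6]; simp
  have hb : cB p = b := by rw [h, cB, eval_Q6]; simp
  have hc : cC p = c := by rw [h, cC, eval_Q6]; simp
  have hd : cD p = d := by rw [cD, ha, hb, h, eval_Q6]; simp; ring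
  have he : cE p = e := by rw [cE, ha, hc, h, eval_Q6]; simp; ring
  have hf : cF p = f := by rw [cF, hb, hc, h, eval_Q6]; simp; ring
  rw [ha, hb, hc, hd, he, hf]
  exact h

theorem quad_eval {p : MvPolynomial (Fin 3) ℂ} (hp : p.IsHomogeneous 2) (x : Fin 3 → ℂ) :
    eval x p = cA p * x 0 ^ 2 + cB p * x 1 ^ 2 + cC p * x 2 ^ 2 + cD p * (x 0 * x 1) +
      cE p * (x 0 * x 2) + cF p * (x 1 * x 2) := by
  rw [← eval_Q6]
  exact congrArg (eval x) (quad_eq hp)

theorem lin_eq {p : MvPolynomial (Fin 3) ℂ} (hp : p.IsHomogeneous 1) :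
    p = L3 (cA p) (cB p) (cC p) := by
  obtain ⟨a, b, c, h⟩ := lin_form hp
  have ha : cA p = a := by rw [h, cA, eval_L3]; simp
  have hb : cB p = b := by rw [h, cB, eval_L3]; simp
  have hc : cC p = c := by rw [h, cC, eval_L3]; simp
  rw [ha, hb, hc]
  exact h

theorem lin_eval {p : MvPolynomial (Fin 3) ℂ} (hp : p.IsHomogeneous 1) (x : Fin 3 → ℂ) :
    eval x p = cA p * x 0 + cB p * x 1 + cC p * x 2 := by
  rw [← eval_L3]
  exact congrArg (eval x) (lin_eq hp)

section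
variable {ρ : SignedPerm 3 → MvPolynomial (Fin 3) ℂ} (hρ : ρ ∈ splineRing S0)
  (hev : ∀ v, PP ρ (negOne 3 * v) = PP ρ v)
include hρ hev

theorem rel_b (σ i) {x : Fin 3 → ℂ} (hx : x 0 = x 2) :
    eval x (PP ρ (VV (σ * Equiv.swap 0 2) (pb i))) = eval x (PP ρ (VV σ i)) := by
  rw [← step_b hev σ i, ← PP_eval hρ (by simp [S0]) _ (by simp [PosRoot.form, hx])]

theorem rel_b' (σ i) {x : Fin 3 → ℂ} (hx : x 2 = - x 0) :
    eval x (PP ρ (VV (σ * Equiv.swap 0 2) (pb' i))) = eval x (PP ρ (VV σ i)) := by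
  rw [← step_b' hev σ i, ← PP_eval hρ (by simp [S0]) _ (by simp [PosRoot.form, hx])]

theorem rel_c (σ i) {x : Fin 3 → ℂ} (hx : x 1 = x 2) :
    eval x (PP ρ (VV (σ * Equiv.swap 1 2) (pc i))) = eval x (PP ρ (VV σ i)) := by
  rw [← step_c hev σ i, ← PP_eval hρ (by simp [S0]) _ (by simp [PosRoot.form, hx])]

theorem rel_c' (σ i) {x : Fin 3 → ℂ} (hx : x 2 = - x 1) :
    eval x (PP ρ (VV (σ * Equiv.swap 1 2) (pc' i))) = eval x (PP ρ (VV σ i)) := by
  rw [← step_c' hev σ i, ← PP_eval hρ (by simp [S0]) _ (by simp [PosRoot.form, hx])]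

theorem rel_a (σ i) {x : Fin 3 → ℂ} (hx : x 0 = x 1) :
    eval x (PP ρ (VV (σ * Equiv.swap 0 1) (pa i))) = eval x (PP ρ (VV σ i)) := by
  rw [← step_a hev σ i, ← PP_eval hρ (by simp [S0]) _ (by simp [PosRoot.form, hx])]

theorem rel_t (σ i) {x : Fin 3 → ℂ} (hx : x 2 = 0) :
    eval x (PP ρ (VV σ (pt i))) = eval x (PP ρ (VV σ i)) := by
  rw [← step_t hev σ i, ← PP_eval hρ (by simp [S0]) _ (by simp [PosRoot.form, hx])]

end

noncomputable def toQ {ρ : SignedPerm 3 → MvPolynomial (Fin 3) ℂ} (hρ : ρ ∈ splineRing S0)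
    (hev : ∀ v, PP ρ (negOne 3 * v) = PP ρ v) (hh : ∀ v, (PP ρ v).IsHomogeneous 2) : QData where
  A σ i := cA (PP ρ (VV σ i))
  B σ i := cB (PP ρ (VV σ i))
  C σ i := cC (PP ρ (VV σ i))
  D σ i := cD (PP ρ (VV σ i))
  E σ i := cE (PP ρ (VV σ i))
  F σ i := cF (PP ρ (VV σ i))
  b1 σ i := by
    have h1 := rel_b hρ hev σ i (x := ![1, 0, 1]) (by simp)
    rw [quad_eval (hh _), quad_eval (hh _)] at h1
    simp at h1
    linear_combination h1
  b2 σ i := by
    have h1 := rel_b hρ hev σ i (x := ![0, 1, 0]) (by simp)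
    exact h1
  b3 σ i := by
    have h1 := rel_b hρ hev σ i (x := ![1, 0, 1]) (by simp)
    have h2 := rel_b hρ hev σ i (x := ![0, 1, 0]) (by simp)
    have h3 := rel_b hρ hev σ i (x := ![1, 1, 1]) (by simp)
    rw [quad_eval (hh _), quad_eval (hh _)] at h1 h2 h3
    simp at h1 h2 h3
    linear_combination h3 - h1 - h2
  b1' σ i := by
    have h1 := rel_b' hρ hev σ i (x := ![1, 0, -1]) (by simp)
    rw [quad_eval (hh _), quad_eval (hh _)] at h1
    simp at h1
    linear_combination h1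
  b2' σ i := by
    have h1 := rel_b' hρ hev σ i (x := ![0, 1, 0]) (by simp)
    exact h1
  b3' σ i := by
    have h1 := rel_b' hρ hev σ i (x := ![1, 0, -1]) (by simp)
    have h2 := rel_b' hρ hev σ i (x := ![0, 1, 0]) (by simp)
    have h3 := rel_b' hρ hev σ i (x := ![1, 1, -1]) (by simp)
    rw [quad_eval (hh _), quad_eval (hh _)] at h1 h2 h3
    simp at h1 h2 h3
    linear_combination h3 - h1 - h2
  c1 σ i := by
    have h1 := rel_c hρ hev σ i (x := ![1, 0, 0]) (by simp)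
    exact h1
  c2 σ i := by
    have h1 := rel_c hρ hev σ i (x := ![0, 1, 1]) (by simp)
    rw [quad_eval (hh _), quad_eval (hh _)] at h1
    simp at h1
    linear_combination h1
  c3 σ i := by
    have h1 := rel_c hρ hev σ i (x := ![0, 1, 1]) (by simp)
    have h2 := rel_c hρ hev σ i (x := ![1, 0, 0]) (by simp)
    have h3 := rel_c hρ hev σ i (x := ![1, 1, 1]) (by simp)
    rw [quad_eval (hh _), quad_eval (hh _)] at h1 h2 h3
    simp at h1 h2 h3
    linear_combination h3 - h1 - h2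
  c1' σ i := by
    have h1 := rel_c' hρ hev σ i (x := ![1, 0, 0]) (by simp)
    exact h1
  c2' σ i := by
    have h1 := rel_c' hρ hev σ i (x := ![0, 1, -1]) (by simp)
    rw [quad_eval (hh _), quad_eval (hh _)] at h1
    simp at h1
    linear_combination h1
  c3' σ i := by
    have h1 := rel_c' hρ hev σ i (x := ![0, 1, -1]) (by simp)
    have h2 := rel_c' hρ hev σ i (x := ![1, 0, 0]) (by simp)
    have h3 := rel_c' hρ hev σ i (x := ![1, 1, -1]) (by simp)
    rw [quad_eval (hh _), quad_eval (hh _)] at h1 h2 h3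
    simp at h1 h2 h3
    linear_combination h3 - h1 - h2
  a1 σ i := by
    have h1 := rel_a hρ hev σ i (x := ![1, 1, 0]) (by simp)
    rw [quad_eval (hh _), quad_eval (hh _)] at h1
    simp at h1
    linear_combination h1
  a2 σ i := by
    have h1 := rel_a hρ hev σ i (x := ![0, 0, 1]) (by simp)
    exact h1
  a3 σ i := by
    have h1 := rel_a hρ hev σ i (x := ![1, 1, 0]) (by simp)
    have h2 := rel_a hρ hev σ i (x := ![0, 0, 1]) (by simp)
    have h3 := rel_a hρ hev σ i (x := ![1, 1, 1]) (by simp)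
    rw [quad_eval (hh _), quad_eval (hh _)] at h1 h2 h3
    simp at h1 h2 h3
    linear_combination h3 - h1 - h2
  t1 σ i := by
    have h1 := rel_t hρ hev σ i (x := ![1, 0, 0]) (by simp)
    exact h1
  t2 σ i := by
    have h1 := rel_t hρ hev σ i (x := ![0, 1, 0]) (by simp)
    exact h1
  t3 σ i := by
    have h1 := rel_t hρ hev σ i (x := ![1, 1, 0]) (by simp)
    have h2 := rel_t hρ hev σ i (x := ![1, 0, 0]) (by simp)
    have h3 := rel_t hρ hev σ i (x := ![0, 1, 0]) (by simp)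
    rw [quad_eval (hh _), quad_eval (hh _)] at h1 h2 h3
    simp at h1 h2 h3
    linear_combination h1 - h2 - h3

end Pool.Agent.KS6_96.He.Lib
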