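import Pool.Agent.KS6_96.He.LThree

namespace Pool.Agent.KS6_96.He.Lib

theorem four {p : Fin 4 → Prop} (h : ∀ i, p i) : p 0 ∧ p 1 ∧ p 2 ∧ p 3 :=
  ⟨h 0, h 1, h 2, h 3⟩

theorem pb0 : pb 0 = 0 := rfl
theorem pb1 : pb 1 = 3 := rfl
theorem pb2 : pb 2 = 2 := rfl
theorem pb3 : pb 3 = 1 := rfl
theorem pb'0 : pb' 0 = 2 := rfl
theorem pb'1 : pb' 1 = 1 := rfl
theorem pb'2 : pb' 2 = 0 := rfl
theorem pb'3 : pb' 3 = 3 := rfl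
theorem pc0 : pc 0 = 0 := rfl
theorem pc1 : pc 1 = 1 := rfl
theorem pc2 : pc 2 = 3 := rfl
theorem pc3 : pc 3 = 2 := rfl
theorem pc'0 : pc' 0 = 1 := rfl
theorem pc'1 : pc' 1 = 0 := rfl
theorem pc'2 : pc' 2 = 2 := rfl
theorem pc'3 : pc' 3 = 3 := rfl
theorem pa0 : pa 0 = 0 := rfl
theorem pa1 : pa 1 = 2 := rfl
theorem pa2 : pa 2 = 1 := rfl
theorem pa3 : pa 3 = 3 := rfl
theorem pt0 : pt 0 = 3 := rfl
theorem pt1 : pt 1 = 2 := rfl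
theorem pt2 : pt 2 = 1 := rfl
theorem pt3 : pt 3 = 0 := rfl

namespace QData

variable (q : QData) (σ : Equiv.Perm (Fin 3))

theorem A_all : q.A σ 1 = q.A σ 0 ∧ q.A σ 2 = q.A σ 0 ∧ q.A σ 3 = q.A σ 0 ∧
    q.A (σ * Equiv.swap 1 2) 0 = q.A σ 0 := by
  obtain ⟨h0, h1, h2, h3⟩ := four (q.c1 σ)
  obtain ⟨k0, k1, k2, k3⟩ := four (q.c1' σ)
  obtain ⟨t0, t1, t2, t3⟩ := four (q.t1 σ)
  obtain ⟨s0, s1, s2, s3⟩ := four (q.t1 (σ * Equiv.swap 1 2))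
  simp only [pc0, pc1, pc2, pc3, pc'0, pc'1, pc'2, pc'3, pt0, pt1, pt2, pt3] at *
  grind

theorem B_all : q.B σ 1 = q.B σ 0 ∧ q.B σ 2 = q.B σ 0 ∧ q.B σ 3 = q.B σ 0 ∧
    q.B (σ * Equiv.swap 0 2) 0 = q.B σ 0 := by
  obtain ⟨h0, h1, h2, h3⟩ := four (q.b2 σ)
  obtain ⟨k0, k1, k2, k3⟩ := four (q.b2' σ)
  obtain ⟨t0, t1, t2, t3⟩ := four (q.t2 σ)
  obtain ⟨s0, s1, s2, s3⟩ := four (q.t2 (σ * Equiv.swap 0 2))
  simp only [pb0, pb1, pb2, pb3, pb'0, pb'1, pb'2, pb'3, pt0, pt1, pt2, pt3] at *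
  grind

theorem D_all : q.D σ 3 = q.D σ 0 ∧ q.D σ 2 = q.D σ 1 := by
  obtain ⟨t0, t1, t2, t3⟩ := four (q.t3 σ)
  simp only [pt0, pt1, pt2, pt3] at *
  grind

/-- consequences of `b`, `b'` for `D`, `F` -/
theorem bDF : q.F σ 0 - q.F σ 1 - q.F σ 2 + q.F σ 3 = 0 ∧
    q.F σ 0 + q.F σ 1 - q.F σ 2 - q.F σ 3 =
      2 * (q.D (σ * Equiv.swap 0 2) 0 - q.D (σ * Equiv.swap 0 2) 1) ∧
    q.D (σ * Equiv.swap 0 2) 0 + q.D (σ * Equiv.swap 0 2) 1 = q.D σ 0 + q.D σ 1 ∧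
    q.F (σ * Equiv.swap 0 2) 0 + q.F (σ * Equiv.swap 0 2) 1 + q.F (σ * Equiv.swap 0 2) 2 +
      q.F (σ * Equiv.swap 0 2) 3 = q.F σ 0 + q.F σ 1 + q.F σ 2 + q.F σ 3 := by
  obtain ⟨h0, h1, h2, h3⟩ := four (q.b3 σ)
  obtain ⟨k0, k1, k2, k3⟩ := four (q.b3' σ)
  obtain ⟨t0, t1⟩ := q.D_all σ
  obtain ⟨s0, s1⟩ := q.D_all (σ * Equiv.swap 0 2)
  simp only [pb0, pb1, pb2, pb3, pb'0, pb'1, pb'2, pb'3] at *
  grind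

/-- consequences of `c`, `c'` for `D`, `E` -/
theorem cDE : q.E σ 0 - q.E σ 1 - q.E σ 2 + q.E σ 3 = 0 ∧
    q.E σ 0 - q.E σ 1 + q.E σ 2 - q.E σ 3 =
      2 * (q.D (σ * Equiv.swap 1 2) 0 - q.D (σ * Equiv.swap 1 2) 1) ∧
    q.D (σ * Equiv.swap 1 2) 0 + q.D (σ * Equiv.swap 1 2) 1 = q.D σ 0 + q.D σ 1 ∧
    q.E (σ * Equiv.swap 1 2) 0 + q.E (σ * Equiv.swap 1 2) 1 + q.E (σ * Equiv.swap 1 2) 2 +
      q.E (σ * Equiv.swap 1 2) 3 = q.E σ 0 + q.E σ 1 + q.E σ 2 + q.E σ 3 := by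
  obtain ⟨h0, h1, h2, h3⟩ := four (q.c3 σ)
  obtain ⟨k0, k1, k2, k3⟩ := four (q.c3' σ)
  obtain ⟨t0, t1⟩ := q.D_all σ
  obtain ⟨s0, s1⟩ := q.D_all (σ * Equiv.swap 1 2)
  simp only [pc0, pc1, pc2, pc3, pc'0, pc'1, pc'2, pc'3] at *
  grind

/-- consequences of `b`, `b'` for `A`, `C`, `E` -/
theorem bACE : q.C σ 0 + q.C σ 1 - q.C σ 2 - q.C σ 3 = 0 ∧
    q.E σ 0 + q.E σ 1 - q.E σ 2 - q.E σ 3 =
      q.C (σ * Equiv.swap 0 2) 0 - q.C (σ * Equiv.swap 0 2) 1 - q.C (σ * Equiv.swap 0 2) 2 +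
        q.C (σ * Equiv.swap 0 2) 3 ∧
    4 * q.A (σ * Equiv.swap 0 2) 0 + q.C (σ * Equiv.swap 0 2) 0 + q.C (σ * Equiv.swap 0 2) 1 +
      q.C (σ * Equiv.swap 0 2) 2 + q.C (σ * Equiv.swap 0 2) 3 =
      4 * q.A σ 0 + q.C σ 0 + q.C σ 1 + q.C σ 2 + q.C σ 3 ∧
    q.E (σ * Equiv.swap 0 2) 0 + q.E (σ * Equiv.swap 0 2) 1 + q.E (σ * Equiv.swap 0 2) 2 +
      q.E (σ * Equiv.swap 0 2) 3 = q.E σ 0 + q.E σ 1 + q.E σ 2 + q.E σ 3 := by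
  obtain ⟨h0, h1, h2, h3⟩ := four (q.b1 σ)
  obtain ⟨k0, k1, k2, k3⟩ := four (q.b1' σ)
  obtain ⟨t1, t2, t3, -⟩ := q.A_all σ
  obtain ⟨s1, s2, s3, -⟩ := q.A_all (σ * Equiv.swap 0 2)
  obtain ⟨e1, -⟩ := q.cDE σ
  obtain ⟨e2, -⟩ := q.cDE (σ * Equiv.swap 0 2)
  simp only [pb0, pb1, pb2, pb3, pb'0, pb'1, pb'2, pb'3] at *
  grind

/-- consequences of `c`, `c'` for `B`, `C`, `F` -/
theorem cBCF : q.C σ 0 - q.C σ 1 + q.C σ 2 - q.C σ 3 = 0 ∧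
    q.F σ 0 - q.F σ 1 + q.F σ 2 - q.F σ 3 =
      q.C (σ * Equiv.swap 1 2) 0 - q.C (σ * Equiv.swap 1 2) 1 - q.C (σ * Equiv.swap 1 2) 2 +
        q.C (σ * Equiv.swap 1 2) 3 ∧
    q.F (σ * Equiv.swap 1 2) 0 + q.F (σ * Equiv.swap 1 2) 1 + q.F (σ * Equiv.swap 1 2) 2 +
      q.F (σ * Equiv.swap 1 2) 3 = q.F σ 0 + q.F σ 1 + q.F σ 2 + q.F σ 3 := by
  obtain ⟨h0, h1, h2, h3⟩ := four (q.c2 σ)
  obtain ⟨k0, k1, k2, k3⟩ := four (q.c2' σ)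
  obtain ⟨t1, t2, t3, -⟩ := q.B_all σ
  obtain ⟨s1, s2, s3, -⟩ := q.B_all (σ * Equiv.swap 1 2)
  obtain ⟨e1, -⟩ := q.bDF σ
  obtain ⟨e2, -⟩ := q.bDF (σ * Equiv.swap 1 2)
  simp only [pc0, pc1, pc2, pc3, pc'0, pc'1, pc'2, pc'3] at *
  grind

theorem C_all : q.C σ 3 = q.C σ 0 ∧ q.C σ 2 = q.C σ 1 := by
  obtain ⟨e1, -⟩ := q.bACE σ
  obtain ⟨e2, -⟩ := q.cBCF σ
  grind

/-- consequences of `a` -/
theorem aAll : q.C (σ * Equiv.swap 0 1) 0 = q.C σ 0 ∧ q.C (σ * Equiv.swap 0 1) 1 = q.C σ 1 ∧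
    q.D (σ * Equiv.swap 0 1) 0 - q.D (σ * Equiv.swap 0 1) 1 = q.D σ 0 - q.D σ 1 ∧
    2 * q.A (σ * Equiv.swap 0 1) 0 + 2 * q.B (σ * Equiv.swap 0 1) 0 +
      q.D (σ * Equiv.swap 0 1) 0 + q.D (σ * Equiv.swap 0 1) 1 =
    2 * q.A σ 0 + 2 * q.B σ 0 + q.D σ 0 + q.D σ 1 := by
  obtain ⟨h0, h1, h2, h3⟩ := four (q.a1 σ)
  obtain ⟨k0, k1, k2, k3⟩ := four (q.a2 σ)
  obtain ⟨a1, a2, a3, -⟩ := q.A_all σ
  obtain ⟨a1', a2', a3', -⟩ := q.A_all (σ * Equiv.swap 0 1)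
  obtain ⟨b1, b2, b3, -⟩ := q.B_all σ
  obtain ⟨b1', b2', b3', -⟩ := q.B_all (σ * Equiv.swap 0 1)
  obtain ⟨c1, c2⟩ := q.C_all σ
  obtain ⟨c1', c2'⟩ := q.C_all (σ * Equiv.swap 0 1)
  obtain ⟨d1, d2⟩ := q.D_all σ
  obtain ⟨d1', d2'⟩ := q.D_all (σ * Equiv.swap 0 1)
  simp only [pa0, pa1, pa2, pa3] at *
  grind

end QData

theorem const_of_bc {f : Equiv.Perm (Fin 3) → ℂ} (hb : ∀ σ, f (σ * Equiv.swap 0 2) = f σ)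
    (hc : ∀ σ, f (σ * Equiv.swap 1 2) = f σ) (σ : Equiv.Perm (Fin 3)) : f σ = f 1 := by
  have key : ∀ σ : Equiv.Perm (Fin 3), σ = 1 ∨ σ = 1 * Equiv.swap 0 2 ∨ σ = 1 * Equiv.swap 1 2 ∨
      σ = 1 * Equiv.swap 0 2 * Equiv.swap 1 2 ∨ σ = 1 * Equiv.swap 1 2 * Equiv.swap 0 2 ∨
      σ = 1 * Equiv.swap 0 2 * Equiv.swap 1 2 * Equiv.swap 0 2 := by decide
  rcases key σ with h | h | h | h | h | h <;> rw [h] <;> simp only [hb, hc]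

theorem inv_c {f : Equiv.Perm (Fin 3) → ℂ} (hc : ∀ σ, f (σ * Equiv.swap 1 2) = f σ)
    (σ : Equiv.Perm (Fin 3)) : f σ = f (Equiv.swap 0 (σ 0)) := by
  have key : ∀ σ : Equiv.Perm (Fin 3), σ = Equiv.swap 0 (σ 0) ∨
      σ = Equiv.swap 0 (σ 0) * Equiv.swap 1 2 := by decide
  rcases key σ with h | h
  · rw [← h]
  · conv_lhs => rw [h]
    rw [hc]

theorem inv_b {f : Equiv.Perm (Fin 3) → ℂ} (hb : ∀ σ, f (σ * Equiv.swap 0 2) = f σ)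
    (σ : Equiv.Perm (Fin 3)) : f σ = f (Equiv.swap 1 (σ 1)) := by
  have key : ∀ σ : Equiv.Perm (Fin 3), σ = Equiv.swap 1 (σ 1) ∨
      σ = Equiv.swap 1 (σ 1) * Equiv.swap 0 2 := by decide
  rcases key σ with h | h
  · rw [← h]
  · conv_lhs => rw [h]
    rw [hb]

theorem inv_a {f : Equiv.Perm (Fin 3) → ℂ} (ha : ∀ σ, f (σ * Equiv.swap 0 1) = f σ)
    (σ : Equiv.Perm (Fin 3)) : f σ = f (Equiv.swap 2 (σ 2)) := by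
  have key : ∀ σ : Equiv.Perm (Fin 3), σ = Equiv.swap 2 (σ 2) ∨
      σ = Equiv.swap 2 (σ 2) * Equiv.swap 0 1 := by decide
  rcases key σ with h | h
  · rw [← h]
  · conv_lhs => rw [h]
    rw [ha]

def chi1 : Fin 4 → ℂ := ![1, 1, -1, -1]
def chi2 : Fin 4 → ℂ := ![1, -1, 1, -1]
def chi3 : Fin 4 → ℂ := ![1, -1, -1, 1]

theorem QData.main (q : QData) : ∃ (lam mu nu : Fin 3 → ℂ) (k1 k2 k3 k4 k5 : ℂ),
    ∀ σ i, q.A σ i = lam (σ 0) ∧ q.B σ i = k1 + lam (σ 1) ∧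
      q.C σ i = k2 + lam (σ 2) + chi3 i * mu (σ 2) ∧
      q.D σ i = k3 + chi3 i * nu (σ 2) ∧
      q.E σ i = k4 + chi2 i * nu (σ 1) + chi1 i * mu (σ 0) ∧
      q.F σ i = k5 + chi1 i * nu (σ 0) + chi2 i * mu (σ 1) := by
  -- the pieces
  have hA : ∀ σ, q.A σ 0 = q.A (Equiv.swap 0 (σ 0)) 0 :=
    inv_c (f := fun σ => q.A σ 0) fun σ => (q.A_all σ).2.2.2
  have hB : ∀ σ, q.B σ 0 = q.B (Equiv.swap 1 (σ 1)) 0 :=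
    inv_b (f := fun σ => q.B σ 0) fun σ => (q.B_all σ).2.2.2
  have hC0 : ∀ σ, q.C σ 0 = q.C (Equiv.swap 2 (σ 2)) 0 :=
    inv_a (f := fun σ => q.C σ 0) fun σ => (q.aAll σ).1
  have hC1 : ∀ σ, q.C σ 1 = q.C (Equiv.swap 2 (σ 2)) 1 :=
    inv_a (f := fun σ => q.C σ 1) fun σ => (q.aAll σ).2.1
  have hD3 : ∀ σ, q.D σ 0 - q.D σ 1 =
      q.D (Equiv.swap 2 (σ 2)) 0 - q.D (Equiv.swap 2 (σ 2)) 1 :=
    inv_a (f := fun σ => q.D σ 0 - q.D σ 1) fun σ => (q.aAll σ).2.2.1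
  have hD0 : ∀ σ, q.D σ 0 + q.D σ 1 = q.D 1 0 + q.D 1 1 :=
    const_of_bc (f := fun σ => q.D σ 0 + q.D σ 1) (fun σ => (q.bDF σ).2.2.1)
      (fun σ => (q.cDE σ).2.2.1)
  have hE : ∀ σ, q.E σ 0 + q.E σ 1 + q.E σ 2 + q.E σ 3 = q.E 1 0 + q.E 1 1 + q.E 1 2 + q.E 1 3 :=
    const_of_bc (f := fun σ => q.E σ 0 + q.E σ 1 + q.E σ 2 + q.E σ 3)
      (fun σ => (q.bACE σ).2.2.2) (fun σ => (q.cDE σ).2.2.2)
  have hF : ∀ σ, q.F σ 0 + q.F σ 1 + q.F σ 2 + q.F σ 3 = q.F 1 0 + q.F 1 1 + q.F 1 2 + q.F 1 3 :=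
    const_of_bc (f := fun σ => q.F σ 0 + q.F σ 1 + q.F σ 2 + q.F σ 3)
      (fun σ => (q.bDF σ).2.2.2) (fun σ => (q.cBCF σ).2.2)
  -- relation between A and B
  have hAB : ∀ σ, 2 * q.A (σ * Equiv.swap 0 1) 0 + 2 * q.B (σ * Equiv.swap 0 1) 0 =
      2 * q.A σ 0 + 2 * q.B σ 0 := by
    intro σ
    have h1 := (q.aAll σ).2.2.2
    have h2 := hD0 σ
    have h3 := hD0 (σ * Equiv.swap 0 1)
    grind
  have hAC : ∀ σ, 2 * q.A (σ * Equiv.swap 0 2) 0 + (q.C (σ * Equiv.swap 0 2) 0 +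
      q.C (σ * Equiv.swap 0 2) 1) = 2 * q.A σ 0 + (q.C σ 0 + q.C σ 1) := by
    intro σ
    have h1 := (q.bACE σ).2.2.1
    obtain ⟨c1, c2⟩ := q.C_all σ
    obtain ⟨c1', c2'⟩ := q.C_all (σ * Equiv.swap 0 2)
    grind
  set lam : Fin 3 → ℂ := fun j => q.A (Equiv.swap 0 j) 0 with hlam
  set beta : Fin 3 → ℂ := fun j => q.B (Equiv.swap 1 j) 0 with hbeta
  set gam : Fin 3 → ℂ := fun j => (q.C (Equiv.swap 2 j) 0 + q.C (Equiv.swap 2 j) 1) / 2 with hgam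
  set mu : Fin 3 → ℂ := fun j => (q.C (Equiv.swap 2 j) 0 - q.C (Equiv.swap 2 j) 1) / 2 with hmu
  set nu : Fin 3 → ℂ := fun j => (q.D (Equiv.swap 2 j) 0 - q.D (Equiv.swap 2 j) 1) / 2 with hnu
  have rA : ∀ σ, q.A σ 0 = lam (σ 0) := hA
  have rB : ∀ σ, q.B σ 0 = beta (σ 1) := hB
  have rC : ∀ σ, q.C σ 0 + q.C σ 1 = 2 * gam (σ 2) := by
    intro σ
    rw [hC0 σ, hC1 σ, hgam]
    ring
  have rC' : ∀ σ, q.C σ 0 - q.C σ 1 = 2 * mu (σ 2) := by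
    intro σ
    rw [hC0 σ, hC1 σ, hmu]
    ring
  have rD' : ∀ σ, q.D σ 0 - q.D σ 1 = 2 * nu (σ 2) := by
    intro σ
    rw [hD3 σ, hnu]
    ring
  have b1 : beta 1 = beta 0 - lam 0 + lam 1 := by
    have := hAB 1
    rw [rA, rA, rB, rB] at this
    simp at this
    linear_combination (-1 / 2 : ℂ) * this
  have b2 : beta 2 = beta 0 - lam 0 + lam 2 := by
    have := hAB (Equiv.swap 1 2)
    rw [rA, rA, rB, rB] at this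
    rw [show (Equiv.swap (1 : Fin 3) 2 * Equiv.swap 0 1 : Equiv.Perm (Fin 3)) 0 = 2 by decide,
      show (Equiv.swap (1 : Fin 3) 2 * Equiv.swap 0 1 : Equiv.Perm (Fin 3)) 1 = 0 by decide,
      show (Equiv.swap (1 : Fin 3) 2) 0 = 0 by decide,
      show (Equiv.swap (1 : Fin 3) 2) 1 = 2 by decide] at this
    linear_combination (-1 / 2 : ℂ) * this
  have hb : ∀ j, beta j = beta 0 - lam 0 + lam j := by
    intro j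
    fin_cases j
    · simp
    · exact b1
    · exact b2
  have g2 : gam 2 = gam 0 - lam 0 + lam 2 := by
    have := hAC 1
    rw [rA, rA, rC, rC] at this
    simp at this
    linear_combination (-1 / 2 : ℂ) * this
  have g1 : gam 1 = gam 0 - lam 0 + lam 1 := by
    have := hAC (Equiv.swap 1 2)
    rw [rA, rA, rC, rC] at this
    rw [show (Equiv.swap (1 : Fin 3) 2 * Equiv.swap 0 2 : Equiv.Perm (Fin 3)) 0 = 1 by decide,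
      show (Equiv.swap (1 : Fin 3) 2 * Equiv.swap 0 2 : Equiv.Perm (Fin 3)) 2 = 0 by decide,
      show (Equiv.swap (1 : Fin 3) 2) 0 = 0 by decide,
      show (Equiv.swap (1 : Fin 3) 2) 2 = 1 by decide] at this
    linear_combination (-1 / 2 : ℂ) * this
  have hg : ∀ j, gam j = gam 0 - lam 0 + lam j := by
    intro j
    fin_cases j
    · simp
    · exact g1
    · exact g2
  refine ⟨lam, mu, nu, beta 0 - lam 0, gam 0 - lam 0, (q.D 1 0 + q.D 1 1) / 2,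
    (q.E 1 0 + q.E 1 1 + q.E 1 2 + q.E 1 3) / 4, (q.F 1 0 + q.F 1 1 + q.F 1 2 + q.F 1 3) / 4, ?_⟩
  intro σ
  obtain ⟨a1, a2, a3, -⟩ := q.A_all σ
  obtain ⟨b1, b2, b3, -⟩ := q.B_all σ
  obtain ⟨c1, c2⟩ := q.C_all σ
  obtain ⟨d1, d2⟩ := q.D_all σ
  have A0 := rA σ
  have B0 := rB σ
  rw [hb] at B0
  have C0 := rC σ
  rw [hg] at C0
  have C1 := rC' σ
  have D0 := hD0 σ
  have D1 := rD' σ
  have E0 := hE σ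
  have F0 := hF σ
  obtain ⟨e3, e1, -⟩ := q.bACE σ
  obtain ⟨e4, e2, -⟩ := q.cDE σ
  obtain ⟨f3, f1, -⟩ := q.bDF σ
  obtain ⟨f4, f2, -⟩ := q.cBCF σ
  obtain ⟨c1', c2'⟩ := q.C_all (σ * Equiv.swap 0 2)
  obtain ⟨c1'', c2''⟩ := q.C_all (σ * Equiv.swap 1 2)
  have m1 := rC' (σ * Equiv.swap 0 2)
  have m2 := rC' (σ * Equiv.swap 1 2)
  have n1 := rD' (σ * Equiv.swap 0 2)
  have n2 := rD' (σ * Equiv.swap 1 2)
  have s1 : (σ * Equiv.swap 0 2 : Equiv.Perm (Fin 3)) 2 = σ 0 := by simp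
  have s2 : (σ * Equiv.swap 1 2 : Equiv.Perm (Fin 3)) 2 = σ 1 := by simp
  rw [s1] at m1 n1
  rw [s2] at m2 n2
  intro i
  fin_cases i
  · simp only [chi1, chi2, chi3, Fin.zero_eta, Matrix.cons_val_zero]
    refine ⟨?_, ?_, ?_, ?_, ?_, ?_⟩ <;> grind
  · simp only [chi1, chi2, chi3, Fin.mk_one, Matrix.cons_val_one, Matrix.cons_val_zero]
    refine ⟨?_, ?_, ?_, ?_, ?_, ?_⟩ <;> grind
  · simp only [chi1, chi2, chi3, Fin.reduceFinMk, Matrix.cons_val]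
    refine ⟨?_, ?_, ?_, ?_, ?_, ?_⟩ <;> grind
  · simp only [chi1, chi2, chi3, Fin.reduceFinMk, Matrix.cons_val]
    refine ⟨?_, ?_, ?_, ?_, ?_, ?_⟩ <;> grind

end Pool.Agent.KS6_96.He.Lib
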