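import Pool.Agent.KS6_96.He.Ker

/-!
The Hessenberg spaces of the counterexamples, in both types.
-/

namespace Pool.Agent.KS6_96.He

open MvPolynomial
open Pool.Agent.KS6_96.He.Lib (PosRoot)

attribute [local instance 100] LieRing.ofAssociativeRing

section generic

variable {ι : Type} [Fintype ι] [DecidableEq ι] {n : ℕ} {𝔤 : LieSubalgebra ℂ (Matrix ι ι ℂ)}
  {tor : (Fin n → ℂ) → ι → ℂ} {ht : ι → ℤ}

/-- The Hessenberg space: all matrices of `𝔤` whose entry in row `a` and column `b` vanishes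
whenever the height of `b` is at least three and exceeds the height of `a` by at least two. -/
def HH (𝔤 : LieSubalgebra ℂ (Matrix ι ι ℂ)) (ht : ι → ℤ) : Submodule ℂ (Matrix ι ι ℂ) where
  carrier := {M | M ∈ 𝔤 ∧ ∀ a b, 3 ≤ ht b → ht a + 2 ≤ ht b → M a b = 0}
  add_mem' := by
    rintro a b ⟨ha, ha'⟩ ⟨hb, hb'⟩
    refine ⟨add_mem ha hb, fun i j h1 h2 => ?_⟩
    rw [Matrix.add_apply, ha' i j h1 h2, hb' i j h1 h2, add_zero]
  zero_mem' := ⟨zero_mem _, fun _ _ _ _ => rfl⟩
  smul_mem' := by
    rintro c a ⟨ha, ha'⟩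
    refine ⟨𝔤.smul_mem c ha, fun i j h1 h2 => ?_⟩
    rw [Matrix.smul_apply, ha' i j h1 h2, smul_zero]

theorem mem_HH {M : Matrix ι ι ℂ} : M ∈ HH 𝔤 ht ↔
    M ∈ 𝔤 ∧ ∀ a b, 3 ≤ ht b → ht a + 2 ≤ ht b → M a b = 0 := Iff.rfl

/-- The matrices which are upper triangular with respect to the heights. -/
def upper (ht : ι → ℤ) : Submodule ℂ (Matrix ι ι ℂ) where
  carrier := {M | ∀ a b, ht a < ht b → M a b = 0}
  add_mem' := by
    intro a b ha hb i j hij
    rw [Matrix.add_apply, ha i j hij, hb i j hij, add_zero]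
  zero_mem' := fun _ _ _ => rfl
  smul_mem' := by
    intro c a ha i j hij
    rw [Matrix.smul_apply, ha i j hij, smul_zero]

theorem entry_eq {f : MvPolynomial (Fin n) ℂ} {M : Matrix ι ι ℂ}
    (hM : M ∈ weightSpace 𝔤 tor f) (s : Fin n → ℂ) (a b : ι) :
    (tor s a - tor s b) * M a b = eval s f * M a b := by
  have h := congrFun (congrFun (hM.2 s) a) b
  rw [Ring.lie_def] at h
  simp only [Matrix.sub_apply, Matrix.diagonal_mul, Matrix.mul_diagonal, Matrix.smul_apply,
    smul_eq_mul] at h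
  linear_combination h

theorem mem_weight {f : MvPolynomial (Fin n) ℂ} {M : Matrix ι ι ℂ} (hM : M ∈ 𝔤)
    (h : ∀ (s : Fin n → ℂ) (a b : ι), (tor s a - tor s b) * M a b = eval s f * M a b) :
    M ∈ weightSpace 𝔤 tor f := by
  refine ⟨hM, fun s => ?_⟩
  ext a b
  rw [Ring.lie_def]
  simp only [Matrix.sub_apply, Matrix.diagonal_mul, Matrix.mul_diagonal, Matrix.smul_apply,
    smul_eq_mul]
  linear_combination h s a b

/-- The weight `ρ = (n, n - 1, …, 1)`. -/
def rho (i : Fin n) : ℂ := (((n : ℤ) - (i : ℕ) : ℤ) : ℂ)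

theorem eval_rho (t : CType) (α : PosRoot n) : ∃ k : ℤ, 0 < k ∧ eval rho (root t α) = (k : ℂ) := by
  cases α with
  | diff i j h =>
    have e : root t (.diff i j h) = X i - X j := by cases t <;> rfl
    refine ⟨(j : ℕ) - (i : ℕ), ?_, ?_⟩
    · have : (i : ℕ) < j := h
      omega
    · rw [e, map_sub, eval_X, eval_X]
      unfold rho
      push_cast
      ring
  | sum i j h =>
    have e : root t (.sum i j h) = X i + X j := by cases t <;> rfl
    refine ⟨((n : ℤ) - (i : ℕ)) + ((n : ℤ) - (j : ℕ)), ?_, ?_⟩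
    · have := i.2
      have := j.2
      omega
    · rw [e, map_add, eval_X, eval_X]
      unfold rho
      push_cast
      ring
  | long i =>
    have := i.2
    cases t
    · refine ⟨(n : ℤ) - (i : ℕ), by omega, ?_⟩
      show eval rho (X i) = _
      rw [eval_X]
      rfl
    · refine ⟨2 * ((n : ℤ) - (i : ℕ)), by omega, ?_⟩
      show eval rho (2 * X i) = _
      rw [map_mul, eval_X, map_ofNat]
      unfold rho
      push_cast
      ring

theorem weight_upper (htor : ∀ a, tor rho a = (ht a : ℂ)) {f : MvPolynomial (Fin n) ℂ} {k : ℤ}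
    (hk : 0 ≤ k) (hf : eval rho f = (k : ℂ)) : weightSpace 𝔤 tor f ≤ upper ht := by
  intro M hM a b hab
  have h := entry_eq hM rho a b
  rw [hf, htor, htor] at h
  have h3 : (((ht a - ht b - k : ℤ)) : ℂ) * M a b = 0 := by
    push_cast
    linear_combination h
  rcases mul_eq_zero.1 h3 with h4 | h4
  · have : ht a - ht b - k = 0 := by exact_mod_cast h4
    omega
  · exact h4

theorem borel_upper (htor : ∀ a, tor rho a = (ht a : ℂ)) (t : CType) :
    borel 𝔤 tor t ≤ upper ht := by
  unfold borel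
  refine sup_le (weight_upper htor le_rfl (by simp)) (iSup_le fun α => ?_)
  obtain ⟨k, hk, hk'⟩ := eval_rho t α
  exact weight_upper htor hk.le hk'

theorem borel_g (t : CType) : borel 𝔤 tor t ≤ 𝔤.toSubmodule := by
  unfold borel
  exact sup_le (fun M hM => hM.1) (iSup_le fun α => fun M hM => hM.1)

theorem HH_hess (htor : ∀ a, tor rho a = (ht a : ℂ)) (t : CType) :
    IsHessenbergSpace 𝔤 tor t (HH 𝔤 ht) := by
  refine ⟨?_, fun M hM => hM.1, ?_⟩
  · intro M hM
    exact ⟨borel_g t hM, fun a b _ h2 => borel_upper htor t hM a b (by omega)⟩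
  · intro b hb h hh
    have hb' := borel_upper htor t hb
    refine ⟨𝔤.lie_mem (borel_g t hb) hh.1, fun a c h1 h2 => ?_⟩
    rw [Ring.lie_def, Matrix.sub_apply, Matrix.mul_apply, Matrix.mul_apply]
    have e1 : ∀ e, b a e * h e c = 0 := by
      intro e
      by_cases he : ht a < ht e
      · rw [hb' a e he, zero_mul]
      · rw [hh.2 e c h1 (by omega), mul_zero]
    have e2 : ∀ e, h a e * b e c = 0 := by
      intro e
      by_cases he : ht e < ht c
      · rw [hb' e c he, mul_zero]
      · rw [hh.2 a e (by omega) (by omega), zero_mul]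
    simp only [e1, e2, Finset.sum_const_zero, sub_zero]

end generic

section roots

variable {ι : Type} [Fintype ι] [DecidableEq ι] {m : ℕ} {𝔤 : LieSubalgebra ℂ (Matrix ι ι ℂ)}
  {tor : (Fin (m + 2) → ℂ) → ι → ℂ} {ht : ι → ℤ}

theorem hess_le (htor : ∀ a, tor rho a = (ht a : ℂ))
    (h2 : ∀ a b, 3 ≤ ht b → ht a + 2 ≤ ht b → ∃ j : Fin (m + 2), (j : ℕ) < m ∧
      tor (Pi.single j 1) a - tor (Pi.single j 1) b ≠ 0) (t : CType) {α : PosRoot (m + 2)}
    (hα : α ∈ SS m) : weightSpace 𝔤 tor (-(root t α)) ≤ HH 𝔤 ht := by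
  intro M hM
  refine ⟨hM.1, fun a b hb hab => ?_⟩
  cases α with
  | diff i j h =>
    have hij : (j : ℕ) = i + 1 := hα
    have e : root t (.diff i j h) = X i - X j := by cases t <;> rfl
    have h1 := entry_eq hM rho a b
    rw [htor, htor, e, map_neg, map_sub, eval_X, eval_X] at h1
    unfold rho at h1
    rw [hij] at h1
    have h3 : (((ht a - ht b + 1 : ℤ)) : ℂ) * M a b = 0 := by
      push_cast at h1 ⊢
      linear_combination h1
    rcases mul_eq_zero.1 h3 with h4 | h4
    · have : ht a - ht b + 1 = 0 := by exact_mod_cast h4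
      omega
    · exact h4
  | sum i j h =>
    have hi : m ≤ (i : ℕ) := hα
    have hij : (i : ℕ) < j := h
    have e : root t (.sum i j h) = X i + X j := by cases t <;> rfl
    obtain ⟨l, hl, hne⟩ := h2 a b hb hab
    have h1 := entry_eq hM (Pi.single l 1) a b
    have hil : i ≠ l := by
      rintro rfl
      omega
    have hjl : j ≠ l := by
      rintro rfl
      omega
    rw [e, map_neg, map_add, eval_X, eval_X, Pi.single_eq_of_ne hil, Pi.single_eq_of_ne hjl] at h1
    simp only [add_zero, neg_zero, zero_mul] at h1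
    rcases mul_eq_zero.1 h1 with h4 | h4
    · exact absurd h4 hne
    · exact h4
  | long i =>
    have hi : m ≤ (i : ℕ) := hα
    obtain ⟨l, hl, hne⟩ := h2 a b hb hab
    have h1 := entry_eq hM (Pi.single l 1) a b
    have hil : i ≠ l := by
      rintro rfl
      omega
    have e : eval (Pi.single l 1) (root t (.long i)) = 0 := by
      cases t
      · show eval (Pi.single l 1) (X i) = 0
        rw [eval_X, Pi.single_eq_of_ne hil]
      · show eval (Pi.single l 1) (2 * X i) = 0
        rw [map_mul, eval_X, Pi.single_eq_of_ne hil, mul_zero]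
    rw [map_neg, e, neg_zero, zero_mul] at h1
    rcases mul_eq_zero.1 h1 with h4 | h4
    · exact absurd h4 hne
    · exact h4

theorem hessRoots_HH (htor : ∀ a, tor rho a = (ht a : ℂ))
    (h2 : ∀ a b, 3 ≤ ht b → ht a + 2 ≤ ht b → ∃ j : Fin (m + 2), (j : ℕ) < m ∧
      tor (Pi.single j 1) a - tor (Pi.single j 1) b ≠ 0) (t : CType)
    (h3 : ∀ α : PosRoot (m + 2), α ∉ SS m → ∃ M ∈ weightSpace 𝔤 tor (-(root t α)),
      ∃ a b, 3 ≤ ht b ∧ ht a + 2 ≤ ht b ∧ M a b ≠ 0) :
    hessRoots 𝔤 tor t (HH 𝔤 ht) = SS m := by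
  ext α
  constructor
  · intro hα
    by_contra hne
    obtain ⟨M, hM, a, b, h4, h5, h6⟩ := h3 α hne
    exact h6 ((hα hM).2 a b h4 h5)
  · intro hα
    exact hess_le htor h2 t hα

end roots

/-! ### Type `C` -/

/-- The heights of the coordinate vectors in type `C`. -/
def htC {n : ℕ} : Fin n ⊕ Fin n → ℤ :=
  Sum.elim (fun i => (n : ℤ) - (i : ℕ)) (fun i => -((n : ℤ) - (i : ℕ)))

theorem torC_rho {n : ℕ} (a : Fin n ⊕ Fin n) : torC rho a = ((htC a : ℤ) : ℂ) := by
  rcases a with i | i
  · rfl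
  · simp only [torC, htC, Sum.elim_inr, rho]
    push_cast
    ring

theorem sp_iff {n : ℕ} (M : Matrix (Fin n ⊕ Fin n) (Fin n ⊕ Fin n) ℂ) :
    M ∈ sp n ↔ M.transpose * Matrix.J (Fin n) ℂ = Matrix.J (Fin n) ℂ * (-M) := by
  rw [sp, LieAlgebra.Symplectic.sp, mem_skewAdjointMatricesLieSubalgebra,
    mem_skewAdjointMatricesSubmodule]
  rfl

theorem sepC {m : ℕ} (a b : Fin (m + 2) ⊕ Fin (m + 2)) (hb : 3 ≤ htC b)
    (hab : htC a + 2 ≤ htC b) : ∃ j : Fin (m + 2), (j : ℕ) < m ∧
      torC (Pi.single j 1) a - torC (Pi.single j 1) b ≠ 0 := by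
  rcases b with j | j
  · simp only [htC, Sum.elim_inl] at hb hab
    push_cast at hb hab
    refine ⟨j, by omega, ?_⟩
    rcases a with i | i
    · simp only [Sum.elim_inl] at hab
      have : i ≠ j := by
        rintro rfl
        omega
      simp [torC, this]
    · simp only [torC, Sum.elim_inr, Sum.elim_inl, Pi.single_apply]
      by_cases h : i = j
      · simp [h]
        norm_num
      · simp [h]
  · have := j.2
    simp only [htC, Sum.elim_inr] at hb
    push_cast at hb
    omega

/-- Root vectors of the negative roots `-(x_i - x_j)`. -/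
def vDiff {n : ℕ} (i j : Fin n) : Matrix (Fin n ⊕ Fin n) (Fin n ⊕ Fin n) ℂ :=
  Matrix.fromBlocks (Matrix.single j i 1) 0 0 (-Matrix.single i j 1)

/-- Root vectors of the negative roots `-(x_i + x_j)`. -/
def vSum {n : ℕ} (i j : Fin n) : Matrix (Fin n ⊕ Fin n) (Fin n ⊕ Fin n) ℂ :=
  Matrix.fromBlocks 0 0 (Matrix.single i j 1 + Matrix.single j i 1) 0

theorem vDiff_mem {n : ℕ} (i j : Fin n) (f : MvPolynomial (Fin n) ℂ)
    (hf : ∀ s, eval s f = - (s i - s j)) : vDiff i j ∈ weightSpace (sp n) torC f := by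
  apply mem_weight
  · rw [sp_iff]
    unfold vDiff Matrix.J
    rw [Matrix.fromBlocks_transpose, Matrix.fromBlocks_multiply, Matrix.fromBlocks_neg,
      Matrix.fromBlocks_multiply]
    simp
  · intro s a b
    rw [hf]
    rcases a with a | a <;> rcases b with b | b
    · simp only [vDiff, Matrix.fromBlocks_apply₁₁, Matrix.single_apply, torC, Sum.elim_inl]
      by_cases h : j = a ∧ i = b
      · obtain ⟨rfl, rfl⟩ := h
        ring
      · rw [if_neg h]
        ring
    · simp [vDiff]
    · simp [vDiff]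
    · simp only [vDiff, Matrix.fromBlocks_apply₂₂, Matrix.neg_apply, Matrix.single_apply, torC,
        Sum.elim_inr]
      by_cases h : i = a ∧ j = b
      · obtain ⟨rfl, rfl⟩ := h
        ring
      · rw [if_neg h]
        ring

theorem vSum_mem {n : ℕ} (i j : Fin n) (f : MvPolynomial (Fin n) ℂ)
    (hf : ∀ s, eval s f = - (s i + s j)) : vSum i j ∈ weightSpace (sp n) torC f := by
  apply mem_weight
  · rw [sp_iff]
    unfold vSum Matrix.J
    rw [Matrix.fromBlocks_transpose, Matrix.fromBlocks_multiply, Matrix.fromBlocks_neg,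
      Matrix.fromBlocks_multiply]
    simp [add_comm]
  · intro s a b
    rw [hf]
    rcases a with a | a <;> rcases b with b | b
    · simp [vSum]
    · simp [vSum]
    · simp only [vSum, Matrix.fromBlocks_apply₂₁, Matrix.add_apply, Matrix.single_apply, torC,
        Sum.elim_inr, Sum.elim_inl]
      by_cases h1 : i = a ∧ j = b
      · obtain ⟨rfl, rfl⟩ := h1
        ring
      · by_cases h2 : j = a ∧ i = b
        · obtain ⟨rfl, rfl⟩ := h2
          ring
        · rw [if_neg h1, if_neg h2]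
          ring
    · simp [vSum]

theorem notSS {m : ℕ} {α : PosRoot (m + 2)} (h : α ∉ SS m) :
    (∃ i j hij, α = .diff i j hij ∧ (i : ℕ) + 2 ≤ j) ∨ (∃ i j hij, α = .sum i j hij ∧ (i : ℕ) < m) ∨
      (∃ i, α = .long i ∧ (i : ℕ) < m) := by
  cases α with
  | diff i j hij =>
    left
    refine ⟨i, j, hij, rfl, ?_⟩
    have h1 : ¬ (j : ℕ) = i + 1 := h
    have h2 : (i : ℕ) < j := hij
    omega
  | sum i j hij =>
    right; left
    refine ⟨i, j, hij, rfl, ?_⟩
    have h1 : ¬ m ≤ (i : ℕ) := h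
    omega
  | long i =>
    right; right
    refine ⟨i, rfl, ?_⟩
    have h1 : ¬ m ≤ (i : ℕ) := h
    omega

theorem vecC {m : ℕ} (α : PosRoot (m + 2)) (hα : α ∉ SS m) :
    ∃ M ∈ weightSpace (sp (m + 2)) torC (-(root .C α)),
      ∃ a b, 3 ≤ htC b ∧ htC a + 2 ≤ htC b ∧ M a b ≠ 0 := by
  rcases notSS hα with ⟨i, j, hij, rfl, h⟩ | ⟨i, j, hij, rfl, h⟩ | ⟨i, rfl, h⟩
  · have := j.2
    refine ⟨vDiff i j, vDiff_mem i j _ (by intro s; simp [root, PosRoot.form]), .inl j, .inl i,
      ?_, ?_, ?_⟩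
    · simp only [htC, Sum.elim_inl]
      push_cast
      omega
    · simp only [htC, Sum.elim_inl]
      push_cast
      omega
    · simp [vDiff]
  · have := j.2
    refine ⟨vSum i j, vSum_mem i j _ (by intro s; simp [root, PosRoot.form]; try ring), .inr j, .inl i,
      ?_, ?_, ?_⟩
    · simp only [htC, Sum.elim_inl]
      push_cast
      omega
    · simp only [htC, Sum.elim_inl, Sum.elim_inr]
      push_cast
      omega
    · have hne : ¬ (i = j) := hij.ne
      simp [vSum, hne]
  · refine ⟨vSum i i, vSum_mem i i _ (by intro s; simp [root, PosRoot.form]; ring), .inr i, .inl i,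
      ?_, ?_, ?_⟩
    · simp only [htC, Sum.elim_inl]
      push_cast
      omega
    · simp only [htC, Sum.elim_inl, Sum.elim_inr]
      push_cast
      omega
    · simp [vSum]

/-- The Hessenberg space in type `C`. -/
theorem exists_C (m : ℕ) : ∃ H, IsHessenbergSpace (sp (m + 2)) torC .C H ∧
    hessRoots (sp (m + 2)) torC .C H = SS m :=
  ⟨HH (sp (m + 2)) htC, HH_hess torC_rho .C, hessRoots_HH torC_rho sepC .C vecC⟩

/-! ### Type `B` -/

/-- The heights of the coordinate vectors in type `B`. -/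
def htB {n : ℕ} : Unit ⊕ (Fin n ⊕ Fin n) → ℤ := Sum.elim (fun _ => 0) htC

theorem torB_eq {n : ℕ} (s : Fin n → ℂ) (a : Fin n ⊕ Fin n) : torB s (.inr a) = torC s a := rfl

theorem torB_rho {n : ℕ} (a : Unit ⊕ (Fin n ⊕ Fin n)) : torB rho a = ((htB a : ℤ) : ℂ) := by
  rcases a with i | i
  · simp [torB, htB]
  · exact torC_rho i

theorem so_iff {n : ℕ} (M : Matrix (Unit ⊕ (Fin n ⊕ Fin n)) (Unit ⊕ (Fin n ⊕ Fin n)) ℂ) :
    M ∈ so n ↔ M.transpose * LieAlgebra.Orthogonal.JB (Fin n) ℂ =
      LieAlgebra.Orthogonal.JB (Fin n) ℂ * (-M) := by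
  rw [so, LieAlgebra.Orthogonal.typeB, mem_skewAdjointMatricesLieSubalgebra,
    mem_skewAdjointMatricesSubmodule]
  rfl

theorem sepB {m : ℕ} (a b : Unit ⊕ (Fin (m + 2) ⊕ Fin (m + 2))) (hb : 3 ≤ htB b)
    (hab : htB a + 2 ≤ htB b) : ∃ j : Fin (m + 2), (j : ℕ) < m ∧
      torB (Pi.single j 1) a - torB (Pi.single j 1) b ≠ 0 := by
  rcases b with b | b
  · simp [htB] at hb
  · rcases a with a | a
    · rcases b with j | j
      · simp only [htB, htC, Sum.elim_inl, Sum.elim_inr] at hb hab
        push_cast at hb hab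
        refine ⟨j, by omega, ?_⟩
        simp [torB]
      · have := j.2
        simp only [htB, htC, Sum.elim_inr] at hb
        push_cast at hb
        omega
    · exact sepC a b hb hab

/-- Root vectors of the negative roots `-(x_i - x_j)`. -/
def wDiff {n : ℕ} (i j : Fin n) :
    Matrix (Unit ⊕ (Fin n ⊕ Fin n)) (Unit ⊕ (Fin n ⊕ Fin n)) ℂ :=
  Matrix.fromBlocks 0 0 0 (vDiff i j)

/-- Root vectors of the negative roots `-(x_i + x_j)`. -/
def wSum {n : ℕ} (i j : Fin n) :
    Matrix (Unit ⊕ (Fin n ⊕ Fin n)) (Unit ⊕ (Fin n ⊕ Fin n)) ℂ :=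
  Matrix.fromBlocks 0 0 0
    (Matrix.fromBlocks 0 0 (Matrix.single i j 1 - Matrix.single j i 1) 0)

/-- Root vectors of the negative roots `-x_i`. -/
def wLong {n : ℕ} (i : Fin n) :
    Matrix (Unit ⊕ (Fin n ⊕ Fin n)) (Unit ⊕ (Fin n ⊕ Fin n)) ℂ :=
  Matrix.fromBlocks 0 (Matrix.single () (.inl i) 1) (Matrix.single (.inr i) () (-2)) 0

theorem wDiff_mem {n : ℕ} (i j : Fin n) (f : MvPolynomial (Fin n) ℂ)
    (hf : ∀ s, eval s f = - (s i - s j)) : wDiff i j ∈ weightSpace (so n) torB f := by
  apply mem_weight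
  · rw [so_iff]
    unfold wDiff vDiff LieAlgebra.Orthogonal.JB LieAlgebra.Orthogonal.JD
    rw [Matrix.fromBlocks_transpose, Matrix.fromBlocks_multiply, Matrix.fromBlocks_neg,
      Matrix.fromBlocks_multiply]
    simp [Matrix.fromBlocks_transpose, Matrix.fromBlocks_multiply, Matrix.fromBlocks_neg]
  · intro s a b
    rcases a with a | a <;> rcases b with b | b
    · simp [wDiff]
    · simp [wDiff]
    · simp [wDiff]
    · exact entry_eq (vDiff_mem i j f hf) s a b

theorem wSum_mem {n : ℕ} (i j : Fin n) (f : MvPolynomial (Fin n) ℂ)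
    (hf : ∀ s, eval s f = - (s i + s j)) : wSum i j ∈ weightSpace (so n) torB f := by
  apply mem_weight
  · rw [so_iff]
    unfold wSum LieAlgebra.Orthogonal.JB LieAlgebra.Orthogonal.JD
    rw [Matrix.fromBlocks_transpose, Matrix.fromBlocks_multiply, Matrix.fromBlocks_neg,
      Matrix.fromBlocks_multiply]
    simp [Matrix.fromBlocks_transpose, Matrix.fromBlocks_multiply, Matrix.fromBlocks_neg]
  · intro s a b
    rw [hf]
    rcases a with a | a <;> rcases b with b | b
    · simp [wSum]
    · simp [wSum]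
    · simp [wSum]
    · rcases a with a | a <;> rcases b with b | b
      · simp [wSum]
      · simp [wSum]
      · simp only [wSum, Matrix.fromBlocks_apply₂₂, Matrix.fromBlocks_apply₂₁, Matrix.sub_apply,
          Matrix.single_apply, torB, Sum.elim_inr, Sum.elim_inl]
        by_cases h1 : i = a ∧ j = b
        · obtain ⟨rfl, rfl⟩ := h1
          ring
        · by_cases h2 : j = a ∧ i = b
          · obtain ⟨rfl, rfl⟩ := h2
            ring
          · rw [if_neg h1, if_neg h2]
            ring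
      · simp [wSum]

theorem wLong_mem {n : ℕ} (i : Fin n) (f : MvPolynomial (Fin n) ℂ)
    (hf : ∀ s, eval s f = - s i) : wLong i ∈ weightSpace (so n) torB f := by
  apply mem_weight
  · rw [so_iff]
    unfold wLong LieAlgebra.Orthogonal.JB LieAlgebra.Orthogonal.JD
    rw [Matrix.fromBlocks_transpose, Matrix.fromBlocks_multiply, Matrix.fromBlocks_neg,
      Matrix.fromBlocks_multiply]
    simp only [Matrix.transpose_zero, Matrix.zero_mul, Matrix.mul_zero, zero_add, add_zero,
      neg_zero, Matrix.transpose_single]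
    congr 1
    · ext a b
      rcases b with b | b
      · simp [Matrix.mul_apply, Matrix.single_apply, Matrix.fromBlocks, Matrix.one_apply]
      · simp [Matrix.mul_apply, Matrix.single_apply, Matrix.fromBlocks]
    · ext a b
      rcases a with a | a
      · simp [Matrix.mul_apply, Matrix.single_apply, Matrix.fromBlocks, Matrix.one_apply, eq_comm]
      · simp [Matrix.mul_apply, Matrix.single_apply, Matrix.fromBlocks]
  · intro s a b
    rw [hf]
    rcases a with a | a <;> rcases b with b | b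
    · simp [wLong]
    · simp only [wLong, Matrix.fromBlocks_apply₁₂, Matrix.single_apply, torB, Sum.elim_inl,
        Sum.elim_inr]
      by_cases h : Sum.inl i = b
      · subst h
        simp
      · simp [h]
    · simp only [wLong, Matrix.fromBlocks_apply₂₁, Matrix.single_apply, torB, Sum.elim_inl,
        Sum.elim_inr]
      by_cases h : Sum.inr i = a
      · subst h
        simp
      · simp [h]
    · simp [wLong]

theorem vecB {m : ℕ} (α : PosRoot (m + 2)) (hα : α ∉ SS m) :
    ∃ M ∈ weightSpace (so (m + 2)) torB (-(root .B α)),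
      ∃ a b, 3 ≤ htB b ∧ htB a + 2 ≤ htB b ∧ M a b ≠ 0 := by
  rcases notSS hα with ⟨i, j, hij, rfl, h⟩ | ⟨i, j, hij, rfl, h⟩ | ⟨i, rfl, h⟩
  · have := j.2
    refine ⟨wDiff i j, wDiff_mem i j _ (by intro s; simp [root, formB]), .inr (.inl j),
      .inr (.inl i), ?_, ?_, ?_⟩
    · simp only [htB, htC, Sum.elim_inl, Sum.elim_inr]
      push_cast
      omega
    · simp only [htB, htC, Sum.elim_inl, Sum.elim_inr]
      push_cast
      omega
    · simp [wDiff, vDiff]
  · have := j.2
    refine ⟨wSum i j, wSum_mem i j _ (by intro s; simp [root, formB]; try ring), .inr (.inr j),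
      .inr (.inl i), ?_, ?_, ?_⟩
    · simp only [htB, htC, Sum.elim_inl, Sum.elim_inr]
      push_cast
      omega
    · simp only [htB, htC, Sum.elim_inl, Sum.elim_inr]
      push_cast
      omega
    · have hne : ¬ (i = j) := hij.ne
      simp [wSum, hne]
  · refine ⟨wLong i, wLong_mem i _ (by intro s; simp [root, formB]), .inl (), .inr (.inl i),
      ?_, ?_, ?_⟩
    · simp only [htB, htC, Sum.elim_inl, Sum.elim_inr]
      push_cast
      omega
    · simp only [htB, htC, Sum.elim_inl, Sum.elim_inr]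
      push_cast
      omega
    · simp [wLong]

/-- The Hessenberg space in type `B`. -/
theorem exists_B (m : ℕ) : ∃ H, IsHessenbergSpace (so (m + 2)) torB .B H ∧
    hessRoots (so (m + 2)) torB .B H = SS m :=
  ⟨HH (so (m + 2)) htB, HH_hess torB_rho .B, hessRoots_HH torB_rho sepB .B vecB⟩

end Pool.Agent.KS6_96.He
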