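import Mathlib

/-!
General facts about traces over `ℂ`.
-/

namespace Pool.Agent.KS6_96.He

open LinearMap

section

variable {A B C : Type} [AddCommGroup A] [Module ℂ A] [AddCommGroup B] [Module ℂ B]
  [AddCommGroup C] [Module ℂ C]

/-- Additivity of the trace in short exact sequences. -/
theorem trace_exact [Module.Finite ℂ A] [Module.Finite ℂ B] [Module.Finite ℂ C]
    (i : A →ₗ[ℂ] B) (π : B →ₗ[ℂ] C) (hi : Function.Injective i) (hπ : Function.Surjective π)
    (h0 : ∀ a, π (i a) = 0) (hex : ∀ b, π b = 0 → ∃ a, i a = b)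
    (fA : A →ₗ[ℂ] A) (fB : B →ₗ[ℂ] B) (fC : C →ₗ[ℂ] C)
    (h1 : ∀ a, fB (i a) = i (fA a)) (h2 : ∀ b, π (fB b) = fC (π b)) :
    trace ℂ B fB = trace ℂ A fA + trace ℂ C fC := by
  obtain ⟨r, hr⟩ := i.exists_leftInverse_of_injective (LinearMap.ker_eq_bot.2 hi)
  obtain ⟨s, hs⟩ := π.exists_rightInverse_of_surjective (LinearMap.range_eq_top.2 hπ)
  have hr' : ∀ a, r (i a) = a := fun a => LinearMap.congr_fun hr a
  have hs' : ∀ c, π (s c) = c := fun c => LinearMap.congr_fun hs c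
  have hdec : ∀ b, i (r (b - s (π b))) + s (π b) = b := by
    intro b
    obtain ⟨a, ha⟩ := hex (b - s (π b)) (by rw [map_sub, hs', sub_self])
    rw [← ha, hr', ha]
    abel
  let r' : B →ₗ[ℂ] A := r ∘ₗ (LinearMap.id - s ∘ₗ π)
  have e1 : fB = (fB ∘ₗ i) ∘ₗ r' + (fB ∘ₗ s) ∘ₗ π := by
    ext b
    simp only [LinearMap.add_apply, LinearMap.comp_apply]
    rw [← map_add]
    congr 1
    exact (hdec b).symm
  have e2 : r' ∘ₗ (fB ∘ₗ i) = fA := by
    ext a
    simp only [r', LinearMap.comp_apply, LinearMap.sub_apply, LinearMap.id_apply]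
    rw [h1, h0, map_zero, sub_zero, hr']
  have e3 : π ∘ₗ (fB ∘ₗ s) = fC := by
    ext c
    simp only [LinearMap.comp_apply]
    rw [h2, hs']
  rw [e1, map_add, trace_comp_comm' r' (fB ∘ₗ i), trace_comp_comm' π (fB ∘ₗ s), e2, e3]

/-- The trace on a retract. -/
theorem trace_retract [Module.Finite ℂ A] [Module.Finite ℂ B] (i : A →ₗ[ℂ] B) (π : B →ₗ[ℂ] A)
    (h : ∀ a, π (i a) = a) (fA : A →ₗ[ℂ] A) (fB : B →ₗ[ℂ] B)
    (h1 : ∀ a, fB (i a) = i (fA a)) : trace ℂ B (fB ∘ₗ (i ∘ₗ π)) = trace ℂ A fA := by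
  rw [← LinearMap.comp_assoc, trace_comp_comm']
  congr 1
  ext a
  simp only [LinearMap.comp_apply]
  rw [h1, h]

/-- If `D = P + τPτ` with `P` idempotent and `PτP = 0`, then `τD` has trace zero. -/
theorem trace_split (τ P D : B →ₗ[ℂ] B) (hτ : ∀ b, τ (τ b) = b) (hP : ∀ b, P (P b) = P b)
    (h0 : ∀ b, P (τ (P b)) = 0) (hD : ∀ b, D b = P b + τ (P (τ b))) :
    trace ℂ B (τ ∘ₗ D) = 0 := by
  have e1 : τ ∘ₗ D = τ * P + P * τ := by
    ext b
    simp only [LinearMap.comp_apply, LinearMap.add_apply, Module.End.mul_apply, hD, map_add, hτ]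
  have e2 : τ * P = (τ * P) * P := by
    ext b
    simp only [Module.End.mul_apply, hP]
  have e3 : P * (τ * P) = 0 := by
    ext b
    simp only [Module.End.mul_apply, h0, LinearMap.zero_apply]
  have e4 : trace ℂ B (τ * P) = 0 := by
    rw [e2, trace_mul_comm, e3, map_zero]
  rw [e1, map_add, trace_mul_comm ℂ P τ, e4, add_zero]

/-- The trace of a map applied coordinatewise. -/
theorem trace_pi {n : ℕ} [Module.Finite ℂ A] (f : A →ₗ[ℂ] A)
    (F : (Fin n → A) →ₗ[ℂ] (Fin n → A)) (hF : ∀ h i, F h i = f (h i)) :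
    trace ℂ (Fin n → A) F = n * trace ℂ A f := by
  have e1 : F = ∑ i : Fin n, (F ∘ₗ LinearMap.single ℂ (fun _ => A) i) ∘ₗ LinearMap.proj i := by
    apply LinearMap.ext
    intro h
    rw [LinearMap.sum_apply]
    simp only [LinearMap.comp_apply, LinearMap.proj_apply, LinearMap.coe_single]
    rw [← map_sum]
    congr 1
    exact (Finset.univ_sum_single h).symm
  rw [e1, map_sum]
  have e2 : ∀ i : Fin n, trace ℂ (Fin n → A)
      ((F ∘ₗ LinearMap.single ℂ (fun _ => A) i) ∘ₗ LinearMap.proj i) = trace ℂ A f := by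
    intro i
    rw [trace_comp_comm']
    congr 1
    ext a
    simp only [LinearMap.comp_apply, LinearMap.proj_apply, LinearMap.coe_single, hF,
      Pi.single_eq_same]
  simp only [e2, Finset.sum_const, Finset.card_univ, Fintype.card_fin, nsmul_eq_mul]

/-- The trace of the identity on `ℂ`. -/
theorem trace_id_C : trace ℂ ℂ LinearMap.id = 1 := by
  rw [trace_id]
  simp

/-- The trace of minus the identity on `ℂ^n`. -/
theorem trace_neg_pi (n : ℕ) : trace ℂ (Fin n → ℂ) (-LinearMap.id) = -n := by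
  rw [map_neg, trace_id]
  simp

end

end Pool.Agent.KS6_96.He
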