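import Pool.Agent.KS6_96.He.Bridge
import Pool.Agent.KS6_96.He.Grp
import Pool.Agent.KS6_96.He.TraceL

/-!
Reduction of the trace of `-1` to the splines that only involve the last two variables.
-/

namespace Pool.Agent.KS6_96.He

open MvPolynomial
open Pool.Agent.KS6_96.He.Lib

/-! ### The indicator functions -/

section chi

variable {n : ℕ}

/-- The set of images of the positions up to `a`. -/
def imgs (a : ℕ) (w : SignedPerm n) : Finset (Fin n × ℤˣ) :=
  (Finset.univ.filter fun l : Fin n => (l : ℕ) ≤ a).image fun l => w.1 (l, 1)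

/-- A choice of an injective code for sets of signed indices. -/
noncomputable def code (A : Finset (Fin n × ℤˣ)) : Fin (Fintype.card (Finset (Fin n × ℤˣ))) :=
  Fintype.equivFin _ A

/-- The indicator function: one of `w` and `-w` is chosen, according to the images of the
positions up to `a`. -/
noncomputable def chi (a : ℕ) (w : SignedPerm n) : ℂ :=
  if code (imgs a w) < code (imgs a (negOne n * w)) then 1 else 0

theorem mem_imgs {a : ℕ} {w : SignedPerm n} {p : Fin n × ℤˣ} :
    p ∈ imgs a w ↔ ∃ l : Fin n, (l : ℕ) ≤ a ∧ w.1 (l, 1) = p := by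
  unfold imgs
  simp [Finset.mem_image]

theorem imgs_ne (hn : 0 < n) (a : ℕ) (w : SignedPerm n) : imgs a w ≠ imgs a (negOne n * w) := by
  intro h
  have h1 : w.1 (⟨0, hn⟩, 1) ∈ imgs a w := mem_imgs.2 ⟨⟨0, hn⟩, Nat.zero_le _, rfl⟩
  rw [h] at h1
  obtain ⟨l, _, hl⟩ := mem_imgs.1 h1
  rw [negOne_apply, ← perm_neg] at hl
  have := w.1.injective hl
  have h2 := congrArg Prod.snd this
  revert h2
  simp [neg]

theorem chi_sq (a : ℕ) (w : SignedPerm n) : chi a w * chi a w = chi a w := by
  unfold chi
  split_ifs <;> simp

theorem negOne_negOne (w : SignedPerm n) : negOne n * (negOne n * w) = w := by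
  rw [← mul_assoc, negOne_mul_self, one_mul]

theorem chi_neg (hn : 0 < n) (a : ℕ) (w : SignedPerm n) :
    chi a (negOne n * w) = 1 - chi a w := by
  have hne : code (imgs a w) ≠ code (imgs a (negOne n * w)) := by
    intro h
    exact imgs_ne hn a w ((Fintype.equivFin _).injective h)
  unfold chi
  rw [negOne_negOne]
  rcases lt_or_gt_of_ne hne with h | h
  · rw [if_pos h, if_neg (not_lt.2 h.le)]
    simp
  · rw [if_pos h, if_neg (not_lt.2 h.le)]
    simp

theorem chi_mul_neg (hn : 0 < n) (a : ℕ) (w : SignedPerm n) :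
    chi a w * chi a (negOne n * w) = 0 := by
  rw [chi_neg hn, mul_sub, mul_one, chi_sq, sub_self]

theorem chi_of_imgs {a : ℕ} {u : SignedPerm n} (h : ∀ w : SignedPerm n, imgs a (w * u) = imgs a w)
    (w : SignedPerm n) : chi a (w * u) = chi a w := by
  unfold chi
  rw [← mul_assoc, h, h]

theorem imgs_sw {a : ℕ} {i j : Fin n} (h : (i : ℕ) ≤ a ↔ (j : ℕ) ≤ a) (w : SignedPerm n) :
    imgs a (w * sw i j) = imgs a w := by
  have key : ∀ l : Fin n, ((Equiv.swap i j l : Fin n) : ℕ) ≤ a ↔ (l : ℕ) ≤ a := by
    intro l
    by_cases h1 : l = i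
    · subst h1
      rw [Equiv.swap_apply_left]
      exact h.symm
    · by_cases h2 : l = j
      · subst h2
        rw [Equiv.swap_apply_right]
        exact h
      · rw [Equiv.swap_apply_of_ne_of_ne h1 h2]
  ext p
  rw [mem_imgs, mem_imgs]
  constructor
  · rintro ⟨l, hl, hp⟩
    rw [mul_sw] at hp
    exact ⟨_, (key l).2 hl, hp⟩
  · rintro ⟨l, hl, hp⟩
    refine ⟨Equiv.swap i j l, (key l).2 hl, ?_⟩
    rw [mul_sw, Equiv.swap_apply_self]
    exact hp

theorem imgs_sg {a : ℕ} {i : Fin n} (h : ¬ (i : ℕ) ≤ a) (w : SignedPerm n) :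
    imgs a (w * sg i) = imgs a w := by
  ext p
  rw [mem_imgs, mem_imgs]
  refine exists_congr fun l => and_congr_right fun hl => ?_
  rw [mul_sg_ne _ (by rintro rfl; exact h hl)]

theorem chi_sw {a : ℕ} {i j : Fin n} (h : (i : ℕ) ≤ a ↔ (j : ℕ) ≤ a) (w : SignedPerm n) :
    chi a (w * sw i j) = chi a w := chi_of_imgs (imgs_sw h) w

theorem chi_sg {a : ℕ} {i : Fin n} (h : ¬ (i : ℕ) ≤ a) (w : SignedPerm n) :
    chi a (w * sg i) = chi a w := chi_of_imgs (imgs_sg h) w

end chi

/-! ### The root set -/

/-- The condition defining the root set. -/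
def IsSS (m : ℕ) : PosRoot (m + 2) → Prop
  | .diff i j _ => (j : ℕ) = i + 1
  | .sum i _ _ => m ≤ (i : ℕ)
  | .long i => m ≤ (i : ℕ)

/-- The root set of the counterexample: the simple roots and the positive roots
`x_{n-1} + x_n`, `x_{n-1}`, `x_n` (or `2x_{n-1}`, `2x_n`), where `n = m + 2`. -/
def SS (m : ℕ) : Set (PosRoot (m + 2)) := {α | IsSS m α}

section ops

variable {m : ℕ}

/-- The map `l ↦ max l a` on positions. -/
def rr (a : ℕ) (ha : a ≤ m) (l : Fin (m + 2)) : Fin (m + 2) := ⟨max l a, by
  have := l.2
  omega⟩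

theorem rr_rr {a b c : ℕ} (ha : a ≤ m) (hb : b ≤ m) (hc : c ≤ m) (h : c = max a b) :
    rr a ha ∘ rr b hb = rr c hc := by
  funext l
  apply Fin.ext
  simp only [rr, Function.comp_apply]
  omega

theorem rename_rr {a b c : ℕ} (ha : a ≤ m) (hb : b ≤ m) (hc : c ≤ m) (h : c = max a b)
    (p : MvPolynomial (Fin (m + 2)) ℂ) :
    rename (rr a ha) (rename (rr b hb) p) = rename (rr c hc) p := by
  rw [rename_rename, rr_rr ha hb hc h]

/-- The hyperplanes of the root set are preserved. -/
theorem form_rr {α : PosRoot (m + 2)} (hα : α ∈ SS m) {a : ℕ} (ha : a ≤ m)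
    {x : Fin (m + 2) → ℂ} (hx : eval x α.form = 0) : eval (x ∘ rr a ha) α.form = 0 := by
  cases α with
  | diff i j h =>
    have hij : (j : ℕ) = i + 1 := hα
    simp only [PosRoot.form, map_sub, eval_X, Function.comp_apply] at hx ⊢
    by_cases h1 : (j : ℕ) ≤ a
    · have : rr a ha i = rr a ha j := by
        apply Fin.ext
        simp only [rr]
        omega
      rw [this, sub_self]
    · have e1 : rr a ha i = i := by
        apply Fin.ext
        simp only [rr]
        omega
      have e2 : rr a ha j = j := by
        apply Fin.ext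
        simp only [rr]
        omega
      rw [e1, e2, hx]
  | sum i j h =>
    have hi : m ≤ (i : ℕ) := hα
    have hij : (i : ℕ) < j := h
    simp only [PosRoot.form, map_add, eval_X, Function.comp_apply] at hx ⊢
    have e1 : rr a ha i = i := by
      apply Fin.ext
      simp only [rr]
      omega
    have e2 : rr a ha j = j := by
      apply Fin.ext
      simp only [rr]
      omega
    rw [e1, e2, hx]
  | long i =>
    have hi : m ≤ (i : ℕ) := hα
    simp only [PosRoot.form, map_mul, map_ofNat, eval_X, Function.comp_apply] at hx ⊢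
    have e1 : rr a ha i = i := by
      apply Fin.ext
      simp only [rr]
      omega
    rw [e1, hx]

variable {k : ℕ}

theorem E_mem {a : ℕ} (ha : a ≤ m) {g : SignedPerm (m + 2) → MvPolynomial (Fin (m + 2)) ℂ}
    (hg : g ∈ G (SS m) k) : (fun w => rename (rr a ha) (g w)) ∈ G (SS m) k := by
  refine ⟨fun w => (hg.1 w).rename_isHomogeneous, fun α hα w x hx => ?_⟩
  rw [eval_rename, eval_rename]
  exact hg.2 α hα w _ (form_rr hα ha hx)

/-- The operators `E_a`: substitute `X_a` for all earlier variables. -/
noncomputable def opE (a : ℕ) (ha : a ≤ m) : G (SS m) k →ₗ[ℂ] G (SS m) k where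
  toFun g := ⟨fun w => rename (rr a ha) (g.1 w), E_mem ha g.2⟩
  map_add' x y := by
    apply Subtype.ext
    funext w
    exact map_add (rename (rr a ha)) (x.1 w) (y.1 w)
  map_smul' c x := by
    apply Subtype.ext
    funext w
    exact map_smul (rename (rr a ha)) c (x.1 w)

theorem opE_apply (a : ℕ) (ha : a ≤ m) (g : G (SS m) k) (w : SignedPerm (m + 2)) :
    (opE a ha g).1 w = rename (rr a ha) (g.1 w) := rfl

/-- The difference of two substitutions. -/
noncomputable def DD (a : ℕ) (ha : a + 1 ≤ m) :
    MvPolynomial (Fin (m + 2)) ℂ →ₗ[ℂ] MvPolynomial (Fin (m + 2)) ℂ :=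
  (rename (rr a (by omega))).toLinearMap - (rename (rr (a + 1) ha)).toLinearMap

theorem DD_apply (a : ℕ) (ha : a + 1 ≤ m) (p : MvPolynomial (Fin (m + 2)) ℂ) :
    DD a ha p = rename (rr a (by omega)) p - rename (rr (a + 1) ha) p := rfl

theorem DD_DD (a : ℕ) (ha : a + 1 ≤ m) (p : MvPolynomial (Fin (m + 2)) ℂ) :
    DD a ha (DD a ha p) = DD a ha p := by
  have ha' : a ≤ m := by omega
  rw [DD_apply, DD_apply, map_sub, map_sub,
    rename_rr ha' ha' ha' (by omega), rename_rr ha' ha ha (by omega),
    rename_rr ha ha' ha (by omega), rename_rr ha ha ha (by omega)]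
  abel

theorem P_mem {a : ℕ} (ha : a + 1 ≤ m) {g : SignedPerm (m + 2) → MvPolynomial (Fin (m + 2)) ℂ}
    (hg : g ∈ G (SS m) k) : (fun w => chi a w • DD a ha (g w)) ∈ G (SS m) k := by
  have h1 := E_mem (a := a) (by omega) hg
  have h2 := E_mem ha hg
  constructor
  · intro w
    have := (isHomogeneous_C (Fin (m + 2)) (chi a w)).mul ((h1.1 w).sub (h2.1 w))
    rw [zero_add, ← smul_eq_C_mul] at this
    exact this
  · intro α hα w x hx
    have key : eval x (DD a ha (g w)) = eval x (DD a ha (g (w * α.refl))) := by
      rw [DD_apply, DD_apply, map_sub, map_sub]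
      exact congrArg₂ (· - ·) (h1.2 α hα w x hx) (h2.2 α hα w x hx)
    rw [smul_eval, smul_eval, ← key]
    by_cases hchi : chi a (w * α.refl) = chi a w
    · rw [hchi]
    · have hz : eval x (DD a ha (g w)) = 0 := by
        cases α with
        | diff i j h =>
          have hij : (j : ℕ) = i + 1 := hα
          have hia : (i : ℕ) = a := by
            by_contra hne
            apply hchi
            rw [diff_refl]
            exact chi_sw (by omega) w
          simp only [PosRoot.form, map_sub, eval_X, sub_eq_zero] at hx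
          rw [DD_apply, map_sub, eval_rename, eval_rename, sub_eq_zero]
          congr 2
          funext l
          simp only [Function.comp_apply]
          by_cases hl : (l : ℕ) ≤ a
          · have e1 : rr a (by omega : a ≤ m) l = i := by
              apply Fin.ext
              simp only [rr]
              omega
            have e2 : rr (a + 1) ha l = j := by
              apply Fin.ext
              simp only [rr]
              omega
            rw [e1, e2, hx]
          · have e1 : rr a (by omega : a ≤ m) l = rr (a + 1) ha l := by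
              apply Fin.ext
              simp only [rr]
              omega
            rw [e1]
        | sum i j h =>
          have hi : m ≤ (i : ℕ) := hα
          have hij : (i : ℕ) < j := h
          exfalso
          apply hchi
          rw [sum_refl, ← mul_assoc, ← mul_assoc, chi_sg (by omega), chi_sw (by omega),
            chi_sg (by omega)]
        | long i =>
          have hi : m ≤ (i : ℕ) := hα
          exfalso
          apply hchi
          rw [long_refl, chi_sg (by omega)]
      rw [hz, mul_zero, mul_zero]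

/-- The operators `P_a`. -/
noncomputable def opP (a : ℕ) (ha : a + 1 ≤ m) : G (SS m) k →ₗ[ℂ] G (SS m) k where
  toFun g := ⟨fun w => chi a w • DD a ha (g.1 w), P_mem ha g.2⟩
  map_add' x y := by
    apply Subtype.ext
    funext w
    show chi a w • DD a ha (x.1 w + y.1 w) = chi a w • DD a ha (x.1 w) + chi a w • DD a ha (y.1 w)
    rw [map_add, smul_add]
  map_smul' c x := by
    apply Subtype.ext
    funext w
    show chi a w • DD a ha (c • x.1 w) = c • (chi a w • DD a ha (x.1 w))
    rw [map_smul, smul_comm]

theorem opP_apply (a : ℕ) (ha : a + 1 ≤ m) (g : G (SS m) k) (w : SignedPerm (m + 2)) :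
    (opP a ha g).1 w = chi a w • DD a ha (g.1 w) := rfl

theorem trace_step (a : ℕ) (ha : a + 1 ≤ m) :
    LinearMap.trace ℂ (G (SS m) k) (tau (SS m) k ∘ₗ opE a (by omega)) =
      LinearMap.trace ℂ (G (SS m) k) (tau (SS m) k ∘ₗ opE (a + 1) ha) := by
  rw [← sub_eq_zero, ← map_sub, ← LinearMap.comp_sub]
  apply trace_split _ (opP a ha) _ tau_tau
  · intro g
    apply Subtype.ext
    funext w
    rw [opP_apply, opP_apply, map_smul, smul_smul, chi_sq, DD_DD]
  · intro g
    apply Subtype.ext
    funext w
    rw [opP_apply, tau_apply, opP_apply, map_smul, smul_smul, chi_mul_neg (by omega), zero_smul]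
    rfl
  · intro g
    apply Subtype.ext
    funext w
    show rename _ (g.1 w) - rename _ (g.1 w) = (opP a ha g).1 w +
      (tau (SS m) k (opP a ha (tau (SS m) k g))).1 w
    rw [tau_apply, opP_apply, opP_apply, tau_apply, negOne_negOne, chi_neg (by omega), ← add_smul,
      add_sub_cancel, one_smul, DD_apply]

theorem trace_step' : ∀ (a : ℕ) (ha : a ≤ m),
    LinearMap.trace ℂ (G (SS m) k) (tau (SS m) k) =
      LinearMap.trace ℂ (G (SS m) k) (tau (SS m) k ∘ₗ opE a ha) := by
  intro a
  induction a with
  | zero =>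
    intro ha
    congr 1
    apply LinearMap.ext
    intro g
    apply Subtype.ext
    funext w
    rw [LinearMap.comp_apply, tau_apply, tau_apply, opE_apply]
    have : rr 0 ha = id := by
      funext l
      apply Fin.ext
      simp only [rr, id]
      omega
    rw [this, rename_id_apply]
  | succ a ih =>
    intro ha
    rw [ih (by omega), trace_step a ha]

/-- The trace of `-1` is computed on the splines that involve only the last two variables. -/
theorem trace_tau : LinearMap.trace ℂ (G (SS m) k) (tau (SS m) k) =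
    LinearMap.trace ℂ (G (SS m) k) (tau (SS m) k ∘ₗ opE m le_rfl) := trace_step' m le_rfl

end ops

end Pool.Agent.KS6_96.He
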