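import Pool.Agent.KS6_96.He.Ops

/-!
Homogeneous polynomials of degree one and two, and the invariance properties of the evaluations of
splines at special points.
-/

namespace Pool.Agent.KS6_96.He

open MvPolynomial
open Pool.Agent.KS6_96.He.Lib

section pol

variable {n : ℕ}

/-- Euler's identity: a homogeneous polynomial of degree `k + 1` lies in the ideal generated by the
variables. -/
theorem euler {k : ℕ} {p : MvPolynomial (Fin n) ℂ} (hp : p.IsHomogeneous (k + 1)) :
    ∃ q : Fin n → MvPolynomial (Fin n) ℂ, (∀ i, (q i).IsHomogeneous k) ∧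
      p = ∑ i, X i * q i := by
  refine ⟨fun i => C (1 / ((k : ℂ) + 1)) * pderiv i p, fun i => ?_, ?_⟩
  · have := (isHomogeneous_C (Fin n) (1 / ((k : ℂ) + 1))).mul (hp.pderiv (i := i))
    simpa using this
  · have h := hp.sum_X_mul_pderiv
    have e1 : ∑ i, X i * (C (1 / ((k : ℂ) + 1)) * pderiv i p) =
        C (1 / ((k : ℂ) + 1)) * ∑ i, X i * pderiv i p := by
      rw [Finset.mul_sum]
      refine Finset.sum_congr rfl fun i _ => ?_
      ring
    rw [e1, h, nsmul_eq_mul, ← mul_assoc]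
    have hk : ((k : ℂ) + 1) ≠ 0 := Nat.cast_add_one_ne_zero k
    have e2 : C (1 / ((k : ℂ) + 1)) * (((k + 1 : ℕ) : MvPolynomial (Fin n) ℂ)) = 1 := by
      rw [← map_natCast C, ← C_mul]
      push_cast
      rw [one_div_mul_cancel hk, C_1]
    rw [e2, one_mul]

theorem const_eq {p : MvPolynomial (Fin n) ℂ} (hp : p.IsHomogeneous 0) : ∃ c : ℂ, p = C c := by
  rw [← totalDegree_zero_iff_isHomogeneous, totalDegree_eq_zero_iff_eq_C] at hp
  exact ⟨_, hp⟩

theorem lin_eq {p : MvPolynomial (Fin n) ℂ} (hp : p.IsHomogeneous 1) :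
    ∃ c : Fin n → ℂ, p = ∑ i, X i * C (c i) := by
  obtain ⟨q, hq, rfl⟩ := euler (k := 0) hp
  choose c hc using fun i => const_eq (hq i)
  exact ⟨c, Finset.sum_congr rfl fun i _ => by rw [hc]⟩

theorem lin_eval {p : MvPolynomial (Fin n) ℂ} (hp : p.IsHomogeneous 1) (u v : Fin n → ℂ)
    (a b : ℂ) : eval (a • u + b • v) p = a * eval u p + b * eval v p := by
  obtain ⟨c, rfl⟩ := lin_eq hp
  simp only [map_sum, map_mul, eval_X, eval_C, Finset.mul_sum, ← Finset.sum_add_distrib,
    Pi.add_apply, Pi.smul_apply, smul_eq_mul]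
  refine Finset.sum_congr rfl fun i _ => ?_
  ring

theorem quad_eval {p : MvPolynomial (Fin n) ℂ} (hp : p.IsHomogeneous 2) (u v : Fin n → ℂ) :
    ∃ Q : ℂ, ∀ a b : ℂ, eval (a • u + b • v) p =
      eval u p * a ^ 2 + Q * (a * b) + eval v p * b ^ 2 := by
  obtain ⟨q, hq, rfl⟩ := euler (k := 1) hp
  refine ⟨∑ i, (u i * eval v (q i) + v i * eval u (q i)), fun a b => ?_⟩
  simp only [map_sum, map_mul, eval_X, Finset.sum_mul, ← Finset.sum_add_distrib]
  refine Finset.sum_congr rfl fun i _ => ?_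
  rw [lin_eval (hq i)]
  simp only [Pi.add_apply, Pi.smul_apply, smul_eq_mul]
  ring

end pol

section special

variable {m : ℕ}

/-- The last but one position. -/
def yy : Fin (m + 2) := ⟨m, by omega⟩

/-- The last position. -/
def zz : Fin (m + 2) := ⟨m + 1, by omega⟩

/-- The point `(1, …, 1, 0)`. -/
def pu (l : Fin (m + 2)) : ℂ := if (l : ℕ) ≤ m then 1 else 0

/-- The point `(0, …, 0, 1)`. -/
def pv (l : Fin (m + 2)) : ℂ := if (l : ℕ) ≤ m then 0 else 1

theorem comp_rr (x : Fin (m + 2) → ℂ) :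
    x ∘ rr m le_rfl = x yy • (pu : Fin (m + 2) → ℂ) + x zz • (pv : Fin (m + 2) → ℂ) := by
  funext l
  simp only [Function.comp_apply, Pi.add_apply, Pi.smul_apply, smul_eq_mul, pu, pv]
  by_cases h : (l : ℕ) ≤ m
  · have : rr m le_rfl l = (yy : Fin (m + 2)) := by
      apply Fin.ext
      simp only [rr, yy]
      omega
    rw [this, if_pos h, if_pos h]
    ring
  · have : rr m le_rfl l = (zz : Fin (m + 2)) := by
      apply Fin.ext
      simp only [rr, zz]
      have := l.2
      omega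
    rw [this, if_neg h, if_neg h]
    ring

theorem yy_ne_zz : (yy : Fin (m + 2)) ≠ zz := by
  intro h
  have := congrArg Fin.val h
  simp only [yy, zz] at this
  omega

theorem ne_zz {i : Fin (m + 2)} (h : (i : ℕ) ≤ m) : i ≠ zz := by
  rintro rfl
  simp only [zz] at h
  omega

theorem pu_le {l : Fin (m + 2)} (h : (l : ℕ) ≤ m) : pu l = 1 := if_pos h

theorem pv_le {l : Fin (m + 2)} (h : (l : ℕ) ≤ m) : pv l = 0 := if_pos h

theorem pu_zz : pu (zz : Fin (m + 2)) = 0 := if_neg (by simp [zz])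

theorem pv_zz : pv (zz : Fin (m + 2)) = 1 := if_neg (by simp [zz])

theorem pu_yy : pu (yy : Fin (m + 2)) = 1 := if_pos (by simp [yy])

theorem pv_yy : pv (yy : Fin (m + 2)) = 0 := if_pos (by simp [yy])

variable {k : ℕ} {g : SignedPerm (m + 2) → MvPolynomial (Fin (m + 2)) ℂ}

/-- Invariance of the evaluation of a spline at a point of a hyperplane `x_i = x_j`. -/
theorem eval_sw (hg : g ∈ G (SS m) k) (x : Fin (m + 2) → ℂ) {i j : Fin (m + 2)}
    (hij : (j : ℕ) = i + 1) (hx : x i = x j) (w : SignedPerm (m + 2)) :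
    eval x (g (w * sw i j)) = eval x (g w) := by
  have hlt : i < j := by
    rw [Fin.lt_def]
    omega
  exact (hg.2 (.diff i j hlt) hij w x (by simp [PosRoot.form, hx])).symm

theorem eval_sg (hg : g ∈ G (SS m) k) (x : Fin (m + 2) → ℂ) {i : Fin (m + 2)}
    (hi : m ≤ (i : ℕ)) (hx : x i = 0) (w : SignedPerm (m + 2)) :
    eval x (g (w * sg i)) = eval x (g w) :=
  (hg.2 (.long i) hi w x (by simp [PosRoot.form, hx])).symm

theorem yy_lt_zz : (yy : Fin (m + 2)) < zz := by
  rw [Fin.lt_def]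
  simp only [yy, zz]
  omega

theorem eval_sum (hg : g ∈ G (SS m) k) (x : Fin (m + 2) → ℂ)
    (hx : x yy + x zz = 0) (w : SignedPerm (m + 2)) :
    eval x (g (w * (sg zz * sw yy zz * sg zz))) = eval x (g w) := by
  rw [← sum_refl yy zz yy_lt_zz]
  exact (hg.2 (.sum yy zz yy_lt_zz) (le_refl m) w x (by simpa [PosRoot.form] using hx)).symm

/-- `w ↦ g(w)(1, …, 1, 0)`. -/
theorem P_sw (hg : g ∈ G (SS m) k) {i j : Fin (m + 2)} (hij : (j : ℕ) = i + 1)
    (hj : (j : ℕ) ≤ m) (w : SignedPerm (m + 2)) :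
    eval pu (g (w * sw i j)) = eval pu (g w) :=
  eval_sw hg _ hij (by rw [pu_le hj, pu_le (by omega)]) w

theorem P_sg (hg : g ∈ G (SS m) k) (w : SignedPerm (m + 2)) :
    eval pu (g (w * sg zz)) = eval pu (g w) :=
  eval_sg hg _ (by simp [zz]) pu_zz w

/-- `w ↦ g(w)(0, …, 0, 1)`. -/
theorem R_sw (hg : g ∈ G (SS m) k) {i j : Fin (m + 2)} (hij : (j : ℕ) = i + 1)
    (hj : (j : ℕ) ≤ m) (w : SignedPerm (m + 2)) :
    eval pv (g (w * sw i j)) = eval pv (g w) :=
  eval_sw hg _ hij (by rw [pv_le hj, pv_le (by omega)]) w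

theorem R_sg (hg : g ∈ G (SS m) k) (w : SignedPerm (m + 2)) :
    eval pv (g (w * sg yy)) = eval pv (g w) :=
  eval_sg hg _ (by simp [yy]) pv_yy w

theorem R_last (hg : g ∈ G (SS m) k) {w w' : SignedPerm (m + 2)}
    (h : w.1 (zz, 1) = w'.1 (zz, 1)) : eval pv (g w) = eval pv (g w') :=
  last_of_inv (f := fun w => eval pv (g w)) yy zz (by simp [yy, zz]) (by simp [zz])
    (fun _ _ hij hj w => R_sw hg hij hj w) (R_sg hg) w w' h

theorem cases_j {i j : Fin (m + 2)} (hij : (j : ℕ) = i + 1) :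
    (j : ℕ) ≤ m ∨ (i = yy ∧ j = zz) := by
  by_cases h : (j : ℕ) ≤ m
  · exact Or.inl h
  · right
    have := j.2
    constructor
    · apply Fin.ext
      simp only [yy]
      omega
    · apply Fin.ext
      simp only [zz]
      omega

/-- `w ↦ g(w)(1, …, 1)`. -/
theorem T_sw (hg : g ∈ G (SS m) k) {i j : Fin (m + 2)} (hij : (j : ℕ) = i + 1)
    (w : SignedPerm (m + 2)) :
    eval (pu + pv) (g (w * sw i j)) = eval (pu + pv) (g w) := by
  apply eval_sw hg _ hij
  simp only [Pi.add_apply, pu, pv]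
  split_ifs <;> simp

/-- `w ↦ g(w s)(1, …, 1, -1)`, where `s` is the last sign change. -/
theorem v_sw (hg : g ∈ G (SS m) k) {i j : Fin (m + 2)} (hij : (j : ℕ) = i + 1)
    (w : SignedPerm (m + 2)) :
    eval (pu - pv) (g (w * sw i j * sg zz)) = eval (pu - pv) (g (w * sg zz)) := by
  rcases cases_j hij with hj | ⟨rfl, rfl⟩
  · have hi : (i : ℕ) ≤ m := by omega
    rw [mul_assoc, ← sg_sw_comm (ne_zz hi).symm (ne_zz hj).symm, ← mul_assoc]
    apply eval_sw hg _ hij
    simp only [Pi.sub_apply]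
    rw [pu_le hj, pu_le hi, pv_le hj, pv_le hi]
  · have h := eval_sum hg (pu - pv) (by
      simp only [Pi.sub_apply]
      rw [pu_yy, pu_zz, pv_yy, pv_zz]
      ring) (w * sg zz)
    have e : w * sg zz * (sg zz * sw yy zz * sg zz) = w * sw yy zz * sg zz := by
      rw [mul_assoc w, ← mul_assoc (sg zz), ← mul_assoc (sg zz), sg_self_mul, one_mul, mul_assoc]
    rw [e] at h
    exact h

/-- Membership of functions that involve only the last two variables. -/
theorem mem_of_F (F : SignedPerm (m + 2) → ℂ → ℂ → ℂ) (hk : ∀ w, (g w).IsHomogeneous k)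
    (hF : ∀ w (x : Fin (m + 2) → ℂ), eval x (g w) = F w (x yy) (x zz))
    (h1 : ∀ i j : Fin (m + 2), (j : ℕ) = i + 1 → (j : ℕ) ≤ m → ∀ w a b,
      F (w * sw i j) a b = F w a b)
    (h2 : ∀ w a, F (w * sw yy zz) a a = F w a a)
    (h3 : ∀ w a, F (w * sg zz * sw yy zz * sg zz) a (-a) = F w a (-a))
    (h4 : ∀ w b, F (w * sg yy) 0 b = F w 0 b)
    (h5 : ∀ w a, F (w * sg zz) a 0 = F w a 0) : g ∈ G (SS m) k := by
  refine ⟨hk, fun α hα w x hx => ?_⟩
  rw [hF, hF]
  cases α with
  | diff i j h =>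
    rw [diff_refl]
    have hij : (j : ℕ) = i + 1 := hα
    rcases cases_j hij with hj | ⟨rfl, rfl⟩
    · rw [h1 i j hij hj]
    · have hx' : x yy = x zz := by
        simpa [PosRoot.form, sub_eq_zero] using hx
      rw [← hx', h2]
  | sum i j h =>
    have hi : m ≤ (i : ℕ) := hα
    have hij : (i : ℕ) < j := h
    have e1 : i = yy := by
      apply Fin.ext
      have := j.2
      simp only [yy]
      omega
    have e2 : j = zz := by
      apply Fin.ext
      have := j.2
      simp only [zz]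
      omega
    subst e1
    subst e2
    rw [sum_refl]
    have hx' : x zz = - x yy := by
      have : x yy + x zz = 0 := by simpa [PosRoot.form] using hx
      linear_combination this
    rw [hx', ← mul_assoc, ← mul_assoc, h3]
  | long i =>
    have hi : m ≤ (i : ℕ) := hα
    rw [long_refl]
    have hx' : x i = 0 := by simpa [PosRoot.form] using hx
    rcases Nat.lt_or_ge m (i : ℕ) with h | h
    · have e2 : i = zz := by
        apply Fin.ext
        have := i.2
        simp only [zz]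
        omega
      subst e2
      rw [hx', h5]
    · have e2 : i = yy := by
        apply Fin.ext
        simp only [yy]
        omega
      subst e2
      rw [hx', h4]

/-- Evaluation of a component at a point. -/
noncomputable def evL (x : Fin (m + 2) → ℂ) (w : SignedPerm (m + 2)) : G (SS m) k →ₗ[ℂ] ℂ where
  toFun g := eval x (g.1 w)
  map_add' a b := map_add (eval x) (a.1 w) (b.1 w)
  map_smul' c a := smul_eval x (a.1 w) c

theorem evL_apply (x : Fin (m + 2) → ℂ) (w : SignedPerm (m + 2)) (g : G (SS m) k) :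
    evL x w g = eval x (g.1 w) := rfl

/-- A signed permutation with prescribed image of the last position. -/
noncomputable def wp (p : Fin (m + 2) × ℤˣ) : SignedPerm (m + 2) :=
  (exists_image zz p).choose

theorem wp_apply (p : Fin (m + 2) × ℤˣ) : (wp p).1 (zz, 1) = p := (exists_image zz p).choose_spec

end special

end Pool.Agent.KS6_96.He
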